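import Pool.Agent.Q179.ZP.Inj

/-!
# The kernel of the homomorphism to the group, and injectivity
-/

set_option autoImplicit false

namespace Pool.Agent.Q179.ZP

open Pool.Agent.TH625.LOG Filter

section Shift

variable {H : Type} [Group H]

/-- germs at infinity of sequences in `H` -/
abbrev Gm (H : Type) : Type := Germ (atTop : Filter ℕ) H

/-- the shift of germs -/
def shift : Equiv.Perm (Gm H) where
  toFun f := f.compTendsto (fun k : ℕ => k - 1) (tendsto_sub_atTop_nat 1)
  invFun f := f.compTendsto (fun k : ℕ => k + 1) (tendsto_add_atTop_nat 1)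
  left_inv f := by
    induction f using Germ.inductionOn with
    | h f =>
      show ((fun k => f (k + 1 - 1) : ℕ → H) : Gm H) = (f : Gm H)
      rfl
  right_inv f := by
    induction f using Germ.inductionOn with
    | h f =>
      show ((fun k => f (k - 1 + 1) : ℕ → H) : Gm H) = (f : Gm H)
      refine Germ.coe_eq.2 ?_
      filter_upwards [eventually_ge_atTop 1] with k hk
      show f (k - 1 + 1) = f k
      rw [Nat.sub_add_cancel hk]

theorem shift_coe (f : ℕ → H) : shift (f : Gm H) = ((fun k => f (k - 1) : ℕ → H) : Gm H) := rfl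

theorem shift_mul (x y : Gm H) : shift (x * y) = shift x * shift y := by
  induction x using Germ.inductionOn with
  | h f =>
    induction y using Germ.inductionOn with
    | h g => rfl

theorem shift_mulLeft (x : Gm H) :
    shift * Equiv.mulLeft x = Equiv.mulLeft (shift x) * shift := by
  ext y : 1
  show shift (x * y) = shift x * shift y
  exact shift_mul x y

/-- the sequence of the iterates of `ψ` -/
def seq (ψ : H →* H) : H →* Gm H where
  toFun h := ((fun k => ψ^[k] h : ℕ → H) : Gm H)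
  map_one' := by
    refine Germ.coe_eq.2 (Eventually.of_forall fun k => ?_)
    exact iterate_map_one ψ k
  map_mul' x y := by
    refine Germ.coe_eq.2 (Eventually.of_forall fun k => ?_)
    exact iterate_map_mul ψ k x y

theorem shift_seq (ψ : H →* H) (h : H) : shift (seq ψ (ψ h)) = seq ψ h := by
  show shift ((fun k => ψ^[k] (ψ h) : ℕ → H) : Gm H) = _
  rw [shift_coe]
  refine Germ.coe_eq.2 ?_
  filter_upwards [eventually_ge_atTop 1] with k hk
  obtain ⟨m, rfl⟩ := Nat.exists_eq_add_of_le' hk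
  rfl

theorem seq_eq_one {ψ : H →* H} {h : H} (hs : seq ψ h = 1) : ∃ n : ℕ, ψ^[n] h = 1 := by
  have h1 : ((fun k => ψ^[k] h : ℕ → H) : Gm H) = ((fun _ => 1 : ℕ → H) : Gm H) := hs
  obtain ⟨n, hn⟩ := (Germ.coe_eq.1 h1).exists
  exact ⟨n, hn⟩

/-- left multiplications as a homomorphism -/
def lm : Gm H →* Equiv.Perm (Gm H) where
  toFun x := Equiv.mulLeft x
  map_one' := by ext y : 1; exact one_mul y
  map_mul' x z := by ext y : 1; exact mul_assoc x z y

theorem lm_inj : Function.Injective (lm : Gm H →* Equiv.Perm (Gm H)) := by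
  intro x y h
  have h1 := DFunLike.congr_fun h 1
  have h2 : x * 1 = y * 1 := h1
  rwa [mul_one, mul_one] at h2

theorem shift_lm (x : Gm H) : shift * lm x = lm (shift x) * shift := shift_mulLeft x

theorem shift_lm' (x : Gm H) : shift * lm x * shift⁻¹ = lm (shift x) := by
  rw [shift_lm, mul_inv_cancel_right]

end Shift

variable {V E : Type} {L : LOG V E} {V₀ V₁ : Set V} {E₀ E₁ : Set E}

/-- Zipping extensions: the kernel of the homomorphism `κ`, and the injectivity of the homomorphism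
of the groups induced by the inclusion of the starting subgraph. -/
theorem exists_hnn2 (hc : Closed L V₀ E₀) (hz : Zips L V₀ E₀) (hE : E₀ ⊆ E₁) (o : V₀) :
    Function.Injective (toR hc hE) ∧
    ∃ (α : V → HH (KK (sub L V₀ E₀ hc)) (E ⊕ E × ℕ))
      (ψ : HH (KK (sub L V₀ E₀ hc)) (E ⊕ E × ℕ) →* HH (KK (sub L V₀ E₀ hc)) (E ⊕ E × ℕ))
      (κ : HH (KK (sub L V₀ E₀ hc)) (E ⊕ E × ℕ) →* (restr L E₁).G),
      (∀ v, κ (α v) = (restr L E₁).gen v * ((restr L E₁).gen o)⁻¹) ∧
      (∀ h, κ (ψ h) = ((restr L E₁).gen o)⁻¹ * κ h * (restr L E₁).gen o) ∧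
      (∀ h, κ h = 1 → ∃ n : ℕ, ψ^[n] h = 1) := by
  classical
  obtain ⟨α, ψ, κ, b1, b2, b3, b4, b5, b6, b7, b8, b9, b10, b11, b12, b13⟩ :=
    exists_hnn hc hz hE o
  -- the elements
  let X : V → Equiv.Perm (Gm (HH (KK (sub L V₀ E₀ hc)) (E ⊕ E × ℕ))) := fun v => lm (seq ψ (α v)) * shift
  have hX : ∀ v, X v = lm (seq ψ (α v)) * shift := fun _ => rfl
  have hsh : ∀ v, shift (seq ψ (ψ (α v))) = seq ψ (α v) := fun v => shift_seq ψ _
  have hrel : ∀ e ∈ E₁, X (L.ini e) * X (L.lab e) = X (L.lab e) * X (L.ter e) := by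
    intro e he
    rw [hX, hX, hX]
    have h1 : seq ψ (α (L.ini e)) * shift (seq ψ (α (L.lab e))) =
        seq ψ (α (L.lab e)) * shift (seq ψ (α (L.ter e))) := by
      have e1 : ψ (α (L.ini e)) * α (L.lab e) = ψ (α (L.lab e)) * α (L.ter e) := by
        rw [b3 e]
        unfold BB
        rw [dl_pos he, one_mul, mul_assoc, inv_mul_cancel_right]
      calc seq ψ (α (L.ini e)) * shift (seq ψ (α (L.lab e)))
          = shift (seq ψ (ψ (α (L.ini e)))) * shift (seq ψ (α (L.lab e))) := by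
            rw [shift_seq ψ (α (L.ini e))]
        _ = shift (seq ψ (ψ (α (L.ini e)) * α (L.lab e))) := by
            rw [← shift_mul, ← map_mul (seq ψ)]
        _ = shift (seq ψ (ψ (α (L.lab e)) * α (L.ter e))) := by rw [e1]
        _ = shift (seq ψ (ψ (α (L.lab e)))) * shift (seq ψ (α (L.ter e))) := by
            rw [← shift_mul, ← map_mul (seq ψ)]
        _ = seq ψ (α (L.lab e)) * shift (seq ψ (α (L.ter e))) := by
            rw [shift_seq ψ (α (L.lab e))]
    calc lm (seq ψ (α (L.ini e))) * shift * (lm (seq ψ (α (L.lab e))) * shift)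
        = lm (seq ψ (α (L.ini e))) * (shift * lm (seq ψ (α (L.lab e)))) * shift := by group
      _ = lm (seq ψ (α (L.ini e)) * shift (seq ψ (α (L.lab e)))) * shift * shift := by
          rw [shift_lm, map_mul]; group
      _ = lm (seq ψ (α (L.lab e)) * shift (seq ψ (α (L.ter e)))) * shift * shift := by rw [h1]
      _ = lm (seq ψ (α (L.lab e))) * (shift * lm (seq ψ (α (L.ter e)))) * shift := by
          rw [shift_lm, map_mul]; group
      _ = lm (seq ψ (α (L.lab e))) * shift * (lm (seq ψ (α (L.ter e))) * shift) := by group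
  let Γ : (restr L E₁).G →* Equiv.Perm (Gm (HH (KK (sub L V₀ E₀ hc)) (E ⊕ E × ℕ))) :=
    homG (restr L E₁) X (fun e => hrel e e.2)
  have hΓ : ∀ v, Γ ((restr L E₁).gen v) = lm (seq ψ (α v)) * shift := fun v =>
    homG_gen (restr L E₁) X (fun e => hrel e e.2) v
  have hΓo : Γ ((restr L E₁).gen o) = shift := by
    rw [hΓ, b1, map_one, map_one, one_mul]
  -- the starting group
  let nn : (sub L V₀ E₀ hc).G → KK (sub L V₀ E₀ hc) := fun g => ⟨g * ((sub L V₀ E₀ hc).gen o) ^ (-dg (sub L V₀ E₀ hc) g), by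
    rw [mem_KK, dg_mul]
    have : dg (sub L V₀ E₀ hc) (((sub L V₀ E₀ hc).gen o) ^ (-dg (sub L V₀ E₀ hc) g)) = -dg (sub L V₀ E₀ hc) g := by
      unfold dg
      rw [map_zpow, deg_gen, ← ofAdd_zsmul]
      simp
    rw [this]; ring⟩
  have hcj : ∀ (a : ℤ) (n m : KK (sub L V₀ E₀ hc)), (m : (sub L V₀ E₀ hc).G) = ((sub L V₀ E₀ hc).gen o) ^ a * n * ((sub L V₀ E₀ hc).gen o) ^ (-a) →
      shift ^ a * lm (seq ψ (incl n)) * shift ^ (-a) = lm (seq ψ (incl m)) := by
    have base : ∀ n m : KK (sub L V₀ E₀ hc), (m : (sub L V₀ E₀ hc).G) = (sub L V₀ E₀ hc).gen o * n * ((sub L V₀ E₀ hc).gen o)⁻¹ →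
        shift * lm (seq ψ (incl n)) * shift⁻¹ = lm (seq ψ (incl m)) := by
      intro n m hm
      have h1 : ψ (incl m) = incl n := b5 m n (by rw [hm]; group)
      rw [← h1, shift_lm', shift_seq]
    intro a
    induction a using Int.induction_on with
    | zero =>
      intro n m hm
      have : m = n := Subtype.ext (by rw [hm]; simp)
      rw [this]; simp
    | succ a ih =>
      intro n m hm
      have h1 : (((sub L V₀ E₀ hc).gen o) ^ (a : ℤ) * n * ((sub L V₀ E₀ hc).gen o) ^ (-(a : ℤ))) ∈ KK (sub L V₀ E₀ hc) := by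
        have := (inferInstance : (KK (sub L V₀ E₀ hc)).Normal).conj_mem n n.2 (((sub L V₀ E₀ hc).gen o) ^ (a : ℤ))
        rwa [← zpow_neg] at this
      have h2 := ih n ⟨_, h1⟩ rfl
      have h3 := base ⟨_, h1⟩ m (by
        rw [hm]
        show _ = (sub L V₀ E₀ hc).gen o * (((sub L V₀ E₀ hc).gen o) ^ (a : ℤ) * n * ((sub L V₀ E₀ hc).gen o) ^ (-(a : ℤ))) * ((sub L V₀ E₀ hc).gen o)⁻¹
        rw [zpow_add, zpow_one, neg_add, zpow_add, zpow_neg_one]
        have := zpow_mul_comm ((sub L V₀ E₀ hc).gen o) 1 (a : ℤ)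
        rw [zpow_one] at this
        rw [← this]
        group)
      rw [← h3, ← h2, zpow_add, zpow_one, neg_add, zpow_add, zpow_neg_one]
      have := zpow_mul_comm (shift : Equiv.Perm (Gm (HH (KK (sub L V₀ E₀ hc)) (E ⊕ E × ℕ)))) 1 (a : ℤ)
      rw [zpow_one] at this
      rw [← this]
      group
    | pred a ih =>
      intro n m hm
      have h1 : ((sub L V₀ E₀ hc).gen o * m * ((sub L V₀ E₀ hc).gen o)⁻¹) ∈ KK (sub L V₀ E₀ hc) :=
        (inferInstance : (KK (sub L V₀ E₀ hc)).Normal).conj_mem m m.2 ((sub L V₀ E₀ hc).gen o)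
      have h2 := ih n ⟨_, h1⟩ (by
        show (sub L V₀ E₀ hc).gen o * m * ((sub L V₀ E₀ hc).gen o)⁻¹ = _
        rw [hm, zpow_sub, zpow_one, neg_sub, sub_neg_eq_add, zpow_add, zpow_one]
        have := zpow_mul_comm ((sub L V₀ E₀ hc).gen o) 1 (-(a : ℤ))
        rw [zpow_one] at this
        group)
      have h3 := base m ⟨_, h1⟩ rfl
      have h4 : lm (seq ψ (incl m)) = shift⁻¹ * (shift ^ (-(a : ℤ)) * lm (seq ψ (incl n)) *
          shift ^ (-(-(a : ℤ)))) * shift := by
        rw [h2, ← h3]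
        group
      rw [h4]
      group
  have hdz : ∀ g h : (sub L V₀ E₀ hc).G, ((nn (g * h) : KK (sub L V₀ E₀ hc)) : (sub L V₀ E₀ hc).G) =
      nn g * (((sub L V₀ E₀ hc).gen o) ^ (dg (sub L V₀ E₀ hc) g) * nn h * ((sub L V₀ E₀ hc).gen o) ^ (-dg (sub L V₀ E₀ hc) g)) := by
    intro g h
    show g * h * ((sub L V₀ E₀ hc).gen o) ^ (-dg (sub L V₀ E₀ hc) (g * h)) = g * ((sub L V₀ E₀ hc).gen o) ^ (-dg (sub L V₀ E₀ hc) g) *
      (((sub L V₀ E₀ hc).gen o) ^ (dg (sub L V₀ E₀ hc) g) * (h * ((sub L V₀ E₀ hc).gen o) ^ (-dg (sub L V₀ E₀ hc) h)) * ((sub L V₀ E₀ hc).gen o) ^ (-dg (sub L V₀ E₀ hc) g))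
    rw [dg_mul, neg_add_rev, zpow_add]
    group
  let Λ : (sub L V₀ E₀ hc).G →* Equiv.Perm (Gm (HH (KK (sub L V₀ E₀ hc)) (E ⊕ E × ℕ))) := MonoidHom.mk'
    (fun g => lm (seq ψ (incl (nn g))) * shift ^ (dg (sub L V₀ E₀ hc) g)) (by
      intro g h
      have h1 : (((sub L V₀ E₀ hc).gen o) ^ (dg (sub L V₀ E₀ hc) g) * nn h * ((sub L V₀ E₀ hc).gen o) ^ (-dg (sub L V₀ E₀ hc) g)) ∈ KK (sub L V₀ E₀ hc) := by
        have := (inferInstance : (KK (sub L V₀ E₀ hc)).Normal).conj_mem (nn h) (nn h).2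
          (((sub L V₀ E₀ hc).gen o) ^ (dg (sub L V₀ E₀ hc) g))
        rwa [← zpow_neg] at this
      have h2 : nn (g * h) = nn g * ⟨_, h1⟩ := Subtype.ext (hdz g h)
      rw [h2, map_mul, map_mul, map_mul, ← hcj (dg (sub L V₀ E₀ hc) g) (nn h) ⟨_, h1⟩ rfl, dg_mul, zpow_add]
      group)
  have hΛ : ∀ g, Λ g = lm (seq ψ (incl (nn g))) * shift ^ (dg (sub L V₀ E₀ hc) g) := fun _ => rfl
  have hΓΛ : Γ.comp (toR hc hE) = Λ := by
    refine hom_extG (sub L V₀ E₀ hc) fun v => ?_
    rw [MonoidHom.comp_apply, toR_gen, hΓ, hΛ, dg_gen, zpow_one, b2 v (nn ((sub L V₀ E₀ hc).gen v))]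
    show (sub L V₀ E₀ hc).gen v * ((sub L V₀ E₀ hc).gen o) ^ (-dg (sub L V₀ E₀ hc) ((sub L V₀ E₀ hc).gen v)) = _
    rw [dg_gen, zpow_neg_one]
  have hΓn : ∀ n : KK (sub L V₀ E₀ hc), Γ (toR hc hE n) = lm (seq ψ (incl n)) := by
    intro n
    have h1 : Γ (toR hc hE n) = Λ n := DFunLike.congr_fun hΓΛ _
    have h2 : dg (sub L V₀ E₀ hc) (n : (sub L V₀ E₀ hc).G) = 0 := n.2
    have h3 : nn (n : (sub L V₀ E₀ hc).G) = n := Subtype.ext (by
      show (n : (sub L V₀ E₀ hc).G) * ((sub L V₀ E₀ hc).gen o) ^ (-dg (sub L V₀ E₀ hc) (n : (sub L V₀ E₀ hc).G)) = n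
      rw [h2]; simp)
    rw [h1, hΛ, h3, h2, zpow_zero, mul_one]
  -- the values of `Γ ∘ κ`
  have hΓκ : Γ.comp κ = lm.comp (seq ψ) := by
    refine hom_extH (fun n => ?_) (fun e => ?_)
    · rw [MonoidHom.comp_apply, MonoidHom.comp_apply, b8, hΓn]
    · have h2 : ∀ x : Gm (HH (KK (sub L V₀ E₀ hc)) (E ⊕ E × ℕ)), (shift x)⁻¹ = shift x⁻¹ := by
        intro x
        have h3 : shift (x * x⁻¹) = shift x * shift x⁻¹ := shift_mul _ _
        rw [mul_inv_cancel] at h3
        have h4 : shift (1 : Gm (HH (KK (sub L V₀ E₀ hc)) (E ⊕ E × ℕ))) = 1 := rfl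
        rw [h4] at h3
        exact (eq_inv_of_mul_eq_one_right h3.symm).symm
      rw [MonoidHom.comp_apply, MonoidHom.comp_apply]
      rcases e with e | ⟨e, k⟩
      · rw [b9, map_mul, map_mul, map_mul, map_inv, map_inv, hΓo, hΓ, hΓ]
        have h1 : seq ψ (bb (Sum.inl e)) = (seq ψ (α (L.lab e)))⁻¹ * seq ψ (α (L.ini e)) := by
          rw [← shift_seq ψ (bb (Sum.inl e)), b4 e, ← shift_seq ψ (α (L.lab e)),
            ← shift_seq ψ (α (L.ini e)), b3 e]
          rw [h2, ← shift_mul, ← map_inv, ← map_mul]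
          congr 2
          group
        rw [h1, map_mul, map_inv]
        group
      · by_cases he : e ∈ E₁
        · rw [b12 e he k, map_one, ← shift_seq ψ (bb (Sum.inr (e, k))), b10 e he k, map_one]
          exact (map_one lm).symm
        · -- the value of `Γ` at `D_e`
          have h3 : Γ (DD L E₁ e) = lm (seq ψ (bb (Sum.inr (e, 0)))) := by
            have h4 : seq ψ (bb (Sum.inr (e, 0))) =
                seq ψ ((ψ (α (L.lab e)))⁻¹ * ψ (α (L.ini e)) * α (L.lab e) *
                  (α (L.ter e))⁻¹) := by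
              congr 1
              rw [b3 e]
              unfold BB
              rw [dl_neg he]
              group
            have h5 : shift⁻¹ * lm (seq ψ ((α (L.lab e))⁻¹ * α (L.ini e))) * shift =
                lm (seq ψ ((ψ (α (L.lab e)))⁻¹ * ψ (α (L.ini e)))) := by
              rw [← map_inv ψ, ← map_mul ψ, ← shift_seq ψ ((α (L.lab e))⁻¹ * α (L.ini e)),
                ← shift_lm']
              group
            unfold DD
            rw [map_mul, map_mul, map_mul, map_inv, map_inv, hΓ, hΓ, hΓ, h4, map_mul (seq ψ),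
              map_mul (seq ψ) (_ * _) (α (L.lab e)), map_mul lm, map_mul lm, ← h5, map_mul,
              map_mul, map_inv, map_inv, map_inv, map_inv]
            group
          rw [b13 e he k, map_mul, map_mul, map_inv, map_pow, hΓo, h3]
          have h6 : ∀ k : ℕ, (shift ^ k)⁻¹ * lm (seq ψ (bb (Sum.inr (e, 0)))) * shift ^ k =
              lm (seq ψ (bb (Sum.inr (e, k)))) := by
            intro k
            induction k with
            | zero => simp
            | succ k ih =>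
              rw [← b11 e he k]
              have h7 : lm (seq ψ (bb (Sum.inr (e, k)))) =
                  shift * lm (seq ψ (ψ (bb (Sum.inr (e, k))))) * shift⁻¹ := by
                rw [shift_lm', shift_seq]
              rw [pow_succ, mul_inv_rev]
              have h8 : shift⁻¹ * (shift ^ k)⁻¹ * lm (seq ψ (bb (Sum.inr (e, 0)))) *
                  (shift ^ k * shift) = shift⁻¹ * ((shift ^ k)⁻¹ *
                    lm (seq ψ (bb (Sum.inr (e, 0)))) * shift ^ k) * shift := by group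
              rw [h8, ih, h7]
              group
          exact h6 k
  have hker : ∀ h, κ h = 1 → ∃ n : ℕ, ψ^[n] h = 1 := by
    intro h hh
    have h1 : Γ (κ h) = lm (seq ψ h) := DFunLike.congr_fun hΓκ h
    rw [hh, map_one] at h1
    exact seq_eq_one (lm_inj (h1.symm.trans (map_one lm).symm))
  refine ⟨?_, α, ψ, κ, b6, b7, hker⟩
  rw [injective_iff_map_eq_one]
  intro g hg
  have h1 : dg (sub L V₀ E₀ hc) g = 0 := by
    rw [← dg_toR hc hE g, hg, dg_one]
  have h2 : κ (incl ⟨g, h1⟩) = 1 := by rw [b8]; exact hg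
  obtain ⟨n, hn⟩ := hker _ h2
  have h3 : ∀ (k : ℕ) (x : KK (sub L V₀ E₀ hc)), ψ^[k] (incl x) = 1 → x = 1 := by
    intro k
    induction k with
    | zero =>
      intro x hx
      exact incl_inj (hx.trans (map_one incl).symm)
    | succ k ih =>
      intro x hx
      rw [Function.iterate_succ_apply] at hx
      have h4 : ((sub L V₀ E₀ hc).gen o)⁻¹ * x * (sub L V₀ E₀ hc).gen o ∈ KK (sub L V₀ E₀ hc) := by
        have := (inferInstance : (KK (sub L V₀ E₀ hc)).Normal).conj_mem x x.2 ((sub L V₀ E₀ hc).gen o)⁻¹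
        rwa [inv_inv] at this
      have h5 : ψ (incl x) = incl ⟨_, h4⟩ := b5 x ⟨_, h4⟩ rfl
      have h6 : ψ^[k] (ψ (incl x)) = 1 := hx
      rw [h5] at h6
      have h7 := congrArg Subtype.val (ih _ h6)
      have h8 : ((sub L V₀ E₀ hc).gen o)⁻¹ * (x : (sub L V₀ E₀ hc).G) * (sub L V₀ E₀ hc).gen o = 1 := h7
      apply Subtype.ext
      show (x : (sub L V₀ E₀ hc).G) = 1
      have h9 : (x : (sub L V₀ E₀ hc).G) = (sub L V₀ E₀ hc).gen o * (((sub L V₀ E₀ hc).gen o)⁻¹ * (x : (sub L V₀ E₀ hc).G) * (sub L V₀ E₀ hc).gen o) *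
        ((sub L V₀ E₀ hc).gen o)⁻¹ := by group
      rw [h9, h8]; simp
  exact congrArg Subtype.val (h3 n _ hn)

end Pool.Agent.Q179.ZP
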