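import Pool.Agent.Q179.ZP.Low
import Pool.Agent.Q179.ZP.Rep

/-!
# Asphericity of zipping extensions
-/

set_option autoImplicit false

namespace Pool.Agent.Q179.ZP

open Pool.Agent.TH625.LOG

variable {V E : Type} {L : LOG V E} {V₀ V₁ : Set V} {E₀ E₁ : Set E}

theorem incG_inj (h₀ : Closed L V₀ E₀) (hz : Zips L V₀ E₀) (hne : V₀.Nonempty)
    (h₁ : Closed L V₁ E₁) (hV : V₀ ⊆ V₁) (hE : E₀ ⊆ E₁) :
    Function.Injective (incG h₀ h₁ hV hE) := by
  obtain ⟨o, ho⟩ := hne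
  have h1 := (exists_hnn2 h₀ hz hE ⟨o, ho⟩).1
  rw [← toR_incG h₀ h₁ hV hE] at h1
  exact Function.Injective.of_comp (f := toR h₁ subset_rfl) (by exact h1)

/-- asphericity is inherited by the starting subgraph -/
theorem asph_down (h₀ : Closed L V₀ E₀) (h₁ : Closed L V₁ E₁) (hV : V₀ ⊆ V₁) (hE : E₀ ⊆ E₁)
    (hj : Function.Injective (incG h₀ h₁ hV hE)) (ha : Asph (sub L V₁ E₁ h₁)) :
    Asph (sub L V₀ E₀ h₀) := by
  classical
  intro c hc
  let F : E₀ × (sub L V₀ E₀ h₀).G → E₁ × (sub L V₁ E₁ h₁).G := fun d =>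
    (⟨d.1, hE d.1.2⟩, incG h₀ h₁ hV hE d.2)
  let F' : V₀ × (sub L V₀ E₀ h₀).G → V₁ × (sub L V₁ E₁ h₁).G := fun d =>
    (⟨d.1, hV d.1.2⟩, incG h₀ h₁ hV hE d.2)
  have hF : Function.Injective F := by
    rintro ⟨e, g⟩ ⟨e', g'⟩ h
    have h2 := congrArg Prod.snd h
    have h3 : (e : E) = e' := congrArg (fun x : E₁ × (sub L V₁ E₁ h₁).G => (x.1 : E)) h
    exact Prod.ext (Subtype.ext h3) (hj h2)
  have hside : ∀ (d : E₀ × (sub L V₀ E₀ h₀).G) (k : Fin 4),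
      (sub L V₁ E₁ h₁).side (F d) k = F' ((sub L V₀ E₀ h₀).side d k) := by
    rintro ⟨e, g⟩ k
    show ((sub L V₁ E₁ h₁).sv ⟨e, hE e.2⟩ k,
      incG h₀ h₁ hV hE g * (sub L V₁ E₁ h₁).sg ⟨e, hE e.2⟩ k) =
      (⟨((sub L V₀ E₀ h₀).sv e k : V₀), hV ((sub L V₀ E₀ h₀).sv e k).2⟩,
        incG h₀ h₁ hV hE (g * (sub L V₀ E₀ h₀).sg e k))
    rw [map_mul]
    fin_cases k
    · exact Prod.ext rfl (congrArg (fun y => incG h₀ h₁ hV hE g * y)
        (map_one (incG h₀ h₁ hV hE)).symm)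
    · exact Prod.ext rfl (congrArg (fun y => incG h₀ h₁ hV hE g * y)
        (incG_gen h₀ h₁ hV hE ((sub L V₀ E₀ h₀).ini e)).symm)
    · exact Prod.ext rfl (congrArg (fun y => incG h₀ h₁ hV hE g * y)
        (map_one (incG h₀ h₁ hV hE)).symm)
    · exact Prod.ext rfl (congrArg (fun y => incG h₀ h₁ hV hE g * y)
        (incG_gen h₀ h₁ hV hE ((sub L V₀ E₀ h₀).lab e)).symm)
  have hb : (sub L V₁ E₁ h₁).bdry (c.mapDomain F) =
      ((sub L V₀ E₀ h₀).bdry c).mapDomain F' := by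
    unfold LOG.bdry
    rw [Finsupp.sum_mapDomain_index]
    · unfold Finsupp.sum
      rw [Finsupp.mapDomain_finsetSum]
      refine Finset.sum_congr rfl fun d _ => ?_
      rw [Finsupp.mapDomain_finsetSum]
      refine Finset.sum_congr rfl fun k _ => ?_
      rw [Finsupp.mapDomain_single, hside]
    · intro d
      refine Finset.sum_eq_zero fun k _ => ?_
      rw [mul_zero, Finsupp.single_zero]
    · intro d a b
      rw [← Finset.sum_add_distrib]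
      refine Finset.sum_congr rfl fun k _ => ?_
      rw [mul_add, Finsupp.single_add]
  rw [hc, Finsupp.mapDomain_zero] at hb
  have h1 := ha _ hb
  exact Finsupp.mapDomain_injective hF (h1.trans Finsupp.mapDomain_zero.symm)

/-- asphericity of the starting subgraph gives the asphericity of all larger subgraphs -/
theorem asph_up (h₀ : Closed L V₀ E₀) (hz : Zips L V₀ E₀) (h₁ : Closed L V₁ E₁) (hV : V₀ ⊆ V₁)
    (hE : E₀ ⊆ E₁) (hj : Function.Injective (incG h₀ h₁ hV hE)) (ha : Asph (sub L V₀ E₀ h₀)) :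
    Asph (sub L V₁ E₁ h₁) := by
  classical
  intro c hc
  have hsupp := supp_base h₀ hz h₁ c hc
  by_contra hne
  obtain ⟨⟨e0, g0⟩, hd⟩ := Finsupp.support_nonempty_iff.2 hne
  let ι : E₀ → E₁ := fun e => ⟨e, hE e.2⟩
  have hι : Function.Injective ι := by
    intro e e' h
    exact Subtype.ext (congrArg (fun x : E₁ => (x : E)) h)
  let F : E₀ × (sub L V₀ E₀ h₀).G → E₁ × (sub L V₁ E₁ h₁).G := fun d =>
    (ι d.1, g0 * incG h₀ h₁ hV hE d.2)
  have hF : Function.Injective F := by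
    rintro ⟨e, g⟩ ⟨e', g'⟩ h
    exact Prod.ext (hι (congrArg Prod.fst h)) (hj (mul_left_cancel (congrArg Prod.snd h)))
  let c₀ : (E₀ × (sub L V₀ E₀ h₀).G) →₀ ℤ := c.comapDomain F hF.injOn
  have hc₀ : ∀ e h, c₀ (e, h) = c (ι e, g0 * incG h₀ h₁ hV hE h) := fun e h => rfl
  let s₀ : Finset E₀ := (c.support.image Prod.fst).preimage ι hι.injOn
  have hs₀ : ∀ d ∈ c₀.support, d.1 ∈ s₀ := by
    intro d hd
    rw [Finset.mem_preimage, Finset.mem_image]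
    have h0 : c₀ d ≠ 0 := Finsupp.mem_support_iff.1 hd
    exact ⟨F d, Finsupp.mem_support_iff.2 h0, rfl⟩
  have hs₁ : ∀ d ∈ c.support, d.1 ∈ s₀.image ι := by
    intro d hd
    rw [Finset.mem_image]
    refine ⟨⟨d.1, hsupp d hd⟩, ?_, rfl⟩
    rw [Finset.mem_preimage]
    exact Finset.mem_image_of_mem _ hd
  have hb₀ : (sub L V₀ E₀ h₀).bdry c₀ = 0 := by
    ext ⟨v, h⟩
    have h1 := bdry_apply' (sub L V₁ E₁ h₁) c (s₀.image ι) hs₁ ⟨v, hV v.2⟩
      (g0 * incG h₀ h₁ hV hE h)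
    rw [hc, Finsupp.coe_zero, Pi.zero_apply, Finset.sum_image hι.injOn] at h1
    rw [bdry_apply' (sub L V₀ E₀ h₀) c₀ s₀ hs₀ v h, Finsupp.coe_zero, Pi.zero_apply]
    refine Eq.trans ?_ h1.symm
    refine Finset.sum_congr rfl fun e _ => ?_
    have i1 : ((sub L V₁ E₁ h₁).ini (ι e) = ⟨v, hV v.2⟩) ↔ ((sub L V₀ E₀ h₀).ini e = v) := by
      rw [Subtype.ext_iff, Subtype.ext_iff]; exact Iff.rfl
    have i2 : ((sub L V₁ E₁ h₁).lab (ι e) = ⟨v, hV v.2⟩) ↔ ((sub L V₀ E₀ h₀).lab e = v) := by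
      rw [Subtype.ext_iff, Subtype.ext_iff]; exact Iff.rfl
    have i3 : ((sub L V₁ E₁ h₁).ter (ι e) = ⟨v, hV v.2⟩) ↔ ((sub L V₀ E₀ h₀).ter e = v) := by
      rw [Subtype.ext_iff, Subtype.ext_iff]; exact Iff.rfl
    have j1 : c₀ (e, h) = c (ι e, g0 * incG h₀ h₁ hV hE h) := rfl
    have j2 : c₀ (e, h * ((sub L V₀ E₀ h₀).gen ((sub L V₀ E₀ h₀).ini e))⁻¹) =
        c (ι e, g0 * incG h₀ h₁ hV hE h *
          ((sub L V₁ E₁ h₁).gen ((sub L V₁ E₁ h₁).ini (ι e)))⁻¹) := by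
      rw [hc₀, map_mul, map_inv, incG_gen, mul_assoc]
      rfl
    have j3 : c₀ (e, h * ((sub L V₀ E₀ h₀).gen ((sub L V₀ E₀ h₀).lab e))⁻¹) =
        c (ι e, g0 * incG h₀ h₁ hV hE h *
          ((sub L V₁ E₁ h₁).gen ((sub L V₁ E₁ h₁).lab (ι e)))⁻¹) := by
      rw [hc₀, map_mul, map_inv, incG_gen, mul_assoc]
      rfl
    rw [j1, j2, j3]
    simp only [i1, i2, i3]
  have h2 := ha c₀ hb₀
  have h3 : c₀ (⟨e0, hsupp _ hd⟩, 1) = c (e0, g0) := by
    rw [hc₀, map_one, mul_one]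
  rw [h2] at h3
  exact (Finsupp.mem_support_iff.1 hd) h3.symm

/-- **Zipping extensions.**  For all subgraphs between the starting subgraph and `L`. -/
theorem asph_iff (h₀ : Closed L V₀ E₀) (hz : Zips L V₀ E₀) (hne : V₀.Nonempty)
    (h₁ : Closed L V₁ E₁) (hV : V₀ ⊆ V₁) (hE : E₀ ⊆ E₁) :
    Function.Injective (incG h₀ h₁ hV hE) ∧
      (Asph (sub L V₁ E₁ h₁) ↔ Asph (sub L V₀ E₀ h₀)) :=
  have hj := incG_inj h₀ hz hne h₁ hV hE
  ⟨hj, asph_down h₀ h₁ hV hE hj, asph_up h₀ hz h₁ hV hE hj⟩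

/-- If the starting subgraph has no edges, all subgraphs are aspherical. -/
theorem asph_all (h₀ : Closed L V₀ ∅) (hz : Zips L V₀ ∅) (h₁ : Closed L V₁ E₁) :
    Asph (sub L V₁ E₁ h₁) := by
  intro c hc
  by_contra hne
  obtain ⟨d, hd⟩ := Finsupp.support_nonempty_iff.2 hne
  exact supp_base h₀ hz h₁ c hc d hd

end Pool.Agent.Q179.ZP
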