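import Pool.Agent.Q179.ZP.Ring

/-!
# The boundary operator: values, degrees
-/

set_option autoImplicit false

namespace Pool.Agent.Q179.ZP

open Pool.Agent.TH625.LOG

variable {V E : Type}

theorem bdry_apply (L : LOG V E) [DecidableEq V] (c : (E × L.G) →₀ ℤ) (s : Finset E)
    (hs : ∀ d ∈ c.support, d.1 ∈ s) (v : V) (g : L.G) :
    L.bdry c (v, g) = ∑ e ∈ s, ∑ k : Fin 4,
      if L.sv e k = v then sgn k * c (e, g * (L.sg e k)⁻¹) else 0 := by
  classical
  unfold LOG.bdry Finsupp.sum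
  rw [Finset.sum_apply']
  simp_rw [Finset.sum_apply']
  rw [Finset.sum_comm, Finset.sum_comm (s := s)]
  refine Finset.sum_congr rfl fun k _ => ?_
  set F : E × L.G → ℤ := fun d => if L.side d k = (v, g) then sgn k * c d else 0 with hF
  have h1 : ∀ d : E × L.G, (Finsupp.single (L.side d k) (sgn k * c d)) (v, g) = F d := by
    intro d
    rw [Finsupp.single_apply]
  have h2 : ∀ e : E, (if L.sv e k = v then sgn k * c (e, g * (L.sg e k)⁻¹) else 0) =
      F (e, g * (L.sg e k)⁻¹) := by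
    intro e
    simp only [hF, LOG.side, inv_mul_cancel_right, Prod.mk.injEq, and_true]
  simp_rw [h1, h2]
  have hinj : Set.InjOn (fun e : E => ((e, g * (L.sg e k)⁻¹) : E × L.G)) s := by
    intro e _ e' _ h
    exact congrArg Prod.fst h
  rw [← Finset.sum_image (f := F) hinj]
  refine Finset.sum_congr_of_eq_on_inter ?_ ?_ ?_
  · rintro ⟨e, h⟩ hd hd2
    simp only [hF]
    by_contra hne
    have hne2 : L.side (e, h) k = (v, g) := by
      by_contra h3
      rw [if_neg h3] at hne
      exact hne rfl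
    apply hd2
    rw [Finset.mem_image]
    refine ⟨e, hs _ hd, ?_⟩
    have h3 : h * L.sg e k = g := congrArg Prod.snd hne2
    rw [← h3, mul_inv_cancel_right]
  · rintro ⟨e, h⟩ _ hd2
    simp only [hF]
    rw [Finsupp.notMem_support_iff] at hd2
    rw [hd2, mul_zero, ite_self]
  · intros; rfl

/-- the degree -/
def deg (L : LOG V E) : L.G →* Multiplicative ℤ :=
  PresentedGroup.toGroup (f := fun _ => Multiplicative.ofAdd (1 : ℤ)) (by
    rintro _ ⟨e, rfl⟩
    simp [LOG.rel])

theorem deg_gen (L : LOG V E) (v : V) : deg L (L.gen v) = Multiplicative.ofAdd (1 : ℤ) :=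
  PresentedGroup.toGroup.of _

/-- the degree as an integer -/
def dg (L : LOG V E) (g : L.G) : ℤ := Multiplicative.toAdd (deg L g)

theorem dg_mul (L : LOG V E) (g h : L.G) : dg L (g * h) = dg L g + dg L h := by
  unfold dg
  rw [map_mul]; rfl

theorem dg_inv (L : LOG V E) (g : L.G) : dg L g⁻¹ = -dg L g := by
  unfold dg
  rw [map_inv]; rfl

theorem dg_one (L : LOG V E) : dg L 1 = 0 := by
  unfold dg
  rw [map_one]; rfl

theorem dg_gen (L : LOG V E) (v : V) : dg L (L.gen v) = 1 := by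
  unfold dg
  rw [deg_gen]; rfl

theorem bdry_apply' (L : LOG V E) [DecidableEq V] (c : (E × L.G) →₀ ℤ) (s : Finset E)
    (hs : ∀ d ∈ c.support, d.1 ∈ s) (v : V) (g : L.G) :
    L.bdry c (v, g) = ∑ e ∈ s,
      (((if L.ini e = v then c (e, g) else 0) - (if L.lab e = v then c (e, g) else 0)) +
        ((if L.lab e = v then c (e, g * (L.gen (L.ini e))⁻¹) else 0) -
          (if L.ter e = v then c (e, g * (L.gen (L.lab e))⁻¹) else 0))) := by
  rw [bdry_apply L c s hs]
  refine Finset.sum_congr rfl fun e _ => ?_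
  rw [Fin.sum_univ_four]
  have s0 : L.sv e 0 = L.ini e := rfl
  have s1 : L.sv e 1 = L.lab e := rfl
  have s2 : L.sv e 2 = L.lab e := rfl
  have s3 : L.sv e 3 = L.ter e := rfl
  have t0 : L.sg e 0 = 1 := rfl
  have t1 : L.sg e 1 = L.gen (L.ini e) := rfl
  have t2 : L.sg e 2 = 1 := rfl
  have t3 : L.sg e 3 = L.gen (L.lab e) := rfl
  have u0 : sgn 0 = 1 := rfl
  have u1 : sgn 1 = 1 := rfl
  have u2 : sgn 2 = -1 := rfl
  have u3 : sgn 3 = -1 := rfl
  rw [s0, s1, s2, s3, t0, t1, t2, t3, u0, u1, u2, u3, inv_one, mul_one]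
  split_ifs <;> ring

end Pool.Agent.Q179.ZP
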