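import Pool.Agent.TH625.LOG.Main

/-!
# Zipping extensions of labelled oriented graphs

Definitions.
-/

set_option autoImplicit false

namespace Pool.Agent.Q179.ZP

open Pool.Agent.TH625.LOG

variable {V E : Type}

/-- The ends and the labels of the edges in `E₀` lie in `V₀`: the pair is a labelled oriented subgraph. -/
def Closed (L : LOG V E) (V₀ : Set V) (E₀ : Set E) : Prop :=
  ∀ e ∈ E₀, L.ini e ∈ V₀ ∧ L.ter e ∈ V₀ ∧ L.lab e ∈ V₀

/-- The labelled oriented subgraph with the vertices `V₀` and the edges `E₀`. -/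
def sub (L : LOG V E) (V₀ : Set V) (E₀ : Set E) (h : Closed L V₀ E₀) : LOG V₀ E₀ where
  ini e := ⟨L.ini e, (h e e.2).1⟩
  ter e := ⟨L.ter e, (h e e.2).2.1⟩
  lab e := ⟨L.lab e, (h e e.2).2.2⟩

/-- The equivalence relation generated by: any two vertices of `V₀` are joined, and for an edge `g` in `A` with
`ter g` in `U` the vertices `ini g` and `lab g` are joined. -/
def Joined (L : LOG V E) (V₀ : Set V) (A : Set E) (U : Set V) : V → V → Prop :=
  Relation.EqvGen fun u w =>
    (u ∈ V₀ ∧ w ∈ V₀) ∨ ∃ g ∈ A, L.ter g ∈ U ∧ L.ini g = u ∧ L.lab g = w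

/-- The zipping process.  It starts with the subgraph `(V₀, E₀)`; in each step one edge `e` and one vertex are
added.  `S` is the set of the edges and `U` the set of the vertices which have been added, `A` the set of
the edges added by the steps `ini` and `lab`.

* `ini`, `lab`: one of the two vertices `ini e`, `lab e` is old and the other one is added.
* `close`: `ini e` and `lab e` are old, and the new vertex is `ter f`, where either `f = e` and `ini e`, `lab e`
  are joined, or `f` is an edge of `A`, `ter e` is old and the two vertices `ini f`, `lab f` are joined to the two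
  vertices `ini e`, `lab e` in one of the two possible orders. -/
inductive Zip (L : LOG V E) (V₀ : Set V) (E₀ : Set E) : Set E → Set E → Set V → Prop
  | start : Zip L V₀ E₀ E₀ ∅ V₀
  | ini {S A : Set E} {U : Set V} (e : E) : Zip L V₀ E₀ S A U → L.lab e ∈ U → L.ini e ∉ U →
      Zip L V₀ E₀ (insert e S) (insert e A) (insert (L.ini e) U)
  | lab {S A : Set E} {U : Set V} (e : E) : Zip L V₀ E₀ S A U → L.ini e ∈ U → L.lab e ∉ U →
      Zip L V₀ E₀ (insert e S) (insert e A) (insert (L.lab e) U)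
  | close {S A : Set E} {U : Set V} (e f : E) : Zip L V₀ E₀ S A U → e ∉ S → L.ini e ∈ U →
      L.lab e ∈ U → L.ter f ∉ U →
      ((f = e ∧ Joined L V₀ A U (L.ini e) (L.lab e)) ∨
        (f ∈ A ∧ L.ter e ∈ U ∧
          ((Joined L V₀ A U (L.ini f) (L.ini e) ∧ Joined L V₀ A U (L.lab f) (L.lab e)) ∨
            (Joined L V₀ A U (L.ini f) (L.lab e) ∧ Joined L V₀ A U (L.lab f) (L.ini e))))) →
      Zip L V₀ E₀ (insert e S) A (insert (L.ter f) U)

/-- `L` arises from its subgraph `(V₀, E₀)` by the zipping process. -/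
def Zips (L : LOG V E) (V₀ : Set V) (E₀ : Set E) : Prop :=
  ∃ A : Set E, Zip L V₀ E₀ Set.univ A Set.univ

/-- The 2-complex of `L` is aspherical: the boundary operator from the 2-chains to the 1-chains of its
universal covering is injective. -/
def Asph (L : LOG V E) : Prop := ∀ c : (E × L.G) →₀ ℤ, L.bdry c = 0 → c = 0

theorem Zip.base_sub {L : LOG V E} {V₀ : Set V} {E₀ : Set E} {S A : Set E} {U : Set V}
    (h : Zip L V₀ E₀ S A U) : V₀ ⊆ U ∧ E₀ ⊆ S ∧ A ⊆ S := by
  induction h with
  | start => exact ⟨subset_rfl, subset_rfl, Set.empty_subset _⟩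
  | ini e _ _ _ ih =>
    exact ⟨ih.1.trans (Set.subset_insert _ _), ih.2.1.trans (Set.subset_insert _ _),
      Set.insert_subset_insert ih.2.2⟩
  | lab e _ _ _ ih =>
    exact ⟨ih.1.trans (Set.subset_insert _ _), ih.2.1.trans (Set.subset_insert _ _),
      Set.insert_subset_insert ih.2.2⟩
  | close e f _ _ _ _ _ _ ih =>
    exact ⟨ih.1.trans (Set.subset_insert _ _), ih.2.1.trans (Set.subset_insert _ _),
      ih.2.2.trans (Set.subset_insert _ _)⟩

/-- the edges which have been added have `ini` and `lab` in `U` -/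
theorem Zip.ends {L : LOG V E} {V₀ : Set V} {E₀ : Set E} (hc : Closed L V₀ E₀) {S A : Set E}
    {U : Set V} (h : Zip L V₀ E₀ S A U) : ∀ e ∈ S, L.ini e ∈ U ∧ L.lab e ∈ U := by
  induction h with
  | start => exact fun e he => ⟨(hc e he).1, (hc e he).2.2⟩
  | ini e _ h1 h2 ih =>
    rintro g (rfl | hg)
    · exact ⟨Set.mem_insert _ _, Set.mem_insert_of_mem _ h1⟩
    · exact ⟨Set.mem_insert_of_mem _ (ih g hg).1, Set.mem_insert_of_mem _ (ih g hg).2⟩
  | lab e _ h1 h2 ih =>
    rintro g (rfl | hg)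
    · exact ⟨Set.mem_insert_of_mem _ h1, Set.mem_insert _ _⟩
    · exact ⟨Set.mem_insert_of_mem _ (ih g hg).1, Set.mem_insert_of_mem _ (ih g hg).2⟩
  | close e f _ _ h1 h2 _ _ ih =>
    rintro g (rfl | hg)
    · exact ⟨Set.mem_insert_of_mem _ h1, Set.mem_insert_of_mem _ h2⟩
    · exact ⟨Set.mem_insert_of_mem _ (ih g hg).1, Set.mem_insert_of_mem _ (ih g hg).2⟩

/-- the edges of `A` are not in the starting subgraph -/
theorem Zip.not_base {L : LOG V E} {V₀ : Set V} {E₀ : Set E} (hc : Closed L V₀ E₀) {S A : Set E}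
    {U : Set V} (h : Zip L V₀ E₀ S A U) : ∀ e ∈ A, e ∉ E₀ := by
  induction h with
  | start => exact fun e he => he.elim
  | ini e h0 h1 h2 ih =>
    rintro g (rfl | hg)
    · exact fun hg => h2 (h0.base_sub.1 (hc g hg).1)
    · exact ih g hg
  | lab e h0 h1 h2 ih =>
    rintro g (rfl | hg)
    · exact fun hg => h2 (h0.base_sub.1 (hc g hg).2.2)
    · exact ih g hg
  | close e f _ _ h1 h2 _ _ ih => exact ih

/-- the closing edges have `ter` in `U` -/
theorem Zip.ter_mem {L : LOG V E} {V₀ : Set V} {E₀ : Set E} {S A : Set E}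
    {U : Set V} (h : Zip L V₀ E₀ S A U) : ∀ e ∈ S, e ∉ E₀ → e ∉ A → L.ter e ∈ U := by
  induction h with
  | start => exact fun e he h1 => (h1 he).elim
  | ini e _ h1 h2 ih =>
    rintro g (rfl | hg) hg1 hg2
    · exact (hg2 (Set.mem_insert _ _)).elim
    · exact Set.mem_insert_of_mem _ (ih g hg hg1 fun h => hg2 (Set.mem_insert_of_mem _ h))
  | lab e _ h1 h2 ih =>
    rintro g (rfl | hg) hg1 hg2
    · exact (hg2 (Set.mem_insert _ _)).elim
    · exact Set.mem_insert_of_mem _ (ih g hg hg1 fun h => hg2 (Set.mem_insert_of_mem _ h))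
  | close e f _ _ h1 h2 _ h3 ih =>
    rintro g (rfl | hg) hg1 hg2
    · rcases h3 with ⟨rfl, _⟩ | ⟨_, h, _⟩
      · exact Set.mem_insert _ _
      · exact Set.mem_insert_of_mem _ h
    · exact Set.mem_insert_of_mem _ (ih g hg hg1 hg2)

end Pool.Agent.Q179.ZP
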