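import Pool.Agent.Q179.ZP.Simple

/-!
# A family of labelled oriented intervals
-/

set_option autoImplicit false

namespace Pool.Agent.Q179.ZP

open Pool.Agent.TH625.LOG

/-- initial vertex of the edge `i` -/
def fi (i : ℕ) : ℕ := if i % 3 = 0 then i + 1 else i

/-- terminal vertex of the edge `i` -/
def ft (i : ℕ) : ℕ := if i % 3 = 0 then i else i + 1

/-- label of the edge `i` -/
def fl (k i : ℕ) : ℕ :=
  if i % 3 = 0 then (if i = 3 * k then 0 else i + 2)
  else if i ≤ 2 then 3 * k + 1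
  else if i % 3 = 1 then i - 2 else i - 3

/-- The labelled oriented interval with the vertices `0, …, 3 k + 1`; the edge `i` joins `i` and `i + 1`. -/
def fam (k : ℕ) : LOG (Fin (3 * k + 2)) (Fin (3 * k + 1)) where
  ini i := ⟨fi i, by have := i.2; unfold fi; split_ifs <;> omega⟩
  ter i := ⟨ft i, by have := i.2; unfold ft; split_ifs <;> omega⟩
  lab i := ⟨fl k i, by have := i.2; unfold fl; split_ifs <;> omega⟩

/-- the last vertex -/
def lst (k : ℕ) : Fin (3 * k + 2) := ⟨3 * k + 1, by omega⟩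

theorem fam_stage1 (k : ℕ) : ∀ j : ℕ, j ≤ k →
    Zipping (fam k) {lst k} ∅ {e | e.val % 3 ≠ 2 ∧ e.val < 3 * j}
      {v | v.val = 3 * k + 1 ∨ (v.val % 3 ≠ 0 ∧ v.val < 3 * j)}
  | 0, _ => by
    refine Zipping.start.cast ?_ ?_
    · ext e; simp
    · ext v; simp [lst, Fin.ext_iff]
  | j + 1, hj => by
    have ih := fam_stage1 k j (by omega)
    have h1 := Zipping.ini (⟨3 * j + 1, by omega⟩ : Fin (3 * k + 1)) ih
      (by
        show fl k (3 * j + 1) = 3 * k + 1 ∨ (fl k (3 * j + 1) % 3 ≠ 0 ∧ fl k (3 * j + 1) < 3 * j)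
        unfold fl; split_ifs <;> omega)
      (by
        show ¬ (fi (3 * j + 1) = 3 * k + 1 ∨ (fi (3 * j + 1) % 3 ≠ 0 ∧ fi (3 * j + 1) < 3 * j))
        unfold fi; split_ifs <;> omega)
    have h2 := Zipping.lab (⟨3 * j, by omega⟩ : Fin (3 * k + 1)) h1
      (by
        refine Set.mem_insert_iff.2 (Or.inl (Fin.ext ?_))
        show fi (3 * j) = fi (3 * j + 1)
        unfold fi; split_ifs <;> omega)
      (by
        intro h
        rcases Set.mem_insert_iff.1 h with h | h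
        · have h3 := congrArg Fin.val h
          change fl k (3 * j) = fi (3 * j + 1) at h3
          unfold fi fl at h3; split_ifs at h3 <;> omega
        · change fl k (3 * j) = 3 * k + 1 ∨ (fl k (3 * j) % 3 ≠ 0 ∧ fl k (3 * j) < 3 * j) at h
          unfold fl at h; split_ifs at h <;> omega)
    refine h2.cast ?_ ?_
    · ext e
      simp only [Set.mem_insert_iff, Set.mem_ofPred_eq, Fin.ext_iff]
      omega
    · ext v
      have e1 : ((fam k).lab ⟨3 * j, by omega⟩).val = 3 * j + 2 := by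
        show fl k (3 * j) = _
        unfold fl; split_ifs <;> omega
      have e2 : ((fam k).ini ⟨3 * j + 1, by omega⟩).val = 3 * j + 1 := by
        show fi (3 * j + 1) = _
        unfold fi; split_ifs <;> omega
      simp only [Set.mem_insert_iff, Set.mem_ofPred_eq, Fin.ext_iff, e1, e2]
      omega

theorem fam_stage2 (k : ℕ) (hk : 1 ≤ k) :
    Zipping (fam k) {lst k} ∅ {e | e.val % 3 ≠ 2} {v | v.val % 3 ≠ 0 ∨ v.val = 0} := by
  have ih := fam_stage1 k k le_rfl
  have h1 := Zipping.lab (⟨3 * k, by omega⟩ : Fin (3 * k + 1)) ih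
    (by
      show fi (3 * k) = 3 * k + 1 ∨ (fi (3 * k) % 3 ≠ 0 ∧ fi (3 * k) < 3 * k)
      unfold fi; split_ifs <;> omega)
    (by
      show ¬ (fl k (3 * k) = 3 * k + 1 ∨ (fl k (3 * k) % 3 ≠ 0 ∧ fl k (3 * k) < 3 * k))
      unfold fl; split_ifs <;> first | omega | simp)
  refine h1.cast ?_ ?_
  · ext e
    have := e.2
    simp only [Set.mem_insert_iff, Set.mem_ofPred_eq, Fin.ext_iff]
    omega
  · ext v
    have := v.2
    have e1 : ((fam k).lab ⟨3 * k, by omega⟩).val = 0 := by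
      show fl k (3 * k) = 0
      unfold fl; split_ifs <;> omega
    simp only [Set.mem_insert_iff, Set.mem_ofPred_eq, Fin.ext_iff, e1]
    omega

theorem fam_stage3 (k : ℕ) (hk : 1 ≤ k) : ∀ j : ℕ, j ≤ k →
    Zipping (fam k) {lst k} ∅ {e | e.val % 3 ≠ 2 ∨ e.val < 3 * j}
      {v | v.val % 3 ≠ 0 ∨ v.val ≤ 3 * j}
  | 0, _ => by
    refine (fam_stage2 k hk).cast ?_ ?_
    · ext e; simp
    · ext v; simp
  | j + 1, hj => by
    have ih := fam_stage3 k hk j (by omega)
    have e0 : ((fam k).ini ⟨3 * j + 2, by omega⟩) = ⟨3 * j + 2, by omega⟩ := Fin.ext (by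
      show fi (3 * j + 2) = 3 * j + 2
      unfold fi; split_ifs <;> omega)
    have l1 : Linked (fam k) {lst k} {e | e.val % 3 ≠ 2 ∨ e.val < 3 * j}
        {v | v.val % 3 ≠ 0 ∨ v.val ≤ 3 * j} ⟨3 * j + 1, by omega⟩ ⟨3 * j + 2, by omega⟩ := by
      refine Relation.EqvGen.rel _ _ (Or.inr ⟨⟨3 * j, by omega⟩, ?_, ?_, Fin.ext ?_, Fin.ext ?_⟩)
      · show (3 * j) % 3 ≠ 2 ∨ 3 * j < 3 * j
        omega
      · show ft (3 * j) % 3 ≠ 0 ∨ ft (3 * j) ≤ 3 * j
        unfold ft; split_ifs <;> omega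
      · show fi (3 * j) = 3 * j + 1
        unfold fi; split_ifs <;> omega
      · show fl k (3 * j) = 3 * j + 2
        unfold fl; split_ifs <;> omega
    have l2 : Linked (fam k) {lst k} {e | e.val % 3 ≠ 2 ∨ e.val < 3 * j}
        {v | v.val % 3 ≠ 0 ∨ v.val ≤ 3 * j} ⟨3 * j + 1, by omega⟩
        ((fam k).lab ⟨3 * j + 2, by omega⟩) := by
      refine Relation.EqvGen.rel _ _
        (Or.inr ⟨⟨3 * j + 1, by omega⟩, ?_, ?_, Fin.ext ?_, Fin.ext ?_⟩)
      · show (3 * j + 1) % 3 ≠ 2 ∨ 3 * j + 1 < 3 * j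
        omega
      · show ft (3 * j + 1) % 3 ≠ 0 ∨ ft (3 * j + 1) ≤ 3 * j
        unfold ft; split_ifs <;> omega
      · show fi (3 * j + 1) = 3 * j + 1
        unfold fi; split_ifs <;> omega
      · show fl k (3 * j + 1) = fl k (3 * j + 2)
        unfold fl; split_ifs <;> omega
    have h1 := Zipping.close (⟨3 * j + 2, by omega⟩ : Fin (3 * k + 1)) ⟨3 * j + 2, by omega⟩ ih
      (by
        show ¬ ((3 * j + 2) % 3 ≠ 2 ∨ 3 * j + 2 < 3 * j)
        omega)
      (by
        show fi (3 * j + 2) % 3 ≠ 0 ∨ fi (3 * j + 2) ≤ 3 * j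
        unfold fi; split_ifs <;> omega)
      (by
        show fl k (3 * j + 2) % 3 ≠ 0 ∨ fl k (3 * j + 2) ≤ 3 * j
        unfold fl; split_ifs <;> omega)
      (by
        show ¬ (ft (3 * j + 2) % 3 ≠ 0 ∨ ft (3 * j + 2) ≤ 3 * j)
        unfold ft; split_ifs <;> omega)
      (Or.inl ⟨rfl, by rw [e0]; exact (l1.symm _ _).trans _ _ _ l2⟩)
    refine h1.cast ?_ ?_
    · ext e
      simp only [Set.mem_insert_iff, Set.mem_ofPred_eq, Fin.ext_iff]
      omega
    · ext v
      have e1 : ((fam k).ter ⟨3 * j + 2, by omega⟩).val = 3 * j + 3 := by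
        show ft (3 * j + 2) = _
        unfold ft; split_ifs <;> omega
      simp only [Set.mem_insert_iff, Set.mem_ofPred_eq, Fin.ext_iff, e1]
      omega

theorem fam_zips (k : ℕ) (hk : 1 ≤ k) : ZipsFrom (fam k) {lst k} ∅ := by
  refine (fam_stage3 k hk k le_rfl).cast ?_ ?_
  · ext e
    have := e.2
    simp only [Set.mem_ofPred_eq, Set.mem_univ, iff_true]
    omega
  · ext v
    have := v.2
    simp only [Set.mem_ofPred_eq, Set.mem_univ, iff_true]
    omega

end Pool.Agent.Q179.ZP
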