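import Pool.Agent.Q179.ZP.Fam

/-!
# Properties of the family of labelled oriented intervals
-/

set_option autoImplicit false

namespace Pool.Agent.Q179.ZP

open Pool.Agent.TH625.LOG

theorem fi_spec (i : ℕ) : (i % 3 = 0 ∧ fi i = i + 1) ∨ (i % 3 ≠ 0 ∧ fi i = i) := by
  unfold fi; split_ifs <;> omega

theorem ft_spec (i : ℕ) : (i % 3 = 0 ∧ ft i = i) ∨ (i % 3 ≠ 0 ∧ ft i = i + 1) := by
  unfold ft; split_ifs <;> omega

theorem fl_spec (k i : ℕ) : (i % 3 = 0 ∧ i = 3 * k ∧ fl k i = 0) ∨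
    (i % 3 = 0 ∧ i ≠ 3 * k ∧ fl k i = i + 2) ∨ (i % 3 ≠ 0 ∧ i ≤ 2 ∧ fl k i = 3 * k + 1) ∨
    (i % 3 = 1 ∧ 2 < i ∧ fl k i = i - 2) ∨ (i % 3 = 2 ∧ 2 < i ∧ fl k i = i - 3) := by
  unfold fl; split_ifs <;> omega

theorem fam_adj (k : ℕ) (i : ℕ) (hi : i < 3 * k + 1) :
    (fam k).Adj ⟨i, by omega⟩ ⟨i + 1, by omega⟩ ∧ (fam k).Adj ⟨i + 1, by omega⟩ ⟨i, by omega⟩ := by
  by_cases h : i % 3 = 0
  · refine ⟨⟨⟨i, hi⟩, Or.inr ⟨Fin.ext ?_, Fin.ext ?_⟩⟩, ⟨⟨i, hi⟩, Or.inl ⟨Fin.ext ?_, Fin.ext ?_⟩⟩⟩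
    · show ft i = i
      simp [ft, h]
    · show fi i = i + 1
      simp [fi, h]
    · show fi i = i + 1
      simp [fi, h]
    · show ft i = i
      simp [ft, h]
  · refine ⟨⟨⟨i, hi⟩, Or.inl ⟨Fin.ext ?_, Fin.ext ?_⟩⟩, ⟨⟨i, hi⟩, Or.inr ⟨Fin.ext ?_, Fin.ext ?_⟩⟩⟩
    · show fi i = i
      simp [fi, h]
    · show ft i = i + 1
      simp [ft, h]
    · show ft i = i + 1
      simp [ft, h]
    · show fi i = i
      simp [fi, h]

theorem fam_ends (k : ℕ) (i : Fin (3 * k + 1)) :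
    ((fam k).ini i = i.castSucc ∧ (fam k).ter i = i.succ) ∨
      ((fam k).ini i = i.succ ∧ (fam k).ter i = i.castSucc) := by
  by_cases h : i.val % 3 = 0
  · refine Or.inr ⟨Fin.ext ?_, Fin.ext ?_⟩
    · show fi i.val = i.val + 1
      simp [fi, h]
    · show ft i.val = i.val
      simp [ft, h]
  · refine Or.inl ⟨Fin.ext ?_, Fin.ext ?_⟩
    · show fi i.val = i.val
      simp [fi, h]
    · show ft i.val = i.val + 1
      simp [ft, h]

theorem fam_conn (k : ℕ) : (fam k).Conn := by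
  have up : ∀ i : ℕ, ∀ hi : i < 3 * k + 2,
      Relation.ReflTransGen (fam k).Adj ⟨0, by omega⟩ ⟨i, hi⟩ ∧
        Relation.ReflTransGen (fam k).Adj ⟨i, hi⟩ ⟨0, by omega⟩ := by
    intro i
    induction i with
    | zero => exact fun hi => ⟨Relation.ReflTransGen.refl, Relation.ReflTransGen.refl⟩
    | succ i ih =>
      intro hi
      obtain ⟨h1, h2⟩ := ih (by omega)
      obtain ⟨h3, h4⟩ := fam_adj k i (by omega)
      exact ⟨h1.tail h3, Relation.ReflTransGen.head h4 h2⟩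
  intro x y
  exact (up x x.2).2.trans (up y y.2).1

/-- The initial graph has at least `k + 1` components. -/
theorem fam_ini (k : ℕ) : ∃ c : Fin (3 * k + 2) → Fin (k + 1), Function.Surjective c ∧
    ∀ e, c ((fam k).ini e) = c ((fam k).lab e) := by
  refine ⟨fun v => ⟨if v.val % 3 = 0 then v.val / 3 else 0, by
    have := v.2; split_ifs <;> omega⟩, ?_, ?_⟩
  · intro a
    refine ⟨⟨3 * a.val, by have := a.2; omega⟩, Fin.ext ?_⟩
    show (if (3 * a.val) % 3 = 0 then (3 * a.val) / 3 else 0) = a.val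
    split_ifs <;> omega
  · intro e
    have he := e.2
    refine Fin.ext ?_
    show (if fi e.val % 3 = 0 then fi e.val / 3 else 0) =
      (if fl k e.val % 3 = 0 then fl k e.val / 3 else 0)
    have h1 := fi_spec e.val
    have h2 := fl_spec k e.val
    generalize fi e.val = x at *
    generalize fl k e.val = y at *
    split_ifs <;> omega

/-- The terminal graph has at least `k + 1` components. -/
theorem fam_ter (k : ℕ) : ∃ c : Fin (3 * k + 2) → Fin (k + 1), Function.Surjective c ∧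
    ∀ e, c ((fam k).ter e) = c ((fam k).lab e) := by
  refine ⟨fun v => ⟨if v.val % 3 = 1 ∧ v.val ≠ 3 * k + 1 then v.val / 3 + 1 else 0, by
    have := v.2; split_ifs <;> omega⟩, ?_, ?_⟩
  · intro a
    by_cases ha : a.val = 0
    · refine ⟨⟨0, by omega⟩, Fin.ext ?_⟩
      show (if 0 % 3 = 1 ∧ 0 ≠ 3 * k + 1 then 0 / 3 + 1 else 0) = a.val
      rw [ha]; simp
    · refine ⟨⟨3 * (a.val - 1) + 1, by have := a.2; omega⟩, Fin.ext ?_⟩
      show (if (3 * (a.val - 1) + 1) % 3 = 1 ∧ 3 * (a.val - 1) + 1 ≠ 3 * k + 1 then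
        (3 * (a.val - 1) + 1) / 3 + 1 else 0) = a.val
      have := a.2
      split_ifs <;> omega
  · intro e
    have he := e.2
    refine Fin.ext ?_
    show (if ft e.val % 3 = 1 ∧ ft e.val ≠ 3 * k + 1 then ft e.val / 3 + 1 else 0) =
      (if fl k e.val % 3 = 1 ∧ fl k e.val ≠ 3 * k + 1 then fl k e.val / 3 + 1 else 0)
    have h1 := ft_spec e.val
    have h2 := fl_spec k e.val
    generalize ft e.val = x at *
    generalize fl k e.val = y at *
    split_ifs <;> omega

/-- No label is an end of its edge. -/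
theorem fam_red (k : ℕ) (hk : 1 ≤ k) (e : Fin (3 * k + 1)) :
    (fam k).lab e ≠ (fam k).ini e ∧ (fam k).lab e ≠ (fam k).ter e := by
  have he := e.2
  constructor
  · intro h
    have h1 : fl k e.val = fi e.val := congrArg Fin.val h
    unfold fl fi at h1
    split_ifs at h1 <;> omega
  · intro h
    have h1 : fl k e.val = ft e.val := congrArg Fin.val h
    unfold fl ft at h1
    split_ifs at h1 <;> omega

/-- Two edges have the same label. -/
theorem fam_not_inj (k : ℕ) (hk : 1 ≤ k) : ¬ Function.Injective (fam k).lab := by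
  intro h
  have h1 : (fam k).lab ⟨1, by omega⟩ = (fam k).lab ⟨2, by omega⟩ := Fin.ext (by
    show fl k 1 = fl k 2
    simp [fl])
  have h2 := congrArg Fin.val (h h1)
  simp at h2

/-- No proper subinterval with at least one edge contains the labels of its edges. -/
theorem fam_prime (k : ℕ) (hk : 1 ≤ k) (a b : ℕ) (hab : a < b) (hb : b ≤ 3 * k + 1)
    (h : ∀ e : Fin (3 * k + 1), a ≤ e.val → e.val < b →
      a ≤ ((fam k).lab e).val ∧ ((fam k).lab e).val ≤ b) : a = 0 ∧ b = 3 * k + 1 := by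
  have h' : ∀ i : ℕ, a ≤ i → i < b → a ≤ fl k i ∧ fl k i ≤ b := fun i h1 h2 =>
    h ⟨i, by omega⟩ h1 h2
  have h0 := h' a le_rfl hab
  have s0 := fl_spec k a
  have ha : a = 0 := by
    by_contra hne
    have h3 : b ≠ 3 * k + 1 := by
      intro hb1
      have h4 := h' (3 * k) (by omega) (by omega)
      have s4 := fl_spec k (3 * k)
      omega
    have h4 : a % 3 = 0 → ¬ a + 1 < b := by
      intro h5 h7
      have h6 := h' (a + 1) (by omega) h7
      have s6 := fl_spec k (a + 1)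
      omega
    omega
  subst ha
  refine ⟨rfl, ?_⟩
  have h2 := h' 1 (by omega) (by omega)
  have s2 := fl_spec k 1
  omega

/-- The vertices which are obtained from the vertices in `S`, if with the label and one end of an edge
also the other end may be added. -/
inductive Spread {V E : Type} (L : LOG V E) (S : Set V) : V → Prop
  | base (v : V) : v ∈ S → Spread L S v
  | ter (e : E) : Spread L S (L.lab e) → Spread L S (L.ini e) → Spread L S (L.ter e)
  | ini (e : E) : Spread L S (L.lab e) → Spread L S (L.ter e) → Spread L S (L.ini e)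

/-- A set `D` such that no edge with label outside `D` leaves it must be met. -/
theorem spread_meets {V E : Type} {L : LOG V E} {S D : Set V}
    (hD : ∀ e, L.lab e ∉ D → (L.ini e ∈ D ↔ L.ter e ∈ D)) {v : V} (hv : v ∈ D)
    (h : Spread L S v) : ∃ w ∈ S, w ∈ D := by
  by_contra hcon
  push Not at hcon
  have key : ∀ w, Spread L S w → w ∉ D := by
    intro w hw
    induction hw with
    | base w h => exact hcon w h
    | ter e _ _ h1 h2 => exact fun h3 => h2 ((hD e h1).2 h3)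
    | ini e _ _ h1 h2 => exact fun h3 => h2 ((hD e h1).1 h3)
  exact key v h hv

theorem fam_cut (k j : ℕ) (hj : 6 * j + 4 ≤ 3 * k + 1) (i : ℕ) (_hi : i < 3 * k + 1)
    (h : ¬ (6 * j + 1 ≤ fl k i ∧ fl k i ≤ 6 * j + 4)) :
    (6 * j + 1 ≤ fi i ∧ fi i ≤ 6 * j + 4) ↔ (6 * j + 1 ≤ ft i ∧ ft i ≤ 6 * j + 4) := by
  unfold fl at h
  unfold fi ft
  split_ifs at h ⊢ <;> omega

/-- At least `k / 2` vertices are needed to obtain all vertices. -/
theorem fam_complexity (k : ℕ) (S : Finset (Fin (3 * k + 2)))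
    (hS : ∀ v, Spread (fam k) (S : Set (Fin (3 * k + 2))) v) : k ≤ 2 * S.card := by
  have key : ∀ j : ℕ, 6 * j + 4 ≤ 3 * k + 1 → ∃ w ∈ S, 6 * j + 1 ≤ w.val ∧ w.val ≤ 6 * j + 4 := by
    intro j hj
    obtain ⟨w, h1, h2⟩ := spread_meets (L := fam k) (S := (S : Set (Fin (3 * k + 2))))
      (D := {v | 6 * j + 1 ≤ v.val ∧ v.val ≤ 6 * j + 4})
      (fun e he => fam_cut k j hj e.val e.2 he) (v := ⟨6 * j + 1, by omega⟩)
      ⟨le_rfl, by show 6 * j + 1 ≤ 6 * j + 4; omega⟩ (hS _)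
    exact ⟨w, h1, h2⟩
  have h1 : Finset.range ((k + 1) / 2) ⊆ S.image fun w => (w.val - 1) / 6 := by
    intro j hj
    rw [Finset.mem_range] at hj
    obtain ⟨w, h1, h2, h3⟩ := key j (by omega)
    exact Finset.mem_image.2 ⟨w, h1, by omega⟩
  have h2 := (Finset.card_le_card h1).trans Finset.card_image_le
  rw [Finset.card_range] at h2
  omega

end Pool.Agent.Q179.ZP
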