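import Pool.Agent.Q179.ZP.Mirror

/-!
# Iterated zipping: all subgraphs
-/

set_option autoImplicit false

namespace Pool.Agent.Q179.ZP

open Pool.Agent.TH625.LOG

section maps

variable {V V' E E' : Type}

/-- The pair of maps is a morphism of labelled oriented graphs. -/
structure Mor (L : LOG V E) (L' : LOG V' E') (a : V → V') (b : E → E') : Prop where
  ini : ∀ e, L'.ini (b e) = a (L.ini e)
  ter : ∀ e, L'.ter (b e) = a (L.ter e)
  lab : ∀ e, L'.lab (b e) = a (L.lab e)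

variable {L : LOG V E} {L' : LOG V' E'} {a : V → V'} {b : E → E'}

/-- the induced homomorphism of the groups -/
def Mor.hom (m : Mor L L' a b) : L.G →* L'.G :=
  homG L (fun v => L'.gen (a v)) fun e => by
    have h := rel_gen L' (b e)
    rw [m.ini, m.ter, m.lab] at h
    exact h

theorem Mor.hom_gen (m : Mor L L' a b) (v : V) : m.hom (L.gen v) = L'.gen (a v) :=
  homG_gen _ _ _ _

theorem Mor.asph (m : Mor L L' a b) (hb : Function.Injective b) (hj : Function.Injective m.hom)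
    (ha : Asph L') : Asph L := by
  classical
  intro c hc
  let F : E × L.G → E' × L'.G := fun d => (b d.1, m.hom d.2)
  let F' : V × L.G → V' × L'.G := fun d => (a d.1, m.hom d.2)
  have hF : Function.Injective F := by
    rintro ⟨e, g⟩ ⟨e', g'⟩ h
    exact Prod.ext (hb (congrArg Prod.fst h)) (hj (congrArg Prod.snd h))
  have hside : ∀ (d : E × L.G) (k : Fin 4), L'.side (F d) k = F' (L.side d k) := by
    rintro ⟨e, g⟩ k
    show (L'.sv (b e) k, m.hom g * L'.sg (b e) k) = (a (L.sv e k), m.hom (g * L.sg e k))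
    rw [map_mul]
    fin_cases k
    · exact Prod.ext (m.ini e) (congrArg (fun y => m.hom g * y) (map_one m.hom).symm)
    · refine Prod.ext (m.lab e) (congrArg (fun y => m.hom g * y) ?_)
      exact (congrArg L'.gen (m.ini e)).trans (m.hom_gen (L.ini e)).symm
    · exact Prod.ext (m.lab e) (congrArg (fun y => m.hom g * y) (map_one m.hom).symm)
    · refine Prod.ext (m.ter e) (congrArg (fun y => m.hom g * y) ?_)
      exact (congrArg L'.gen (m.lab e)).trans (m.hom_gen (L.lab e)).symm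
  have hbd : L'.bdry (c.mapDomain F) = (L.bdry c).mapDomain F' := by
    unfold LOG.bdry
    rw [Finsupp.sum_mapDomain_index]
    · unfold Finsupp.sum
      rw [Finsupp.mapDomain_finsetSum]
      refine Finset.sum_congr rfl fun d _ => ?_
      rw [Finsupp.mapDomain_finsetSum]
      refine Finset.sum_congr rfl fun k _ => ?_
      rw [Finsupp.mapDomain_single, hside]
    · intro d
      refine Finset.sum_eq_zero fun k _ => ?_
      rw [mul_zero, Finsupp.single_zero]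
    · intro d x y
      rw [← Finset.sum_add_distrib]
      refine Finset.sum_congr rfl fun k _ => ?_
      rw [mul_add, Finsupp.single_add]
  rw [hc, Finsupp.mapDomain_zero] at hbd
  have h1 := ha _ hbd
  exact Finsupp.mapDomain_injective hF (h1.trans Finsupp.mapDomain_zero.symm)

theorem Mor.inj (m : Mor L L' a b) {a' : V' → V} {b' : E' → E} (m' : Mor L' L a' b')
    (h : ∀ v, a' (a v) = v) : Function.Injective m.hom := by
  have h1 : m'.hom.comp m.hom = MonoidHom.id L.G := by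
    refine hom_extG L fun v => ?_
    rw [MonoidHom.comp_apply, m.hom_gen, m'.hom_gen, h]
    rfl
  intro x y hxy
  have h2 := DFunLike.congr_fun h1 x
  have h3 := DFunLike.congr_fun h1 y
  rw [MonoidHom.comp_apply] at h2 h3
  rw [← show m'.hom (m.hom x) = x from h2, hxy]
  exact h3

end maps

section iso

variable {V E : Type} {L : LOG V E}

/-- The subgraph `(V₁, E₁)` of the subgraph `(W, F)`. -/
theorem mor_up {W V₁ : Set V} {F E₁ : Set E} (hW : Closed L W F) (h₁ : Closed L V₁ E₁)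
    (hV : V₁ ⊆ W) (hE : E₁ ⊆ F)
    (h₁' : Closed (sub L W F hW) (Subtype.val ⁻¹' V₁) (Subtype.val ⁻¹' E₁)) :
    Mor (sub L V₁ E₁ h₁) (sub (sub L W F hW) (Subtype.val ⁻¹' V₁) (Subtype.val ⁻¹' E₁) h₁')
      (fun v => ⟨⟨v.1, hV v.2⟩, v.2⟩) (fun e => ⟨⟨e.1, hE e.2⟩, e.2⟩) :=
  ⟨fun _ => rfl, fun _ => rfl, fun _ => rfl⟩

theorem mor_down {W V₁ : Set V} {F E₁ : Set E} (hW : Closed L W F) (h₁ : Closed L V₁ E₁)
    (h₁' : Closed (sub L W F hW) (Subtype.val ⁻¹' V₁) (Subtype.val ⁻¹' E₁)) :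
    Mor (sub (sub L W F hW) (Subtype.val ⁻¹' V₁) (Subtype.val ⁻¹' E₁) h₁') (sub L V₁ E₁ h₁)
      (fun v => ⟨v.1.1, v.2⟩) (fun e => ⟨e.1.1, e.2⟩) :=
  ⟨fun _ => rfl, fun _ => rfl, fun _ => rfl⟩

theorem closed_pre {W V₁ : Set V} {F E₁ : Set E} (hW : Closed L W F) (h₁ : Closed L V₁ E₁) :
    Closed (sub L W F hW) (Subtype.val ⁻¹' V₁) (Subtype.val ⁻¹' E₁) :=
  fun e he => h₁ e.1 he

theorem asph_sub_iff {W V₁ : Set V} {F E₁ : Set E} (hW : Closed L W F) (h₁ : Closed L V₁ E₁)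
    (hV : V₁ ⊆ W) (hE : E₁ ⊆ F) :
    Asph (sub (sub L W F hW) (Subtype.val ⁻¹' V₁) (Subtype.val ⁻¹' E₁) (closed_pre hW h₁)) ↔
      Asph (sub L V₁ E₁ h₁) := by
  have m := mor_up hW h₁ hV hE (closed_pre hW h₁)
  have m' := mor_down hW h₁ (closed_pre hW h₁)
  constructor
  · refine m.asph ?_ (m.inj m' fun v => rfl)
    intro x y h
    exact Subtype.ext (congrArg (fun z => z.1.1) h)
  · refine m'.asph ?_ (m'.inj m fun v => rfl)
    intro x y h
    exact Subtype.ext (Subtype.ext (congrArg (fun z => z.1) h))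

theorem locInd_sub_iff {W V₁ : Set V} {F E₁ : Set E} (hW : Closed L W F) (h₁ : Closed L V₁ E₁)
    (hV : V₁ ⊆ W) (hE : E₁ ⊆ F) :
    LocInd (sub (sub L W F hW) (Subtype.val ⁻¹' V₁) (Subtype.val ⁻¹' E₁) (closed_pre hW h₁)).G ↔
      LocInd (sub L V₁ E₁ h₁).G := by
  have m := mor_up hW h₁ hV hE (closed_pre hW h₁)
  have m' := mor_down hW h₁ (closed_pre hW h₁)
  exact ⟨fun h => locInd_of_inj h m.hom (m.inj m' fun v => rfl),
    fun h => locInd_of_inj h m'.hom (m'.inj m fun v => rfl)⟩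

end iso

section transport

variable {V E : Type} {L : LOG V E} {V₀ V₁ : Set V} {E₀ E₁ : Set E}

theorem Zipping.base_sub {S : Set E} {U : Set V} (h : Zipping L V₀ E₀ S U) : V₀ ⊆ U ∧ E₀ ⊆ S := by
  induction h with
  | start => exact ⟨subset_rfl, subset_rfl⟩
  | ini e _ _ _ ih =>
    exact ⟨ih.1.trans (Set.subset_insert _ _), ih.2.trans (Set.subset_insert _ _)⟩
  | lab e _ _ _ ih =>
    exact ⟨ih.1.trans (Set.subset_insert _ _), ih.2.trans (Set.subset_insert _ _)⟩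
  | close e f _ _ _ _ _ _ ih =>
    exact ⟨ih.1.trans (Set.subset_insert _ _), ih.2.trans (Set.subset_insert _ _)⟩

theorem Linked.sub (h₀ : Closed L V₀ E₀) (h₁ : Closed L V₁ E₁) (hV : V₀ ⊆ V₁) {S : Set E}
    {U : Set V} (hS : ∀ e ∈ S, e ∉ E₀ → e ∈ E₁) {x y : V} (h : Linked L V₀ S U x y) :
    x = y ∨ ∃ (hx : x ∈ V₁) (hy : y ∈ V₁),
      Linked (ZP.sub L V₁ E₁ h₁) (Subtype.val ⁻¹' V₀) (Subtype.val ⁻¹' S) (Subtype.val ⁻¹' U)
        ⟨x, hx⟩ ⟨y, hy⟩ := by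
  induction h with
  | rel x y h =>
    rcases h with ⟨hx, hy⟩ | ⟨g, hg, ht, rfl, rfl⟩
    · exact Or.inr ⟨hV hx, hV hy, Relation.EqvGen.rel _ _ (Or.inl ⟨hx, hy⟩)⟩
    · by_cases h0 : g ∈ E₀
      · exact Or.inr ⟨hV (h₀ g h0).1, hV (h₀ g h0).2.2,
          Relation.EqvGen.rel _ _ (Or.inl ⟨(h₀ g h0).1, (h₀ g h0).2.2⟩)⟩
      · have h2 := hS g hg h0
        exact Or.inr ⟨(h₁ g h2).1, (h₁ g h2).2.2,
          Relation.EqvGen.rel _ _ (Or.inr ⟨⟨g, h2⟩, hg, ht, rfl, rfl⟩)⟩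
  | refl x => exact Or.inl rfl
  | symm x y _ ih =>
    rcases ih with rfl | ⟨hx, hy, h2⟩
    · exact Or.inl rfl
    · exact Or.inr ⟨hy, hx, h2.symm _ _⟩
  | trans x y z _ _ ih1 ih2 =>
    rcases ih1 with rfl | ⟨hx, hy, h2⟩
    · exact ih2
    · rcases ih2 with rfl | ⟨hy', hz, h3⟩
      · exact Or.inr ⟨hx, hy, h2⟩
      · exact Or.inr ⟨hx, hz, h2.trans _ _ _ h3⟩

theorem Linked.sub' (h₀ : Closed L V₀ E₀) (h₁ : Closed L V₁ E₁) (hV : V₀ ⊆ V₁) {S : Set E}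
    {U : Set V} (hS : ∀ e ∈ S, e ∉ E₀ → e ∈ E₁) {x y : V} (h : Linked L V₀ S U x y) (hx : x ∈ V₁)
    (hy : y ∈ V₁) :
      Linked (ZP.sub L V₁ E₁ h₁) (Subtype.val ⁻¹' V₀) (Subtype.val ⁻¹' S) (Subtype.val ⁻¹' U)
        ⟨x, hx⟩ ⟨y, hy⟩ := by
  rcases h.sub h₀ h₁ hV hS with rfl | ⟨_, _, h2⟩
  · exact Relation.EqvGen.refl _
  · exact h2

theorem pre_insert {X : Type} {A S : Set X} {x : X} (hx : x ∈ A) :
    (Subtype.val ⁻¹' (insert x S) : Set A) = insert ⟨x, hx⟩ (Subtype.val ⁻¹' S) := by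
  ext y
  simp only [Set.mem_preimage, Set.mem_insert_iff, Subtype.ext_iff]

theorem Zipping.sub (h₀ : Closed L V₀ E₀) (h₁ : Closed L V₁ E₁) (hV : V₀ ⊆ V₁) {S : Set E}
    {U : Set V} (h : Zipping L V₀ E₀ S U) (hS : ∀ e ∈ S, e ∉ E₀ → e ∈ E₁) (hU : U ⊆ V₁) :
    Zipping (ZP.sub L V₁ E₁ h₁) (Subtype.val ⁻¹' V₀) (Subtype.val ⁻¹' E₀) (Subtype.val ⁻¹' S)
      (Subtype.val ⁻¹' U) := by
  induction h with
  | start => exact Zipping.start
  | @ini S U e h hl hi ih =>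
    have h2 := h.base_sub
    have he : e ∈ E₁ := hS e (Set.mem_insert _ _) fun h0 => hi (h2.1 (h₀ e h0).1)
    have h3 := Zipping.ini (L := ZP.sub L V₁ E₁ h₁) ⟨e, he⟩
      (ih (fun g hg => hS g (Set.mem_insert_of_mem _ hg)) ((Set.subset_insert _ _).trans hU)) hl hi
    exact h3.cast (pre_insert he).symm (pre_insert _).symm
  | @lab S U e h hl hi ih =>
    have h2 := h.base_sub
    have he : e ∈ E₁ := hS e (Set.mem_insert _ _) fun h0 => hi (h2.1 (h₀ e h0).2.2)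
    have h3 := Zipping.lab (L := ZP.sub L V₁ E₁ h₁) ⟨e, he⟩
      (ih (fun g hg => hS g (Set.mem_insert_of_mem _ hg)) ((Set.subset_insert _ _).trans hU)) hl hi
    exact h3.cast (pre_insert he).symm (pre_insert _).symm
  | @close S U e f h he hi hl hf hc ih =>
    have h2 := h.base_sub
    have he1 : e ∈ E₁ := hS e (Set.mem_insert _ _) fun h0 => he (h2.2 h0)
    have hf0 : f ∉ E₀ := fun h0 => hf (h2.1 (h₀ f h0).2.1)
    have hS' : ∀ g ∈ S, g ∉ E₀ → g ∈ E₁ := fun g hg => hS g (Set.mem_insert_of_mem _ hg)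
    have hU' : U ⊆ V₁ := (Set.subset_insert _ _).trans hU
    have hf1 : f ∈ E₁ := by
      rcases hc with ⟨rfl, _⟩ | ⟨hf2, _, _⟩
      · exact he1
      · exact hS' f hf2 hf0
    have h3 := Zipping.close (L := ZP.sub L V₁ E₁ h₁) ⟨e, he1⟩ ⟨f, hf1⟩ (ih hS' hU') he hi hl hf (by
      rcases hc with ⟨rfl, hlk⟩ | ⟨hf2, ht, hlk⟩
      · exact Or.inl ⟨rfl, hlk.sub' h₀ h₁ hV hS' _ _⟩
      · refine Or.inr ⟨hf2, ht, ?_⟩
        rcases hlk with ⟨k1, k2⟩ | ⟨k1, k2⟩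
        · exact Or.inl ⟨k1.sub' h₀ h₁ hV hS' _ _, k2.sub' h₀ h₁ hV hS' _ _⟩
        · exact Or.inr ⟨k1.sub' h₀ h₁ hV hS' _ _, k2.sub' h₀ h₁ hV hS' _ _⟩)
    exact h3.cast (pre_insert he1).symm (pre_insert _).symm

end transport

end Pool.Agent.Q179.ZP
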