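import Pool.Agent.Q179.ZP.Gen

/-!
# Iterated zipping: the theorems
-/

set_option autoImplicit false

namespace Pool.Agent.Q179.ZP

open Pool.Agent.TH625.LOG

variable {V E : Type} {L : LOG V E} {V₀ V₁ U : Set V} {E₀ E₁ S : Set E}

theorem closed_inter (h₀ : Closed L V₀ E₀) : Closed L V₀ (E₀ ∩ E₁) := fun e he => h₀ e he.1

/-- the setting: the subgraph of the edges which are needed -/
theorem setting (h₀ : Closed L V₀ E₀) (hz : Zipping L V₀ E₀ S U) (hU : Closed L U S)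
    (hV' : V₁ ⊆ U) (hE' : E₁ ⊆ S) (hV : V₀ ⊆ V₁) :
    ∃ (F : Set E) (hF : Closed L U F), E₁ ⊆ F ∧ E₀ ∩ F = E₀ ∩ E₁ ∧
      ZipsFrom (sub L U F hF) (Subtype.val ⁻¹' V₀) (Subtype.val ⁻¹' (E₀ ∩ E₁)) := by
  refine ⟨(S \ E₀) ∪ E₁, fun e he => hU e ?_, Set.subset_union_right, ?_, ?_⟩
  · rcases he with he | he
    · exact he.1
    · exact hE' he
  · ext e
    constructor
    · rintro ⟨h1, h2 | h2⟩
      · exact (h2.2 h1).elim
      · exact ⟨h1, h2⟩
    · rintro ⟨h1, h2⟩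
      exact ⟨h1, Or.inr h2⟩
  · have h1 := hz.sub h₀ (V₁ := U) (E₁ := (S \ E₀) ∪ E₁) (fun e he => hU e (by
      rcases he with he | he
      · exact he.1
      · exact hE' he)) (hV.trans hV') (fun e he h0 => Or.inl ⟨he, h0⟩) subset_rfl
    have e1 : (Subtype.val ⁻¹' E₀ : Set ((S \ E₀) ∪ E₁ : Set E)) = Subtype.val ⁻¹' (E₀ ∩ E₁) := by
      ext ⟨e, he⟩
      simp only [Set.mem_preimage, Set.mem_inter_iff]
      constructor
      · intro h2
        refine ⟨h2, ?_⟩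
        rcases he with he | he
        · exact (he.2 h2).elim
        · exact he
      · exact fun h2 => h2.1
    have e2 : (Subtype.val ⁻¹' S : Set ((S \ E₀) ∪ E₁ : Set E)) = Set.univ := by
      ext ⟨e, he⟩
      simp only [Set.mem_preimage, Set.mem_univ, iff_true]
      rcases he with he | he
      · exact he.1
      · exact hE' he
    have e3 : (Subtype.val ⁻¹' U : Set U) = Set.univ := by
      ext v
      simp
    unfold ZipsFrom
    rw [e1] at h1
    exact h1.cast e2 e3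

theorem thmA_asph (h₀ : Closed L V₀ E₀) (hne : V₀.Nonempty) (hz : Zipping L V₀ E₀ S U)
    (hU : Closed L U S) (h₁ : Closed L V₁ E₁) (hV : V₀ ⊆ V₁) (hV' : V₁ ⊆ U) (hE' : E₁ ⊆ S) :
    Asph (sub L V₁ E₁ h₁) ↔ Asph (sub L V₀ (E₀ ∩ E₁) (closed_inter h₀)) := by
  obtain ⟨F, hF, h1, h2, h3⟩ := setting h₀ hz hU hV' hE' hV
  have h0F : E₀ ∩ E₁ ⊆ F := Set.inter_subset_right.trans h1
  rw [← asph_sub_iff hF h₁ hV' h1, ← asph_sub_iff hF (closed_inter h₀) (hV.trans hV') h0F]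
  obtain ⟨o, ho⟩ := hne
  exact (asph_iff' (closed_pre hF (closed_inter h₀)) h3 ⟨⟨o, hV' (hV ho)⟩, ho⟩
    (closed_pre hF h₁) (Set.preimage_mono hV)
    (Set.preimage_mono Set.inter_subset_right)).2

theorem thmA_locInd (h₀ : Closed L V₀ E₀) (hne : V₀.Nonempty) (hz : Zipping L V₀ E₀ S U)
    (hU : Closed L U S) (h₁ : Closed L V₁ E₁) (hV : V₀ ⊆ V₁) (hV' : V₁ ⊆ U) (hE' : E₁ ⊆ S) :
    LocInd (sub L V₁ E₁ h₁).G ↔ LocInd (sub L V₀ (E₀ ∩ E₁) (closed_inter h₀)).G := by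
  obtain ⟨F, hF, h1, h2, h3⟩ := setting h₀ hz hU hV' hE' hV
  have h0F : E₀ ∩ E₁ ⊆ F := Set.inter_subset_right.trans h1
  rw [← locInd_sub_iff hF h₁ hV' h1, ← locInd_sub_iff hF (closed_inter h₀) (hV.trans hV') h0F]
  obtain ⟨o, ho⟩ := hne
  exact locInd_iff' (closed_pre hF (closed_inter h₀)) h3 ⟨⟨o, hV' (hV ho)⟩, ho⟩
    (closed_pre hF h₁) (Set.preimage_mono hV)
    (Set.preimage_mono Set.inter_subset_right)

theorem thmA_inj (h₀ : Closed L V₀ E₀) (hne : V₀.Nonempty) (hz : Zipping L V₀ E₀ S U)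
    (hU : Closed L U S) (h₁ : Closed L V₁ E₁) (hV : V₀ ⊆ V₁) (hV' : V₁ ⊆ U) (hE' : E₁ ⊆ S) :
    Function.Injective (incG (closed_inter h₀ (E₁ := E₁)) h₁ hV Set.inter_subset_right) := by
  obtain ⟨F, hF, h1, h2, h3⟩ := setting h₀ hz hU hV' hE' hV
  have h0F : E₀ ∩ E₁ ⊆ F := Set.inter_subset_right.trans h1
  obtain ⟨o, ho⟩ := hne
  have h4 := (asph_iff' (closed_pre hF (closed_inter h₀)) h3 ⟨⟨o, hV' (hV ho)⟩, ho⟩
    (closed_pre hF h₁) (Set.preimage_mono hV)
    (Set.preimage_mono Set.inter_subset_right)).1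
  have m := mor_up hF h₁ hV' h1 (closed_pre hF h₁)
  have m' := mor_down hF h₁ (closed_pre hF h₁)
  have n := mor_up hF (closed_inter h₀ (E₁ := E₁)) (hV.trans hV') h0F
    (closed_pre hF (closed_inter h₀))
  have n' := mor_down hF (closed_inter h₀ (E₁ := E₁)) (closed_pre hF (closed_inter h₀))
  have h5 : m.hom.comp (incG (closed_inter h₀ (E₁ := E₁)) h₁ hV Set.inter_subset_right) =
      (incG (closed_pre hF (closed_inter h₀ (E₁ := E₁))) (closed_pre hF h₁)
        (Set.preimage_mono hV) (Set.preimage_mono Set.inter_subset_right)).comp n.hom := by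
    refine hom_extG _ fun v => ?_
    rw [MonoidHom.comp_apply, MonoidHom.comp_apply, incG_gen, m.hom_gen, n.hom_gen, incG_gen]
  have h6 : Function.Injective
      (m.hom.comp (incG (closed_inter h₀ (E₁ := E₁)) h₁ hV Set.inter_subset_right)) := by
    rw [h5]
    exact h4.comp (n.inj n' fun v => rfl)
  exact Function.Injective.of_comp (f := m.hom) h6

/-- more vertices -/
theorem incG_vertices (h₁ : Closed L V₁ E₁) {V₂ : Set V} (h₂ : Closed L V₂ E₁) (hV : V₁ ⊆ V₂) :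
    Function.Injective (incG h₁ h₂ hV subset_rfl) := by
  have h1 := toR_inj h₁
  rw [← toR_incG h₁ h₂ hV subset_rfl] at h1
  exact Function.Injective.of_comp (f := toR h₂ subset_rfl) (by exact h1)

theorem closed_union (h₁ : Closed L V₁ E₁) : Closed L (V₀ ∪ V₁) E₁ := fun e he =>
  ⟨Or.inr (h₁ e he).1, Or.inr (h₁ e he).2.1, Or.inr (h₁ e he).2.2⟩

/-- no edges: a free group -/
theorem locInd_noEdge (V₁ : Set V) (h₁ : Closed L V₁ ∅) : LocInd (sub L V₁ ∅ h₁).G := by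
  let f : (sub L V₁ ∅ h₁).G →* FreeGroup V₁ := homG _ (fun v => FreeGroup.of v) fun e => e.2.elim
  have hf : (FreeGroup.lift fun v => (sub L V₁ ∅ h₁).gen v).comp f = MonoidHom.id _ := by
    refine hom_extG _ fun v => ?_
    rw [MonoidHom.comp_apply]
    show (FreeGroup.lift fun v => (sub L V₁ ∅ h₁).gen v) (homG _ _ _ _) = _
    rw [homG_gen, FreeGroup.lift_apply_of]
    rfl
  have hinj : Function.Injective f := by
    intro x y hxy
    have h2 := DFunLike.congr_fun hf x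
    have h3 := DFunLike.congr_fun hf y
    rw [MonoidHom.comp_apply] at h2 h3
    rw [hxy] at h2
    exact h2.symm.trans h3
  intro H hH hne
  obtain ⟨ψ, hψ⟩ := free_hom (H := H) (f.comp H.subtype) (hinj.comp H.subtype_injective) (by
    by_contra hcon
    push Not at hcon
    apply hne
    rw [Subgroup.eq_bot_iff_forall]
    intro x hx
    exact congrArg Subtype.val (hcon ⟨x, hx⟩))
  exact surj_of_ne ψ hψ

theorem asph_noEdge (V₁ : Set V) (h₁ : Closed L V₁ ∅) : Asph (sub L V₁ ∅ h₁) := by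
  intro c _
  ext d
  exact d.1.2.elim

/-- the relative theorem, for both orientations -/
theorem rel_asph (h₀ : Closed L V₀ E₀) (hne : V₀.Nonempty)
    (hz : Zipping L V₀ E₀ S U ∨ Zipping (rev L) V₀ E₀ S U) (hU : Closed L U S)
    (h₁ : Closed L V₁ E₁) (hV : V₀ ⊆ V₁) (hV' : V₁ ⊆ U) (hE' : E₁ ⊆ S) :
    Asph (sub L V₁ E₁ h₁) ↔ Asph (sub L V₀ (E₀ ∩ E₁) (closed_inter h₀)) := by
  rcases hz with hz | hz
  · exact thmA_asph h₀ hne hz hU h₁ hV hV' hE'
  · have h := thmA_asph (closed_rev h₀) hne hz (closed_rev hU) (closed_rev h₁) hV hV' hE'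
    exact ⟨fun h1 => asph_rev _ (h.1 (asph_rev (rev (sub L V₁ E₁ h₁)) h1)),
      fun h1 => asph_rev _ (h.2 (asph_rev (rev (sub L V₀ (E₀ ∩ E₁) (closed_inter h₀))) h1))⟩

theorem rel_locInd (h₀ : Closed L V₀ E₀) (hne : V₀.Nonempty)
    (hz : Zipping L V₀ E₀ S U ∨ Zipping (rev L) V₀ E₀ S U) (hU : Closed L U S)
    (h₁ : Closed L V₁ E₁) (hV : V₀ ⊆ V₁) (hV' : V₁ ⊆ U) (hE' : E₁ ⊆ S) :
    LocInd (sub L V₁ E₁ h₁).G ↔ LocInd (sub L V₀ (E₀ ∩ E₁) (closed_inter h₀)).G := by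
  rcases hz with hz | hz
  · exact thmA_locInd h₀ hne hz hU h₁ hV hV' hE'
  · have h := thmA_locInd (closed_rev h₀) hne hz (closed_rev hU) (closed_rev h₁) hV hV' hE'
    exact ⟨fun h1 => locInd_rev _ (h.1 (locInd_rev (rev (sub L V₁ E₁ h₁)) h1)),
      fun h1 => locInd_rev _ (h.2 (locInd_rev (rev (sub L V₀ (E₀ ∩ E₁) (closed_inter h₀))) h1))⟩

theorem rel_inj (h₀ : Closed L V₀ E₀) (hne : V₀.Nonempty)
    (hz : Zipping L V₀ E₀ S U ∨ Zipping (rev L) V₀ E₀ S U) (hU : Closed L U S)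
    (h₁ : Closed L V₁ E₁) (hV : V₀ ⊆ V₁) (hV' : V₁ ⊆ U) (hE' : E₁ ⊆ S) :
    Function.Injective (incG (closed_inter h₀ (E₁ := E₁)) h₁ hV Set.inter_subset_right) := by
  rcases hz with hz | hz
  · exact thmA_inj h₀ hne hz hU h₁ hV hV' hE'
  · exact incG_inj_rev _ _ _ _
      (thmA_inj (closed_rev h₀) hne hz (closed_rev hU) (closed_rev h₁) hV hV' hE')

/-- The subgraphs which can be built up by repeated zipping, in both orientations. -/
inductive Built (L : LOG V E) : Set V → Set E → Prop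
  | start {V₀ : Set V} : V₀.Nonempty → Built L V₀ ∅
  | forward {V₀ U : Set V} {E₀ S : Set E} : Built L V₀ E₀ → Zipping L V₀ E₀ S U → Closed L U S →
      Built L U S
  | backward {V₀ U : Set V} {E₀ S : Set E} : Built L V₀ E₀ → Zipping (rev L) V₀ E₀ S U →
      Closed L U S → Built L U S

theorem Built.closed (h : Built L U S) : Closed L U S := by
  cases h with
  | start => exact fun _ h => h.elim
  | forward _ _ h => exact h
  | backward _ _ h => exact h

theorem Built.nonempty (h : Built L U S) : U.Nonempty := by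
  induction h with
  | start h => exact h
  | forward _ h _ ih => exact ih.mono h.base_sub.1
  | backward _ h _ ih => exact ih.mono h.base_sub.1

theorem Built.good (h : Built L U S) : ∀ (V₁ : Set V) (E₁ : Set E) (h₁ : Closed L V₁ E₁), V₁ ⊆ U →
    E₁ ⊆ S → Asph (sub L V₁ E₁ h₁) ∧ LocInd (sub L V₁ E₁ h₁).G := by
  have key : ∀ {V₀ U : Set V} {E₀ S : Set E}, Built L V₀ E₀ →
      (Zipping L V₀ E₀ S U ∨ Zipping (rev L) V₀ E₀ S U) → Closed L U S →
      (∀ (V₁ : Set V) (E₁ : Set E) (h₁ : Closed L V₁ E₁), V₁ ⊆ V₀ → E₁ ⊆ E₀ →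
        Asph (sub L V₁ E₁ h₁) ∧ LocInd (sub L V₁ E₁ h₁).G) →
      ∀ (V₁ : Set V) (E₁ : Set E) (h₁ : Closed L V₁ E₁), V₁ ⊆ U → E₁ ⊆ S →
        Asph (sub L V₁ E₁ h₁) ∧ LocInd (sub L V₁ E₁ h₁).G := by
    intro V₀ U E₀ S hb hz hU ih V₁ E₁ h₁ hV hE
    have h3 := ih V₀ (E₀ ∩ E₁) (closed_inter hb.closed) subset_rfl Set.inter_subset_left
    have h2 : Closed L (V₀ ∪ V₁) E₁ := closed_union h₁
    have hb1 : V₀ ⊆ U := by
      rcases hz with hz | hz
      · exact hz.base_sub.1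
      · exact hz.base_sub.1
    have h4 : V₀ ∪ V₁ ⊆ U := Set.union_subset hb1 hV
    have h5 := (rel_asph hb.closed hb.nonempty hz hU h2 Set.subset_union_left h4 hE).2 h3.1
    have h6 := (rel_locInd hb.closed hb.nonempty hz hU h2 Set.subset_union_left h4 hE).2 h3.2
    have h7 := incG_vertices h₁ h2 Set.subset_union_right
    exact ⟨asph_down h₁ h2 Set.subset_union_right subset_rfl h7 h5,
      locInd_of_inj h6 (incG h₁ h2 Set.subset_union_right subset_rfl) h7⟩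
  induction h with
  | start h =>
    intro V₁ E₁ h₁ _ hE
    obtain rfl : E₁ = ∅ := Set.subset_empty_iff.1 hE
    exact ⟨asph_noEdge V₁ h₁, locInd_noEdge V₁ h₁⟩
  | forward hb hz hU ih => exact key hb (Or.inl hz) hU ih
  | backward hb hz hU ih => exact key hb (Or.inr hz) hU ih

end Pool.Agent.Q179.ZP
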