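import Pool.Agent.Q179.ZP.Defs

/-!
# Solutions of equations in groups along a zipping process
-/

set_option autoImplicit false

namespace Pool.Agent.Q179.ZP

open Pool.Agent.TH625.LOG

variable {V E : Type} {P : Type} [Group P]

/-- The value at the edge `g`; the elements `δ` are free for the edges without a relation. -/
def BB (L : LOG V E) (δ : E → P) (α : V → P) (g : E) : P := δ g * α (L.ter g) * (α (L.lab g))⁻¹

/-- `ξ'` has the prescribed quotients at the known edges. -/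
def AdmG (L : LOG V E) (V₀ : Set V) (δ : E → P) (ν' : V → P) (A : Set E) (U : Set V) (α : V → P)
    {Q : Type} [Group Q] (κ : P →* Q) (ξ' : V → Q) : Prop :=
  (∀ v ∈ V₀, ξ' v = κ (ν' v)) ∧
    ∀ g ∈ A, L.ter g ∈ U → ξ' (L.ini g) = ξ' (L.lab g) * κ (BB L δ α g)

theorem join_g {L : LOG V E} {V₀ : Set V} {δ : E → P} {ν' : V → P} {A : Set E} {U : Set V}
    {α : V → P} {u w : V} (h : Joined L V₀ A U u w) :
    ∃ q : P, ∀ (Q : Type) [Group Q] (κ : P →* Q) (ξ' : V → Q),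
      AdmG L V₀ δ ν' A U α κ ξ' → ξ' w = ξ' u * κ q := by
  induction h with
  | rel u w h =>
    rcases h with ⟨h1, h2⟩ | ⟨g, hg, hg1, rfl, rfl⟩
    · refine ⟨(ν' u)⁻¹ * ν' w, fun Q _ κ ξ' hξ => ?_⟩
      rw [hξ.1 _ h1, hξ.1 _ h2, map_mul, map_inv, mul_inv_cancel_left]
    · refine ⟨(BB L δ α g)⁻¹, fun Q _ κ ξ' hξ => ?_⟩
      rw [hξ.2 g hg hg1, map_inv, mul_inv_cancel_right]
  | refl u => exact ⟨1, fun Q _ κ ξ' _ => by rw [map_one, mul_one]⟩
  | symm u w _ ih =>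
    obtain ⟨q, hq⟩ := ih
    exact ⟨q⁻¹, fun Q _ κ ξ' hξ => by rw [hq Q κ ξ' hξ, map_inv, mul_inv_cancel_right]⟩
  | trans u v w _ _ ih1 ih2 =>
    obtain ⟨q1, h1⟩ := ih1
    obtain ⟨q2, h2⟩ := ih2
    exact ⟨q1 * q2, fun Q _ κ ξ' hξ => by
      rw [h2 Q κ ξ' hξ, h1 Q κ ξ' hξ, map_mul, mul_assoc]⟩

theorem BB_congr {L : LOG V E} {δ : E → P} {α α' : V → P} {g : E}
    (h1 : α' (L.lab g) = α (L.lab g)) (h2 : α' (L.ter g) = α (L.ter g)) :
    BB L δ α' g = BB L δ α g := by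
  unfold BB
  rw [h1, h2]

/-- What is constructed along the process. -/
def GoodG (L : LOG V E) (V₀ : Set V) (E₀ : Set E) (δ : E → P) (ν ν' : V → P) (β : E → P) (S A : Set E)
    (U : Set V) (α : V → P) : Prop :=
  (∀ v ∈ V₀, α v = ν v) ∧ (∀ g ∈ A, α (L.ini g) = α (L.lab g) * β g) ∧
    (∀ e ∈ S, e ∉ E₀ → e ∉ A → ∀ (Q : Type) [Group Q] (κ : P →* Q) (ξ' : V → Q),
      AdmG L V₀ δ ν' A U α κ ξ' → ξ' (L.ini e) = ξ' (L.lab e) * κ (BB L δ α e)) ∧
    (∀ (Q : Type) [Group Q] (κ : P →* Q) (ξ ξ' : V → Q), (∀ v ∈ V₀, ξ v = κ (ν v)) →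
      (∀ v ∈ V₀, ξ' v = κ (ν' v)) → (∀ g ∈ A, ξ (L.ini g) = ξ (L.lab g) * κ (β g)) →
      (∀ e ∈ S, e ∉ E₀ → ξ' (L.ini e) = ξ' (L.lab e) * BB L (fun g => κ (δ g)) ξ e) →
        ∀ v ∈ U, ξ v = κ (α v))

theorem exists_goodG {L : LOG V E} {V₀ : Set V} {E₀ : Set E} (hc : Closed L V₀ E₀) (δ : E → P)
    (ν ν' : V → P) (β : E → P) {S A : Set E} {U : Set V} (h : Zip L V₀ E₀ S A U) :
    ∃ α : V → P, GoodG L V₀ E₀ δ ν ν' β S A U α := by
  classical
  induction h with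
  | start => exact ⟨ν, fun _ _ => rfl, fun _ h => h.elim, fun e he h1 => (h1 he).elim,
      fun Q _ κ ξ ξ' h1 _ _ _ => h1⟩
  | @ini S A U e hz h1 h2 ih =>
    obtain ⟨α, g0, g1, g2, g3⟩ := ih
    have hne : ∀ v ∈ U, Function.update α (L.ini e) (α (L.lab e) * β e) v = α v := fun v hv =>
      Function.update_of_ne (by rintro rfl; exact h2 hv) _ _
    refine ⟨Function.update α (L.ini e) (α (L.lab e) * β e), ?_, ?_, ?_, ?_⟩
    · intro v hv
      rw [hne v (hz.base_sub.1 hv), g0 v hv]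
    · rintro g (rfl | hg)
      · rw [Function.update_self, hne _ h1]
      · have hg' := hz.ends hc g (hz.base_sub.2.2 hg)
        rw [hne _ hg'.1, hne _ hg'.2, g1 g hg]
    · rintro g (rfl | hg) hg1 hg2
      · exact (hg2 (Set.mem_insert _ _)).elim
      · have hgA : g ∉ A := fun h => hg2 (Set.mem_insert_of_mem _ h)
        have hg' := hz.ends hc g hg
        have ht := hz.ter_mem g hg hg1 hgA
        rintro Q _ κ ξ' ⟨f1, f2⟩
        rw [BB_congr (hne _ hg'.2) (hne _ ht)]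
        refine g2 g hg hg1 hgA Q κ ξ' ⟨f1, fun k hk hk1 => ?_⟩
        rw [f2 k (Set.mem_insert_of_mem _ hk) (Set.mem_insert_of_mem _ hk1),
          BB_congr (hne _ (hz.ends hc k (hz.base_sub.2.2 hk)).2) (hne _ hk1)]
    · intro Q _ κ ξ ξ' k1 k2 k3 k4
      have h5 := g3 Q κ ξ ξ' k1 k2 (fun g hg => k3 g (Set.mem_insert_of_mem _ hg))
        (fun g hg => k4 g (Set.mem_insert_of_mem _ hg))
      rintro v (rfl | hv)
      · rw [Function.update_self, k3 e (Set.mem_insert _ _), h5 _ h1, map_mul]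
      · rw [hne v hv, h5 v hv]
  | @lab S A U e hz h1 h2 ih =>
    obtain ⟨α, g0, g1, g2, g3⟩ := ih
    have hne : ∀ v ∈ U, Function.update α (L.lab e) (α (L.ini e) * (β e)⁻¹) v = α v :=
      fun v hv => Function.update_of_ne (by rintro rfl; exact h2 hv) _ _
    refine ⟨Function.update α (L.lab e) (α (L.ini e) * (β e)⁻¹), ?_, ?_, ?_, ?_⟩
    · intro v hv
      rw [hne v (hz.base_sub.1 hv), g0 v hv]
    · rintro g (rfl | hg)
      · rw [Function.update_self, hne _ h1, inv_mul_cancel_right]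
      · have hg' := hz.ends hc g (hz.base_sub.2.2 hg)
        rw [hne _ hg'.1, hne _ hg'.2, g1 g hg]
    · rintro g (rfl | hg) hg1 hg2
      · exact (hg2 (Set.mem_insert _ _)).elim
      · have hgA : g ∉ A := fun h => hg2 (Set.mem_insert_of_mem _ h)
        have hg' := hz.ends hc g hg
        have ht := hz.ter_mem g hg hg1 hgA
        rintro Q _ κ ξ' ⟨f1, f2⟩
        rw [BB_congr (hne _ hg'.2) (hne _ ht)]
        refine g2 g hg hg1 hgA Q κ ξ' ⟨f1, fun k hk hk1 => ?_⟩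
        rw [f2 k (Set.mem_insert_of_mem _ hk) (Set.mem_insert_of_mem _ hk1),
          BB_congr (hne _ (hz.ends hc k (hz.base_sub.2.2 hk)).2) (hne _ hk1)]
    · intro Q _ κ ξ ξ' k1 k2 k3 k4
      have h5 := g3 Q κ ξ ξ' k1 k2 (fun g hg => k3 g (Set.mem_insert_of_mem _ hg))
        (fun g hg => k4 g (Set.mem_insert_of_mem _ hg))
      rintro v (rfl | hv)
      · have h6 := k3 e (Set.mem_insert _ _)
        rw [Function.update_self, map_mul, map_inv, ← h5 _ h1, h6, mul_inv_cancel_right]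
      · rw [hne v hv, h5 v hv]
  | @close S A U e f hz he h1 h2 h3 h4 ih =>
    obtain ⟨α, g0, g1, g2, g3⟩ := ih
    have hfA : f ∈ A ∨ f = e := by
      rcases h4 with ⟨h, _⟩ | ⟨h, _⟩
      · exact Or.inr h
      · exact Or.inl h
    have hlf : L.lab f ∈ U := by
      rcases hfA with h | rfl
      · exact (hz.ends hc f (hz.base_sub.2.2 h)).2
      · exact h2
    -- admissible functions for the new set are admissible for the old one
    have adm : ∀ α' : V → P, (∀ v ∈ U, α' v = α v) → ∀ (Q : Type) [Group Q] (κ : P →* Q)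
        (ξ' : V → Q), AdmG L V₀ δ ν' A (insert (L.ter f) U) α' κ ξ' → AdmG L V₀ δ ν' A U α κ ξ' := by
      rintro α' hα Q _ κ ξ' ⟨f1, f2⟩
      refine ⟨f1, fun k hk hk1 => ?_⟩
      rw [f2 k hk (Set.mem_insert_of_mem _ hk1),
        BB_congr (hα _ (hz.ends hc k (hz.base_sub.2.2 hk)).2) (hα _ hk1)]
    -- it is enough to find the value of `BB` at `f`
    suffices key : ∃ r : P,
        (∀ α' : V → P, (∀ v ∈ U, α' v = α v) → BB L δ α' f = r →
          ∀ (Q : Type) [Group Q] (κ : P →* Q) (ξ' : V → Q),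
          AdmG L V₀ δ ν' A (insert (L.ter f) U) α' κ ξ' →
            ξ' (L.ini e) = ξ' (L.lab e) * κ (BB L δ α' e)) ∧
        (∀ (Q : Type) [Group Q] (κ : P →* Q) (ξ ξ' : V → Q), (∀ v ∈ U, ξ v = κ (α v)) →
          AdmG L V₀ δ ν' A U α κ ξ' →
          ξ' (L.ini e) = ξ' (L.lab e) * BB L (fun g => κ (δ g)) ξ e →
          ξ' (L.ini f) = ξ' (L.lab f) * BB L (fun g => κ (δ g)) ξ f →
            BB L (fun g => κ (δ g)) ξ f = κ r) by
      obtain ⟨r, key2, key3⟩ := key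
      have hne : ∀ v ∈ U, Function.update α (L.ter f) ((δ f)⁻¹ * r * α (L.lab f)) v = α v := fun v hv =>
        Function.update_of_ne (by rintro rfl; exact h3 hv) _ _
      have hr : BB L δ (Function.update α (L.ter f) ((δ f)⁻¹ * r * α (L.lab f))) f = r := by
        unfold BB
        rw [hne _ hlf, Function.update_self]
        group
      refine ⟨Function.update α (L.ter f) ((δ f)⁻¹ * r * α (L.lab f)), ?_, ?_, ?_, ?_⟩
      · intro v hv
        rw [hne v (hz.base_sub.1 hv), g0 v hv]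
      · intro g hg
        have hg' := hz.ends hc g (hz.base_sub.2.2 hg)
        rw [hne _ hg'.1, hne _ hg'.2, g1 g hg]
      · rintro g (rfl | hg) hg1 hg2
        · exact key2 _ hne hr
        · have hg' := hz.ends hc g hg
          have ht := hz.ter_mem g hg hg1 hg2
          rintro Q _ κ ξ' ⟨f1, f2⟩
          rw [BB_congr (hne _ hg'.2) (hne _ ht)]
          refine g2 g hg hg1 hg2 Q κ ξ' ⟨f1, fun k hk hk1 => ?_⟩
          rw [f2 k hk (Set.mem_insert_of_mem _ hk1),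
            BB_congr (hne _ (hz.ends hc k (hz.base_sub.2.2 hk)).2) (hne _ hk1)]
      · intro Q _ κ ξ ξ' k1 k2 k3 k4
        have h5 := g3 Q κ ξ ξ' k1 k2 k3 (fun g hg => k4 g (Set.mem_insert_of_mem _ hg))
        have h6 : AdmG L V₀ δ ν' A U α κ ξ' := by
          refine ⟨k2, fun g hg hg1 => ?_⟩
          have hg' := hz.ends hc g (hz.base_sub.2.2 hg)
          rw [k4 g (Set.mem_insert_of_mem _ (hz.base_sub.2.2 hg)) (hz.not_base hc g hg)]
          unfold BB
          rw [h5 _ hg1, h5 _ hg'.2, map_mul, map_mul, map_inv]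
        have he0 : e ∉ E₀ := fun h => he (hz.base_sub.2.1 h)
        have h7 := key3 Q κ ξ ξ' h5 h6 (k4 e (Set.mem_insert _ _) he0) (by
          rcases hfA with h | rfl
          · exact k4 f (Set.mem_insert_of_mem _ (hz.base_sub.2.2 h)) (hz.not_base hc f h)
          · exact k4 f (Set.mem_insert _ _) he0)
        rintro v (rfl | hv)
        · rw [Function.update_self, map_mul, map_mul, ← h7, ← h5 _ hlf, map_inv]
          unfold BB
          group
        · rw [hne v hv, h5 v hv]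
    rcases h4 with ⟨rfl, hj⟩ | ⟨hf, hte, hj⟩
    · obtain ⟨q, hq⟩ := join_g (δ := δ) (ν' := ν') (α := α) hj
      refine ⟨q⁻¹, ?_, ?_⟩
      · intro α' hα hr Q _ κ ξ' hξ
        rw [hr, hq Q κ ξ' (adm α' hα Q κ ξ' hξ), map_inv, mul_inv_cancel_right]
      · intro Q _ κ ξ ξ' _ k2 _ k4
        rw [hq Q κ ξ' k2, mul_assoc] at k4
        rw [map_inv]
        have h5 : κ q * BB L (fun g => κ (δ g)) ξ f = 1 := mul_left_cancel (a := ξ' (L.ini f)) (by
          rw [mul_one]; exact k4.symm)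
        exact eq_inv_of_mul_eq_one_right h5
    · rcases hj with ⟨hj1, hj2⟩ | ⟨hj1, hj2⟩
      · obtain ⟨q1, hq1⟩ := join_g (δ := δ) (ν' := ν') (α := α) hj1
        obtain ⟨q2, hq2⟩ := join_g (δ := δ) (ν' := ν') (α := α) hj2
        refine ⟨q2 * BB L δ α e * q1⁻¹, ?_, ?_⟩
        · intro α' hα hr Q _ κ ξ' hξ
          have h5 := hξ.2 f hf (Set.mem_insert _ _)
          have h6 := adm α' hα Q κ ξ' hξ
          rw [hr] at h5
          rw [BB_congr (hα _ h2) (hα _ hte), hq1 Q κ ξ' h6, hq2 Q κ ξ' h6, h5, map_mul, map_mul,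
            map_inv]
          group
        · intro Q _ κ ξ ξ' k1 k2 k3 k4
          have h5 : BB L (fun g => κ (δ g)) ξ e = κ (BB L δ α e) := by
            unfold BB
            rw [k1 _ hte, k1 _ h2, map_mul, map_mul, map_inv]
          rw [h5, hq1 Q κ ξ' k2, hq2 Q κ ξ' k2, k4] at k3
          rw [map_mul, map_mul, map_inv, eq_mul_inv_iff_mul_eq]
          apply mul_left_cancel (a := ξ' (L.lab f))
          rw [← mul_assoc, k3]
          group
      · obtain ⟨q1, hq1⟩ := join_g (δ := δ) (ν' := ν') (α := α) hj1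
        obtain ⟨q2, hq2⟩ := join_g (δ := δ) (ν' := ν') (α := α) hj2
        refine ⟨q2 * (BB L δ α e)⁻¹ * q1⁻¹, ?_, ?_⟩
        · intro α' hα hr Q _ κ ξ' hξ
          have h5 := hξ.2 f hf (Set.mem_insert _ _)
          have h6 := adm α' hα Q κ ξ' hξ
          rw [hr] at h5
          rw [BB_congr (hα _ h2) (hα _ hte), hq1 Q κ ξ' h6, hq2 Q κ ξ' h6, h5, map_mul, map_mul,
            map_inv, map_inv]
          group
        · intro Q _ κ ξ ξ' k1 k2 k3 k4
          have h5 : BB L (fun g => κ (δ g)) ξ e = κ (BB L δ α e) := by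
            unfold BB
            rw [k1 _ hte, k1 _ h2, map_mul, map_mul, map_inv]
          rw [h5, hq1 Q κ ξ' k2, hq2 Q κ ξ' k2, k4] at k3
          rw [map_mul, map_mul, map_inv, map_inv, eq_mul_inv_iff_mul_eq, eq_mul_inv_iff_mul_eq]
          apply mul_left_cancel (a := ξ' (L.lab f))
          rw [k3]
          group

/-- The elements `α v` and their properties. -/
theorem exists_alpha {L : LOG V E} {V₀ : Set V} {E₀ : Set E} (hc : Closed L V₀ E₀)
    (h : Zips L V₀ E₀) (δ : E → P) (ν ν' : V → P) (β : E → P) :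
    ∃ (A : Set E) (α : V → P), (∀ v ∈ V₀, α v = ν v) ∧
      (∀ g ∈ A, α (L.ini g) = α (L.lab g) * β g) ∧
      (∀ (Q : Type) [Group Q] (κ : P →* Q) (ξ' : V → Q), (∀ v ∈ V₀, ξ' v = κ (ν' v)) →
        (∀ g ∈ A, ξ' (L.ini g) = ξ' (L.lab g) * κ (BB L δ α g)) →
          ∀ e ∉ E₀, ξ' (L.ini e) = ξ' (L.lab e) * κ (BB L δ α e)) ∧
      (∀ (Q : Type) [Group Q] (κ : P →* Q) (ξ ξ' : V → Q), (∀ v ∈ V₀, ξ v = κ (ν v)) →
        (∀ v ∈ V₀, ξ' v = κ (ν' v)) → (∀ g ∈ A, ξ (L.ini g) = ξ (L.lab g) * κ (β g)) →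
        (∀ e ∉ E₀, ξ' (L.ini e) = ξ' (L.lab e) * BB L (fun g => κ (δ g)) ξ e) → ∀ v, ξ v = κ (α v)) := by
  obtain ⟨A, hz⟩ := h
  obtain ⟨α, g0, g1, g2, g3⟩ := exists_goodG hc δ ν ν' β hz
  refine ⟨A, α, g0, g1, ?_, ?_⟩
  · intro Q _ κ ξ' h1 h2 e he
    by_cases hA : e ∈ A
    · exact h2 e hA
    · exact g2 e (Set.mem_univ _) he hA Q κ ξ' ⟨h1, fun g hg _ => h2 g hg⟩
  · intro Q _ κ ξ ξ' h1 h2 h3 h4 v
    exact g3 Q κ ξ ξ' h1 h2 h3 (fun e _ he => h4 e he) v (Set.mem_univ _)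

end Pool.Agent.Q179.ZP
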