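import Pool.Agent.TH625.LOG.LI

/-!
# Free products with free groups, and direct limits: local indicability
-/

set_option autoImplicit false

namespace Pool.Agent.Q179.ZP

open Pool.Agent.TH625.LOG

/-- the action of `N` on the free group on `N × E` by left translations of the basis -/
def act (N E : Type) [Group N] : N →* MulAut (FreeGroup (N × E)) where
  toFun n := FreeGroup.freeGroupCongr (Equiv.prodCongr (Equiv.mulLeft n) (Equiv.refl E))
  map_one' := by
    apply MulEquiv.toMonoidHom_injective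
    refine FreeGroup.ext_hom _ _ fun p => ?_
    show FreeGroup.map _ (FreeGroup.of p) = FreeGroup.of p
    rw [FreeGroup.map.of]
    simp
  map_mul' m n := by
    apply MulEquiv.toMonoidHom_injective
    refine FreeGroup.ext_hom _ _ fun p => ?_
    show FreeGroup.map _ (FreeGroup.of p) = FreeGroup.map _ (FreeGroup.map _ (FreeGroup.of p))
    rw [FreeGroup.map.of, FreeGroup.map.of, FreeGroup.map.of]
    obtain ⟨a, b⟩ := p
    simp [mul_assoc]

/-- The free product of `N` and the free group on `E`. -/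
abbrev HH (N E : Type) [Group N] : Type := FreeGroup (N × E) ⋊[act N E] N

variable {N E : Type} [Group N]

/-- the inclusion of `N` -/
def incl : N →* HH N E := SemidirectProduct.inr

theorem incl_inj : Function.Injective (incl : N →* HH N E) := SemidirectProduct.inr_injective

/-- the free generators -/
def bb (e : E) : HH N E := SemidirectProduct.inl (FreeGroup.of (1, e))

theorem inl_of (n : N) (e : E) :
    (SemidirectProduct.inl (FreeGroup.of (n, e)) : HH N E) = incl n * bb e * (incl n)⁻¹ := by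
  unfold incl bb
  rw [← map_inv, ← SemidirectProduct.inl_aut]
  congr 1
  show FreeGroup.of (n, e) = FreeGroup.map _ (FreeGroup.of (1, e))
  rw [FreeGroup.map.of]
  simp

/-- the universal property -/
def liftH {Q : Type} [Group Q] (κ₀ : N →* Q) (b : E → Q) : HH N E →* Q :=
  SemidirectProduct.lift (FreeGroup.lift fun p => κ₀ p.1 * b p.2 * (κ₀ p.1)⁻¹) κ₀ (by
    intro n
    refine FreeGroup.ext_hom _ _ fun p => ?_
    obtain ⟨a, e⟩ := p
    have h1 : (MulEquiv.toMonoidHom (act N E n)) (FreeGroup.of (a, e)) =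
        FreeGroup.of (n * a, e) := by
      show FreeGroup.map _ (FreeGroup.of (a, e)) = _
      rw [FreeGroup.map.of]
      rfl
    rw [MonoidHom.comp_apply, MonoidHom.comp_apply, h1, FreeGroup.lift_apply_of,
      FreeGroup.lift_apply_of]
    show κ₀ (n * a) * b e * (κ₀ (n * a))⁻¹ = κ₀ n * (κ₀ a * b e * (κ₀ a)⁻¹) * (κ₀ n)⁻¹
    rw [map_mul]
    group)

theorem liftH_incl {Q : Type} [Group Q] (κ₀ : N →* Q) (b : E → Q) (n : N) :
    liftH κ₀ b (incl n) = κ₀ n := SemidirectProduct.lift_inr _ _ _ _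

theorem liftH_bb {Q : Type} [Group Q] (κ₀ : N →* Q) (b : E → Q) (e : E) :
    liftH κ₀ b (bb e) = b e := by
  unfold liftH bb
  rw [SemidirectProduct.lift_inl, FreeGroup.lift_apply_of]
  simp

theorem hom_extH {Q : Type} [Group Q] {f g : HH N E →* Q} (h1 : ∀ n, f (incl n) = g (incl n))
    (h2 : ∀ e, f (bb e) = g (bb e)) : f = g := by
  refine SemidirectProduct.hom_ext ?_ ?_
  · refine FreeGroup.ext_hom _ _ fun p => ?_
    show f (SemidirectProduct.inl (FreeGroup.of p)) = g (SemidirectProduct.inl (FreeGroup.of p))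
    obtain ⟨n, e⟩ := p
    rw [inl_of, map_mul, map_mul, map_mul, map_mul, map_inv, map_inv, h1, h2]
  · exact MonoidHom.ext h1

/-- nontrivial groups which embed into free groups have nontrivial homomorphisms to the integers -/
theorem free_hom {F : Type} [Group F] [IsFreeGroup F] {H : Type} [Group H] (g : H →* F)
    (hg : Function.Injective g) (hne : ∃ x : H, x ≠ 1) :
    ∃ ψ : H →* Multiplicative ℤ, ∃ x, ψ x ≠ 1 := by
  have hfree : IsFreeGroup g.range := inferInstance
  have hex : Nonempty (IsFreeGroup.Generators g.range) := by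
    by_contra hcon
    rw [not_nonempty_iff] at hcon
    obtain ⟨x, hx⟩ := hne
    apply hx
    apply hg
    have h1 : (g.rangeRestrict x) = 1 := by
      apply (IsFreeGroup.toFreeGroup g.range).injective
      exact Subsingleton.elim _ _
    rw [map_one]
    exact congrArg Subtype.val h1
  obtain ⟨a⟩ := hex
  obtain ⟨x, hx⟩ := g.rangeRestrict_surjective (IsFreeGroup.of a)
  refine ⟨(IsFreeGroup.lift fun _ => Multiplicative.ofAdd (1 : ℤ)).comp g.rangeRestrict, x, ?_⟩
  show IsFreeGroup.lift (fun _ => Multiplicative.ofAdd (1 : ℤ)) (g.rangeRestrict x) ≠ 1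
  rw [hx, IsFreeGroup.lift_of]
  decide

theorem locInd_HH (hN : LocInd N) : LocInd (HH N E) := by
  refine LocInd.ext hN SemidirectProduct.rightHom ?_
  intro H _ hne hk
  have hr : ∀ x : H, (x : HH N E).right = 1 := fun x => MonoidHom.mem_ker.1 (hk x.2)
  let g : H →* FreeGroup (N × E) := MonoidHom.mk' (fun x => (x : HH N E).left) (by
    intro x y
    show (x * y : HH N E).left = _
    rw [SemidirectProduct.mul_left, hr x, map_one]
    rfl)
  refine free_hom g ?_ ?_
  · intro x y hxy
    apply Subtype.ext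
    exact SemidirectProduct.ext hxy ((hr x).trans (hr y).symm)
  · by_contra hcon
    push Not at hcon
    apply hne
    rw [Subgroup.eq_bot_iff_forall]
    intro x hx
    exact congrArg Subtype.val (hcon ⟨x, hx⟩)

/-- Direct limits: the image of a locally indicable group by a homomorphism whose kernel is the
union of the kernels of the powers of an endomorphism. -/
theorem dirlim {H G : Type} [Group H] [Group G] (hH : LocInd H) (ψ : Monoid.End H) (κ : H →* G)
    (hk : ∀ h, κ h = 1 ↔ ∃ n : ℕ, (ψ ^ n) h = 1) (S : Subgroup G) (hS : S.FG) (hne : S ≠ ⊥)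
    (hr : S ≤ κ.range) : ∃ χ : S →* Multiplicative ℤ, ∃ x, χ x ≠ 1 := by
  classical
  obtain ⟨T, hT⟩ := hS
  have hl : ∀ t : T, ∃ h : H, κ h = t := fun t =>
    hr (by rw [← hT]; exact Subgroup.subset_closure t.2)
  choose l hl using hl
  set K : Subgroup H := Subgroup.closure (Set.range l) with hK
  have hKmem : ∀ t, l t ∈ K := fun t => Subgroup.subset_closure ⟨t, rfl⟩
  have hKfg : K.FG := ⟨Finset.univ.image l, by rw [Finset.coe_image, Finset.coe_univ,
    Set.image_univ]⟩
  have hKS : K.map κ = S := by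
    rw [hK, MonoidHom.map_closure, ← Set.range_comp]
    have : Set.range (κ ∘ l) = (T : Set G) := by
      ext g
      constructor
      · rintro ⟨t, rfl⟩
        show κ (l t) ∈ _
        rw [hl]; exact t.2
      · intro hg
        exact ⟨⟨g, hg⟩, hl _⟩
    rw [this, hT]
  -- homomorphisms are determined by the values on the generators
  have hext : ∀ (Q : Type) [Group Q] (χ χ' : K →* Q),
      (∀ t, χ ⟨l t, hKmem t⟩ = χ' ⟨l t, hKmem t⟩) → χ = χ' := by
    intro Q _ χ χ' h
    refine MonoidHom.ext ?_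
    rintro ⟨x, hx⟩
    induction hx using Subgroup.closure_induction with
    | mem y hy =>
      obtain ⟨t, rfl⟩ := hy
      exact h t
    | one => exact (map_one χ).trans (map_one χ').symm
    | mul y z hy hz h1 h2 =>
      have : (⟨y * z, mul_mem hy hz⟩ : K) = ⟨y, hy⟩ * ⟨z, hz⟩ := rfl
      rw [this, map_mul, map_mul, h1, h2]
    | inv y hy h1 =>
      have : (⟨y⁻¹, inv_mem hy⟩ : K) = (⟨y, hy⟩ : K)⁻¹ := rfl
      rw [this, map_inv, map_inv, h1]
  -- the spaces of the homomorphisms to ℝ which factor through the powers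
  let D : ℕ → Submodule ℝ (T → ℝ) := fun k =>
    { carrier := {c | ∃ χ : K →* Multiplicative ℝ,
        (∀ t, Multiplicative.toAdd (χ ⟨l t, hKmem t⟩) = c t) ∧
          ∀ x : K, (ψ ^ k) (x : H) = 1 → χ x = 1}
      zero_mem' := ⟨1, fun _ => rfl, fun _ _ => rfl⟩
      add_mem' := by
        rintro c c' ⟨χ, h1, h2⟩ ⟨χ', h3, h4⟩
        refine ⟨χ * χ', fun t => ?_, fun x hx => ?_⟩
        · rw [MonoidHom.mul_apply, toAdd_mul, h1, h3]; rfl
        · rw [MonoidHom.mul_apply, h2 x hx, h4 x hx, one_mul]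
      smul_mem' := by
        rintro r c ⟨χ, h1, h2⟩
        refine ⟨(AddMonoidHom.toMultiplicative (AddMonoidHom.mulLeft r)).comp χ, fun t => ?_,
          fun x hx => ?_⟩
        · show r * Multiplicative.toAdd (χ ⟨l t, hKmem t⟩) = r * c t
          rw [h1]
        · rw [MonoidHom.comp_apply, h2 x hx, map_one] }
  have hD : ∀ k, D (k + 1) ≤ D k := by
    rintro k c ⟨χ, h1, h2⟩
    refine ⟨χ, h1, fun x hx => h2 x ?_⟩
    rw [pow_succ']
    show ψ ((ψ ^ k) (x : H)) = 1
    rw [hx]
    exact map_one (ψ : H →* H)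
  have hDne : ∀ k, D k ≠ ⊥ := by
    intro k hbot
    have h1 : K.map ((ψ ^ k : Monoid.End H) : H →* H) ≠ ⊥ := by
      intro h0
      apply hne
      rw [← hKS, Subgroup.eq_bot_iff_forall]
      rintro _ ⟨x, hx, rfl⟩
      rw [hk]
      refine ⟨k, ?_⟩
      exact (Subgroup.eq_bot_iff_forall _).1 h0 _ ⟨x, hx, rfl⟩
    have h2 : (K.map ((ψ ^ k : Monoid.End H) : H →* H)).FG := by
      refine ⟨(Finset.univ.image l).image ((ψ ^ k : Monoid.End H) : H →* H), ?_⟩
      rw [Finset.coe_image, Finset.coe_image, Finset.coe_univ, Set.image_univ, hK,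
        MonoidHom.map_closure]
      rfl
    obtain ⟨φ, hφ⟩ := hH _ h2 h1
    let π : K →* K.map ((ψ ^ k : Monoid.End H) : H →* H) :=
      (((ψ ^ k : Monoid.End H) : H →* H).comp K.subtype).codRestrict _
        (fun x => ⟨x, x.2, rfl⟩)
    have hπ : Function.Surjective π := by
      rintro ⟨_, ⟨x, hx, rfl⟩⟩
      exact ⟨⟨x, hx⟩, rfl⟩
    let χ : K →* Multiplicative ℝ :=
      (AddMonoidHom.toMultiplicative (Int.castAddHom ℝ)).comp (φ.comp π)
    have h3 : (fun t => Multiplicative.toAdd (χ ⟨l t, hKmem t⟩)) ∈ D k := by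
      refine ⟨χ, fun _ => rfl, fun x hx => ?_⟩
      have : π x = 1 := Subtype.ext hx
      show (AddMonoidHom.toMultiplicative (Int.castAddHom ℝ)) (φ (π x)) = 1
      rw [this, map_one, map_one]
    rw [hbot, Submodule.mem_bot] at h3
    have h4 : χ = 1 := hext _ _ _ fun t => by
      have := congrFun h3 t
      exact this
    obtain ⟨y, hy⟩ := hφ (Multiplicative.ofAdd 1)
    obtain ⟨x, rfl⟩ := hπ y
    have h5 : χ x = 1 := by rw [h4]; rfl
    have h6 : χ x = Multiplicative.ofAdd ((1 : ℤ) : ℝ) := by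
      show (AddMonoidHom.toMultiplicative (Int.castAddHom ℝ)) (φ (π x)) = _
      rw [hy]; rfl
    rw [h5] at h6
    have h7 : (0 : ℝ) = ((1 : ℤ) : ℝ) := h6
    norm_num at h7
  obtain ⟨k0, hk0⟩ := IsArtinian.monotone_stabilizes
    (⟨fun k => OrderDual.toDual (D k), monotone_nat_of_le_succ fun k => hD k⟩ :
      ℕ →o (Submodule ℝ (T → ℝ))ᵒᵈ)
  have hk1 : ∀ m, k0 ≤ m → D k0 = D m := hk0
  obtain ⟨c, hc, hc0⟩ := (Submodule.ne_bot_iff _).1 (hDne k0)
  obtain ⟨χ, h1, h2⟩ := hc
  have hall : ∀ x : K, κ x = 1 → χ x = 1 := by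
    intro x hx
    obtain ⟨n, hn⟩ := (hk _).1 hx
    have h3 : c ∈ D (max k0 n) := by
      rw [← hk1 _ (le_max_left _ _)]
      exact ⟨χ, h1, h2⟩
    obtain ⟨χ', h4, h5⟩ := h3
    have h6 : χ' = χ := hext _ _ _ fun t => by
      have : Multiplicative.toAdd (χ' ⟨l t, hKmem t⟩) = Multiplicative.toAdd (χ ⟨l t, hKmem t⟩) := by
        rw [h1, h4]
      exact this
    rw [← h6]
    apply h5
    obtain ⟨m, hm⟩ := Nat.exists_eq_add_of_le (le_max_right k0 n)
    rw [hm, add_comm, pow_add]
    show (ψ ^ m) ((ψ ^ n) (x : H)) = 1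
    rw [hn]
    exact map_one ((ψ ^ m : Monoid.End H) : H →* H)
  let π : K →* S := (κ.comp K.subtype).codRestrict S (fun x => by
    rw [← hKS]; exact ⟨x, x.2, rfl⟩)
  have hπ : Function.Surjective π := by
    rintro ⟨y, hy⟩
    rw [← hKS] at hy
    obtain ⟨x, hx, rfl⟩ := hy
    exact ⟨⟨x, hx⟩, rfl⟩
  let χS : S →* Multiplicative ℝ := MonoidHom.liftOfSurjective π hπ ⟨χ, by
    intro x hx
    rw [MonoidHom.mem_ker] at hx ⊢
    exact hall x (congrArg Subtype.val hx)⟩
  have hχS : ∀ x, χS (π x) = χ x := fun x => MonoidHom.liftOfRightInverse_comp_apply _ _ _ _ x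
  have hfg : Group.FG S := (Group.fg_iff_subgroup_fg S).2 ⟨T, hT⟩
  have hex : ∃ x : K, χ x ≠ 1 := by
    by_contra hcon
    push Not at hcon
    apply hc0
    funext t
    rw [← h1 t, hcon]
    rfl
  obtain ⟨x, hx⟩ := hex
  exact real_to_int χS (π x) (by rw [hχS]; exact hx)

theorem dirlim' {H G : Type} [Group H] [Group G] (hH : LocInd H) (ψ : H →* H) (κ : H →* G)
    (hk : ∀ h, κ h = 1 ↔ ∃ n : ℕ, ψ^[n] h = 1) (S : Subgroup G) (hS : S.FG) (hne : S ≠ ⊥)
    (hr : S ≤ κ.range) : ∃ χ : S →* Multiplicative ℤ, ∃ x, χ x ≠ 1 := by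
  let Ψ : Monoid.End H := ψ
  refine dirlim hH Ψ κ (fun h => ?_) S hS hne hr
  rw [hk]
  refine exists_congr fun n => ?_
  have : ∀ x, (Ψ ^ n : Monoid.End H) x = ψ^[n] x := by
    induction n with
    | zero => exact fun x => rfl
    | succ n ih =>
      intro x
      rw [pow_succ]
      exact ih (ψ x)
  rw [this]

end Pool.Agent.Q179.ZP
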