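import Pool.Agent.Q179.ZP.Grp
import Pool.Agent.Q179.ZP.HH
import Pool.Agent.Q179.ZP.Chain

/-!
# The groups of the subgraphs of a zipping extension as ascending HNN extensions
-/

set_option autoImplicit false

namespace Pool.Agent.Q179.ZP

open Pool.Agent.TH625.LOG

variable {V E : Type}

/-- The relation of the edge `e`. -/
theorem rel_gen (L : LOG V E) (e : E) :
    L.gen (L.ini e) * L.gen (L.lab e) = L.gen (L.lab e) * L.gen (L.ter e) := by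
  have h1 : PresentedGroup.mk (Set.range L.rel) (L.rel e) = 1 :=
    PresentedGroup.one_of_mem ⟨e, rfl⟩
  unfold LOG.rel at h1
  simp only [map_mul, map_inv] at h1
  rw [mul_inv_eq_one, mul_inv_eq_iff_eq_mul] at h1
  exact h1

/-- A map of the vertices which satisfies the relations extends to the group. -/
def homG (L : LOG V E) {Q : Type} [Group Q] (f : V → Q)
    (h : ∀ e, f (L.ini e) * f (L.lab e) = f (L.lab e) * f (L.ter e)) : L.G →* Q :=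
  PresentedGroup.toGroup (f := f) (by
    rintro _ ⟨e, rfl⟩
    unfold LOG.rel
    simp only [map_mul, map_inv, FreeGroup.lift_apply_of]
    rw [mul_inv_eq_one, mul_inv_eq_iff_eq_mul]
    exact h e)

theorem homG_gen (L : LOG V E) {Q : Type} [Group Q] (f : V → Q)
    (h : ∀ e, f (L.ini e) * f (L.lab e) = f (L.lab e) * f (L.ter e)) (v : V) :
    homG L f h (L.gen v) = f v := PresentedGroup.toGroup.of _

theorem hom_extG (L : LOG V E) {Q : Type} [Group Q] {f g : L.G →* Q}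
    (h : ∀ v, f (L.gen v) = g (L.gen v)) : f = g := PresentedGroup.ext h

variable {L : LOG V E} {V₀ V₁ : Set V} {E₀ E₁ : Set E}

/-- the labelled oriented graph with all vertices and the edges in `E₁` -/
def restr (L : LOG V E) (E₁ : Set E) : LOG V E₁ where
  ini e := L.ini e
  ter e := L.ter e
  lab e := L.lab e

/-- the homomorphism to the group of `restr L E₁` -/
def toR (h₀ : Closed L V₀ E₀) (hE : E₀ ⊆ E₁) : (sub L V₀ E₀ h₀).G →* (restr L E₁).G :=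
  homG _ (fun v => (restr L E₁).gen v) fun e => rel_gen (restr L E₁) ⟨e, hE e.2⟩

theorem toR_gen (h₀ : Closed L V₀ E₀) (hE : E₀ ⊆ E₁) (v : V₀) :
    toR h₀ hE ((sub L V₀ E₀ h₀).gen v) = (restr L E₁).gen v := homG_gen _ _ _ _

/-- the homomorphism of the groups induced by an inclusion of subgraphs -/
def incG (h₀ : Closed L V₀ E₀) (h₁ : Closed L V₁ E₁) (hV : V₀ ⊆ V₁) (hE : E₀ ⊆ E₁) :
    (sub L V₀ E₀ h₀).G →* (sub L V₁ E₁ h₁).G :=
  homG _ (fun v => (sub L V₁ E₁ h₁).gen ⟨v, hV v.2⟩) fun e =>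
    rel_gen (sub L V₁ E₁ h₁) ⟨e, hE e.2⟩

theorem incG_gen (h₀ : Closed L V₀ E₀) (h₁ : Closed L V₁ E₁) (hV : V₀ ⊆ V₁) (hE : E₀ ⊆ E₁)
    (v : V₀) : incG h₀ h₁ hV hE ((sub L V₀ E₀ h₀).gen v) = (sub L V₁ E₁ h₁).gen ⟨v, hV v.2⟩ :=
  homG_gen _ _ _ _

theorem toR_incG (h₀ : Closed L V₀ E₀) (h₁ : Closed L V₁ E₁) (hV : V₀ ⊆ V₁) (hE : E₀ ⊆ E₁) :
    (toR h₁ subset_rfl).comp (incG h₀ h₁ hV hE) = toR h₀ hE := by
  refine hom_extG _ fun v => ?_
  rw [MonoidHom.comp_apply, incG_gen, toR_gen, toR_gen]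

/-- the group of a subgraph is a retract of the group of `restr L E₁` -/
theorem toR_inj (h₁ : Closed L V₁ E₁) : Function.Injective (toR h₁ (subset_refl E₁)) := by
  classical
  let r : (restr L E₁).G →* (sub L V₁ E₁ h₁).G := homG _
    (fun v => if hv : v ∈ V₁ then (sub L V₁ E₁ h₁).gen ⟨v, hv⟩ else 1) (fun e => by
      have h2 := h₁ e e.2
      have a1 : (if hv : (restr L E₁).ini e ∈ V₁ then
          (sub L V₁ E₁ h₁).gen ⟨(restr L E₁).ini e, hv⟩ else 1) =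
          (sub L V₁ E₁ h₁).gen ((sub L V₁ E₁ h₁).ini e) := dif_pos h2.1
      have a2 : (if hv : (restr L E₁).ter e ∈ V₁ then
          (sub L V₁ E₁ h₁).gen ⟨(restr L E₁).ter e, hv⟩ else 1) =
          (sub L V₁ E₁ h₁).gen ((sub L V₁ E₁ h₁).ter e) := dif_pos h2.2.1
      have a3 : (if hv : (restr L E₁).lab e ∈ V₁ then
          (sub L V₁ E₁ h₁).gen ⟨(restr L E₁).lab e, hv⟩ else 1) =
          (sub L V₁ E₁ h₁).gen ((sub L V₁ E₁ h₁).lab e) := dif_pos h2.2.2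
      rw [a1, a2, a3]
      exact rel_gen (sub L V₁ E₁ h₁) e)
  have hr : r.comp (toR h₁ subset_rfl) = MonoidHom.id _ := by
    refine hom_extG _ fun v => ?_
    rw [MonoidHom.comp_apply, toR_gen]
    show homG _ _ _ _ = _
    rw [homG_gen]
    exact dif_pos v.2
  intro x y hxy
  have h1 := DFunLike.congr_fun hr x
  have h2 := DFunLike.congr_fun hr y
  rw [MonoidHom.comp_apply] at h1 h2
  rw [hxy, h2] at h1
  exact h1.symm

theorem dg_toR (h₀ : Closed L V₀ E₀) (hE : E₀ ⊆ E₁) (g : (sub L V₀ E₀ h₀).G) :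
    dg (restr L E₁) (toR h₀ hE g) = dg (sub L V₀ E₀ h₀) g := by
  have : (deg (restr L E₁)).comp (toR h₀ hE) = deg (sub L V₀ E₀ h₀) := by
    refine hom_extG _ fun v => ?_
    rw [MonoidHom.comp_apply, toR_gen, deg_gen, deg_gen]
  exact congrArg Multiplicative.toAdd (DFunLike.congr_fun this g)

/-- the kernel of the degree -/
abbrev KK (L : LOG V E) : Subgroup L.G := (deg L).ker

theorem mem_KK {L : LOG V E} {g : L.G} : g ∈ KK L ↔ dg L g = 0 := Iff.rfl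

/-- the free parameters of the edges without a relation -/
noncomputable def dl (N : Type) [Group N] (E₁ : Set E) (e : E) : HH N (E ⊕ E × ℕ) := by
  classical
  exact if e ∈ E₁ then 1 else bb (Sum.inr (e, 0))

theorem dl_pos {N : Type} [Group N] {e : E} (h : e ∈ E₁) : dl N E₁ e = 1 := if_pos h

theorem dl_neg {N : Type} [Group N] {e : E} (h : e ∉ E₁) :
    dl N E₁ e = bb (Sum.inr (e, 0)) := if_neg h

/-- the value of the relator -/
def DD (L : LOG V E) (E₁ : Set E) (e : E) : (restr L E₁).G :=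
  ((restr L E₁).gen (L.lab e))⁻¹ * (restr L E₁).gen (L.ini e) * (restr L E₁).gen (L.lab e) *
    ((restr L E₁).gen (L.ter e))⁻¹

theorem DD_pos {e : E} (h : e ∈ E₁) : DD L E₁ e = 1 := by
  have h1 := rel_gen (restr L E₁) ⟨e, h⟩
  have h2 : (restr L E₁).gen (L.ini e) * (restr L E₁).gen (L.lab e) =
    (restr L E₁).gen (L.lab e) * (restr L E₁).gen (L.ter e) := h1
  unfold DD
  rw [mul_assoc (_)⁻¹, h2]
  group

/-- The data of the ascending HNN extension: `N` is the kernel of the degree of the starting group. -/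
theorem exists_hnn (hc : Closed L V₀ E₀) (hz : Zips L V₀ E₀) (hE : E₀ ⊆ E₁) (o : V₀) :
    ∃ (α : V → HH (KK (sub L V₀ E₀ hc)) (E ⊕ E × ℕ))
      (ψ : HH (KK (sub L V₀ E₀ hc)) (E ⊕ E × ℕ) →* HH (KK (sub L V₀ E₀ hc)) (E ⊕ E × ℕ))
      (κ : HH (KK (sub L V₀ E₀ hc)) (E ⊕ E × ℕ) →* (restr L E₁).G),
      α o = 1 ∧
      (∀ (v : V₀) (n : KK (sub L V₀ E₀ hc)), (n : (sub L V₀ E₀ hc).G) =
        (sub L V₀ E₀ hc).gen v * ((sub L V₀ E₀ hc).gen o)⁻¹ → α v = incl n) ∧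
      (∀ e, ψ (α (L.ini e)) = ψ (α (L.lab e)) * BB L (dl _ E₁) α e) ∧
      (∀ e, ψ (bb (Sum.inl e)) = BB L (dl _ E₁) α e) ∧
      (∀ n m : KK (sub L V₀ E₀ hc), (m : (sub L V₀ E₀ hc).G) =
        ((sub L V₀ E₀ hc).gen o)⁻¹ * n * (sub L V₀ E₀ hc).gen o → ψ (incl n) = incl m) ∧
      (∀ v, κ (α v) = (restr L E₁).gen v * ((restr L E₁).gen o)⁻¹) ∧
      (∀ h, κ (ψ h) = ((restr L E₁).gen o)⁻¹ * κ h * (restr L E₁).gen o) ∧
      (∀ n : KK (sub L V₀ E₀ hc), κ (incl n) = toR hc hE n) ∧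
      (∀ e, κ (bb (Sum.inl e)) = (restr L E₁).gen o * ((restr L E₁).gen (L.lab e))⁻¹ *
        (restr L E₁).gen (L.ini e) * ((restr L E₁).gen o)⁻¹) ∧
      (∀ e ∈ E₁, ∀ k : ℕ, ψ (bb (Sum.inr (e, k))) = 1) ∧
      (∀ e ∉ E₁, ∀ k : ℕ, ψ (bb (Sum.inr (e, k))) = bb (Sum.inr (e, k + 1))) ∧
      (∀ e ∈ E₁, ∀ k : ℕ, κ (bb (Sum.inr (e, k))) = 1) ∧
      (∀ e ∉ E₁, ∀ k : ℕ, κ (bb (Sum.inr (e, k))) =
        ((restr L E₁).gen o ^ k)⁻¹ * DD L E₁ e * (restr L E₁).gen o ^ k) := by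
  classical
  set L₀ := sub L V₀ E₀ hc with hL₀
  set L₁ := restr L E₁ with hL₁
  -- the elements of `N`
  let m : V₀ → KK L₀ := fun v => ⟨L₀.gen v * (L₀.gen o)⁻¹, by
    rw [mem_KK, dg_mul, dg_inv, dg_gen, dg_gen]; ring⟩
  let σ : KK L₀ →* KK L₀ := (MulAut.conjNormal (L₀.gen o)⁻¹ : MulAut (KK L₀)).toMonoidHom
  have hσ : ∀ n : KK L₀, ((σ n : KK L₀) : L₀.G) = (L₀.gen o)⁻¹ * n * L₀.gen o := by
    intro n
    show ((MulAut.conjNormal (L₀.gen o)⁻¹ n : KK L₀) : L₀.G) = _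
    rw [MulAut.conjNormal_apply, inv_inv]
  let ν : V → HH (KK L₀) (E ⊕ E × ℕ) := fun v => if hv : v ∈ V₀ then incl (m ⟨v, hv⟩) else 1
  let ν' : V → HH (KK L₀) (E ⊕ E × ℕ) := fun v =>
    if hv : v ∈ V₀ then incl (σ (m ⟨v, hv⟩)) else 1
  have hν : ∀ v : V₀, ν v = incl (m v) := fun v => dif_pos v.2
  have hν' : ∀ v : V₀, ν' v = incl (σ (m v)) := fun v => dif_pos v.2
  obtain ⟨A, α, a1, a2, a3, a4⟩ := exists_alpha hc hz (dl (KK L₀) E₁) ν ν'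
    (fun e => bb (Sum.inl e))
  have a1' : ∀ v : V₀, α v = incl (m v) := fun v => (a1 v v.2).trans (hν v)
  let ψ : HH (KK L₀) (E ⊕ E × ℕ) →* HH (KK L₀) (E ⊕ E × ℕ) := liftH ((incl).comp σ)
    (Sum.elim (fun e => BB L (dl (KK L₀) E₁) α e)
      (fun p => if p.1 ∈ E₁ then 1 else bb (Sum.inr (p.1, p.2 + 1))))
  have p1 : ∀ n, ψ (incl n) = incl (σ n) := fun n => liftH_incl _ _ n
  have p2 : ∀ e, ψ (bb (Sum.inl e)) = BB L (dl (KK L₀) E₁) α e := fun e => liftH_bb _ _ _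
  have p3 : ∀ (e : E) (k : ℕ), ψ (bb (Sum.inr (e, k))) =
      if e ∈ E₁ then 1 else bb (Sum.inr (e, k + 1)) := fun e k => liftH_bb _ _ _
  let κ : HH (KK L₀) (E ⊕ E × ℕ) →* L₁.G := liftH ((toR hc hE).comp (KK L₀).subtype)
    (Sum.elim (fun e => L₁.gen o * (L₁.gen (L.lab e))⁻¹ * L₁.gen (L.ini e) * (L₁.gen o)⁻¹)
      (fun p => if p.1 ∈ E₁ then 1 else (L₁.gen o ^ p.2)⁻¹ * DD L E₁ p.1 * L₁.gen o ^ p.2))
  have k1 : ∀ n : KK L₀, κ (incl n) = toR hc hE n := fun n => liftH_incl _ _ n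
  have k2 : ∀ e, κ (bb (Sum.inl e)) =
      L₁.gen o * (L₁.gen (L.lab e))⁻¹ * L₁.gen (L.ini e) * (L₁.gen o)⁻¹ := fun e => liftH_bb _ _ _
  have k3 : ∀ (e : E) (k : ℕ), κ (bb (Sum.inr (e, k))) =
      if e ∈ E₁ then 1 else (L₁.gen o ^ k)⁻¹ * DD L E₁ e * L₁.gen o ^ k :=
    fun e k => liftH_bb _ _ _
  have DDv : ∀ e, DD L E₁ e = (L₁.gen (L.lab e))⁻¹ * L₁.gen (L.ini e) * L₁.gen (L.lab e) *
      (L₁.gen (L.ter e))⁻¹ := fun _ => rfl
  have kd : ∀ e, κ (dl (KK L₀) E₁ e) = DD L E₁ e := by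
    intro e
    by_cases he : e ∈ E₁
    · rw [dl_pos he, map_one, DD_pos he]
    · rw [dl_neg he, k3, if_neg he]; simp
  have t1 : ∀ v : V₀, toR hc hE (m v : L₀.G) = L₁.gen v * (L₁.gen o)⁻¹ := by
    intro v
    show toR hc hE (L₀.gen v * (L₀.gen o)⁻¹) = _
    rw [map_mul, map_inv]
    erw [toR_gen, toR_gen]
  -- relations of the new edges
  have R : ∀ e, ψ (α (L.ini e)) = ψ (α (L.lab e)) * BB L (dl (KK L₀) E₁) α e := by
    intro e
    by_cases he : e ∈ E₀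
    · obtain ⟨h1, h2, h3⟩ := hc e he
      have e1 : α (L.ini e) = incl (m ⟨L.ini e, h1⟩) := a1' ⟨_, h1⟩
      have e2 : α (L.ter e) = incl (m ⟨L.ter e, h2⟩) := a1' ⟨_, h2⟩
      have e3 : α (L.lab e) = incl (m ⟨L.lab e, h3⟩) := a1' ⟨_, h3⟩
      unfold BB
      rw [dl_pos (hE he), one_mul, e1, e2, e3, p1, p1, ← map_inv, ← map_mul, ← map_mul]
      congr 1
      apply Subtype.ext
      rw [hσ]
      show (L₀.gen o)⁻¹ * (L₀.gen ⟨L.ini e, h1⟩ * (L₀.gen o)⁻¹) * L₀.gen o =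
        ((σ (m ⟨L.lab e, h3⟩) : KK L₀) : L₀.G) * (L₀.gen ⟨L.ter e, h2⟩ * (L₀.gen o)⁻¹ *
          (L₀.gen ⟨L.lab e, h3⟩ * (L₀.gen o)⁻¹)⁻¹)
      rw [hσ]
      show (L₀.gen o)⁻¹ * (L₀.gen ⟨L.ini e, h1⟩ * (L₀.gen o)⁻¹) * L₀.gen o =
        (L₀.gen o)⁻¹ * (L₀.gen ⟨L.lab e, h3⟩ * (L₀.gen o)⁻¹) * L₀.gen o *
          (L₀.gen ⟨L.ter e, h2⟩ * (L₀.gen o)⁻¹ * (L₀.gen ⟨L.lab e, h3⟩ * (L₀.gen o)⁻¹)⁻¹)
      have hr : L₀.gen ⟨L.ini e, h1⟩ * L₀.gen ⟨L.lab e, h3⟩ =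
        L₀.gen ⟨L.lab e, h3⟩ * L₀.gen ⟨L.ter e, h2⟩ := rel_gen L₀ ⟨e, he⟩
      have hr2 : L₀.gen ⟨L.ini e, h1⟩ = L₀.gen ⟨L.lab e, h3⟩ * L₀.gen ⟨L.ter e, h2⟩ *
        (L₀.gen ⟨L.lab e, h3⟩)⁻¹ := by rw [← hr, mul_inv_cancel_right]
      rw [hr2]
      group
    · refine a3 (HH (KK L₀) (E ⊕ E × ℕ)) (MonoidHom.id _) (fun v => ψ (α v)) ?_ ?_ e he
      · intro v hv
        show ψ (α v) = ν' v
        have e1 : α v = incl (m ⟨v, hv⟩) := a1' ⟨_, hv⟩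
        have e2 : ν' v = incl (σ (m ⟨v, hv⟩)) := hν' ⟨_, hv⟩
        rw [e1, e2, p1]
      · intro g hg
        show ψ (α (L.ini g)) = ψ (α (L.lab g)) * BB L (dl (KK L₀) E₁) α g
        rw [a2 g hg, map_mul, p2]
  have K : ∀ v, L₁.gen v * (L₁.gen o)⁻¹ = κ (α v) := by
    refine a4 L₁.G κ (fun v => L₁.gen v * (L₁.gen o)⁻¹) (fun v => (L₁.gen o)⁻¹ * L₁.gen v)
      ?_ ?_ ?_ ?_
    · intro v hv
      have e1 : ν v = incl (m ⟨v, hv⟩) := hν ⟨_, hv⟩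
      rw [e1, k1, t1]
    · intro v hv
      have e2 : ν' v = incl (σ (m ⟨v, hv⟩)) := hν' ⟨_, hv⟩
      rw [e2, k1, hσ, map_mul, map_mul, t1, map_inv]
      have e3 : toR hc hE (L₀.gen o) = L₁.gen o := toR_gen hc hE o
      rw [e3]
      show _ = (L₁.gen o)⁻¹ * (L₁.gen v * (L₁.gen o)⁻¹) * L₁.gen o
      group
    · intro g _
      rw [k2]
      group
    · intro e _
      show (L₁.gen o)⁻¹ * L₁.gen (L.ini e) = (L₁.gen o)⁻¹ * L₁.gen (L.lab e) *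
        (κ (dl (KK L₀) E₁ e) * (L₁.gen (L.ter e) * (L₁.gen o)⁻¹) *
          (L₁.gen (L.lab e) * (L₁.gen o)⁻¹)⁻¹)
      rw [kd, DDv]
      group
  have S : ∀ h, κ (ψ h) = (L₁.gen o)⁻¹ * κ h * L₁.gen o := by
    have : κ.comp ψ = ((MulAut.conj (L₁.gen o)⁻¹ : MulAut L₁.G).toMonoidHom).comp κ := by
      refine hom_extH (fun n => ?_) (fun e => ?_)
      · show κ (ψ (incl n)) = MulAut.conj (L₁.gen o)⁻¹ (κ (incl n))
        rw [p1, k1, k1, hσ, map_mul, map_mul, map_inv, MulAut.conj_apply, inv_inv]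
        have e3 : toR hc hE (L₀.gen o) = L₁.gen o := toR_gen hc hE o
        rw [e3]
      · show κ (ψ (bb e)) = MulAut.conj (L₁.gen o)⁻¹ (κ (bb e))
        rw [MulAut.conj_apply, inv_inv]
        rcases e with e | ⟨e, k⟩
        · rw [p2, k2]
          unfold BB
          rw [map_mul, map_mul, map_inv, ← K, ← K, kd, DDv]
          group
        · rw [p3, k3]
          by_cases he : e ∈ E₁
          · rw [if_pos he, if_pos he, map_one]; simp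
          · rw [if_neg he, if_neg he, k3, if_neg he, pow_succ]
            group
    intro h
    have h2 := DFunLike.congr_fun this h
    have h3 : κ (ψ h) = MulAut.conj (L₁.gen o)⁻¹ (κ h) := h2
    rw [h3, MulAut.conj_apply, inv_inv]
  refine ⟨α, ψ, κ, ?_, ?_, R, p2, ?_, fun v => (K v).symm, S, k1, k2,
    fun e he k => (p3 e k).trans (if_pos he), fun e he k => (p3 e k).trans (if_neg he),
    fun e he k => (k3 e k).trans (if_pos he), fun e he k => (k3 e k).trans (if_neg he)⟩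
  · rw [a1' o]
    have : m o = 1 := Subtype.ext (mul_inv_cancel _)
    rw [this, map_one]
  · intro v n hn
    rw [a1' v]
    congr 1
    exact Subtype.ext hn.symm
  · intro n m' hm
    rw [p1]
    congr 1
    exact Subtype.ext ((hσ n).trans hm.symm)

end Pool.Agent.Q179.ZP
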