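import Pool.Agent.Q179.ZP.Rep

/-!
# Local indicability of zipping extensions
-/

set_option autoImplicit false

namespace Pool.Agent.Q179.ZP

open Pool.Agent.TH625.LOG

variable {V E : Type} {L : LOG V E} {V₀ V₁ : Set V} {E₀ E₁ : Set E}

theorem locInd_of_inj {G A : Type} [Group G] [Group A] (hA : LocInd A) (f : G →* A)
    (hf : Function.Injective f) : LocInd G := by
  intro S hS hne
  refine hA.of_hom hS f fun hk => hne ?_
  rw [Subgroup.eq_bot_iff_forall]
  intro x hx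
  exact hf ((MonoidHom.mem_ker.1 (hk hx)).trans (map_one f).symm)

theorem kappa_iter {H : Type} [Group H] {G : Type} [Group G] (t : G) (ψ : H →* H) (κ : H →* G)
    (hκ : ∀ h, κ (ψ h) = t⁻¹ * κ h * t) (n : ℕ) (h : H) :
    κ (ψ^[n] h) = (t ^ n)⁻¹ * κ h * t ^ n := by
  induction n generalizing h with
  | zero => simp
  | succ n ih =>
    rw [Function.iterate_succ_apply, ih, hκ, pow_succ]
    have := pow_mul_comm t 1 n
    rw [pow_one] at this
    rw [← this]
    group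

/-- the ascending union of the conjugates of the image of `κ` -/
def Kinf {H : Type} [Group H] {G : Type} [Group G] (t : G) (ψ : H →* H) (κ : H →* G)
    (hκ : ∀ h, κ (ψ h) = t⁻¹ * κ h * t) : Subgroup G where
  carrier := {g | ∃ (m : ℕ) (h : H), (t ^ m)⁻¹ * g * t ^ m = κ h}
  one_mem' := ⟨0, 1, by simp⟩
  mul_mem' := by
    rintro a b ⟨m, h, hm⟩ ⟨n, k, hn⟩
    refine ⟨m + n, ψ^[n] h * ψ^[m] k, ?_⟩
    rw [map_mul, kappa_iter t ψ κ hκ, kappa_iter t ψ κ hκ, ← hm, ← hn]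
    have e1 : t ^ (m + n) = t ^ m * t ^ n := pow_add t m n
    have e2 : t ^ n * t ^ m = t ^ m * t ^ n := pow_mul_comm t n m
    rw [e1]
    have e3 : (t ^ n)⁻¹ * ((t ^ m)⁻¹ * a * t ^ m) * t ^ n = (t ^ m * t ^ n)⁻¹ * a *
      (t ^ m * t ^ n) := by group
    have e4 : (t ^ m)⁻¹ * ((t ^ n)⁻¹ * b * t ^ n) * t ^ m = (t ^ m * t ^ n)⁻¹ * b *
      (t ^ m * t ^ n) := by
      rw [← e2]; group
    rw [e3, e4]
    group
  inv_mem' := by
    rintro a ⟨m, h, hm⟩
    refine ⟨m, h⁻¹, ?_⟩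
    rw [map_inv, ← hm]
    group

theorem Kinf_conj {H : Type} [Group H] {G : Type} [Group G] (t : G) (ψ : H →* H) (κ : H →* G)
    (hκ : ∀ h, κ (ψ h) = t⁻¹ * κ h * t) {g : G} (hg : g ∈ Kinf t ψ κ hκ) :
    t * g * t⁻¹ ∈ Kinf t ψ κ hκ ∧ t⁻¹ * g * t ∈ Kinf t ψ κ hκ := by
  obtain ⟨m, h, hm⟩ := hg
  constructor
  · refine ⟨m + 1, h, ?_⟩
    rw [← hm, pow_succ]
    have := pow_mul_comm t 1 m
    rw [pow_one] at this
    rw [← this]
    group
  · refine ⟨m, ψ h, ?_⟩
    rw [hκ, ← hm]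
    have := pow_mul_comm t 1 m
    rw [pow_one] at this
    have e1 : t⁻¹ * ((t ^ m)⁻¹ * g * t ^ m) * t = (t ^ m * t)⁻¹ * g * (t ^ m * t) := by group
    rw [e1, ← this]
    group

theorem Kinf_zconj {H : Type} [Group H] {G : Type} [Group G] (t : G) (ψ : H →* H) (κ : H →* G)
    (hκ : ∀ h, κ (ψ h) = t⁻¹ * κ h * t) (a : ℤ) {g : G} (hg : g ∈ Kinf t ψ κ hκ) :
    t ^ a * g * t ^ (-a) ∈ Kinf t ψ κ hκ := by
  induction a using Int.induction_on generalizing g with
  | zero => simpa using hg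
  | succ a ih =>
    have h1 := ih (Kinf_conj t ψ κ hκ hg).1
    have h2 : t ^ ((a : ℤ) + 1) * g * t ^ (-((a : ℤ) + 1)) =
        t ^ (a : ℤ) * (t * g * t⁻¹) * t ^ (-(a : ℤ)) := by
      rw [neg_add, zpow_add, zpow_one, zpow_add, zpow_neg_one]
      have := zpow_mul_comm t (-1) (-(a : ℤ))
      rw [zpow_neg_one] at this
      rw [← this]
      group
    rw [h2]; exact h1
  | pred a ih =>
    have h1 := ih (Kinf_conj t ψ κ hκ hg).2
    have h2 : t ^ (-(a : ℤ) - 1) * g * t ^ (-(-(a : ℤ) - 1)) =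
        t ^ (-(a : ℤ)) * (t⁻¹ * g * t) * t ^ (-(-(a : ℤ))) := by
      rw [neg_sub, sub_neg_eq_add, neg_neg, zpow_sub, zpow_one, zpow_add, zpow_one]
      group
    rw [h2]; exact h1

/-- The groups of the graphs between the starting graph and a zipping extension, with all
vertices, are locally indicable if the group of the starting graph is so. -/
theorem locInd_restr (hc : Closed L V₀ E₀) (hz : Zips L V₀ E₀) (hE : E₀ ⊆ E₁) (hne : V₀.Nonempty)
    (h0 : LocInd (sub L V₀ E₀ hc).G) : LocInd (restr L E₁).G := by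
  classical
  obtain ⟨o, ho⟩ := hne
  obtain ⟨-, α, ψ, κ, k1, k2, k3⟩ := exists_hnn2 hc hz hE ⟨o, ho⟩
  have k1' : ∀ v, κ (α v) = (restr L E₁).gen v * ((restr L E₁).gen o)⁻¹ := k1
  have hκ : ∀ h, κ (ψ h) = ((restr L E₁).gen o)⁻¹ * κ h * (restr L E₁).gen o := k2
  have hH : LocInd (HH (KK (sub L V₀ E₀ hc)) (E ⊕ E × ℕ)) :=
    locInd_HH (locInd_of_inj h0 (KK (sub L V₀ E₀ hc)).subtype Subtype.val_injective)
  have hker : ∀ h, κ h = 1 ↔ ∃ n : ℕ, ψ^[n] h = 1 := by
    intro h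
    constructor
    · exact k3 h
    · rintro ⟨n, hn⟩
      have h1 := kappa_iter ((restr L E₁).gen o) ψ κ hκ n h
      have h2 : ψ^[n] h = 1 := hn
      rw [h2, map_one] at h1
      have h3 : κ h = ((restr L E₁).gen o) ^ n * (((restr L E₁).gen o ^ n)⁻¹ * κ h * (restr L E₁).gen o ^ n) *
        (((restr L E₁).gen o) ^ n)⁻¹ := by group
      rw [h3, ← h1]; simp
  -- every element is a power of `t` times an element of `Kinf`
  have hall : ∀ g : (restr L E₁).G, g * ((restr L E₁).gen o) ^ (-dg (restr L E₁) g) ∈ Kinf ((restr L E₁).gen o) ψ κ hκ := by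
    intro g
    have hg : g ∈ Subgroup.closure (Set.range (PresentedGroup.of : V → (restr L E₁).G)) := by
      rw [PresentedGroup.closure_range_of]; trivial
    induction hg using Subgroup.closure_induction with
    | mem x hx =>
      obtain ⟨v, rfl⟩ := hx
      have h1 : dg (restr L E₁) (PresentedGroup.of v : (restr L E₁).G) = 1 := dg_gen (restr L E₁) v
      rw [h1, zpow_neg_one]
      exact ⟨0, α v, by rw [k1']; simp [LOG.gen]⟩
    | one => rw [dg_one]; simp
    | mul x y _ _ h1 h2 =>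
      have h3 := mul_mem h1 (Kinf_zconj ((restr L E₁).gen o) ψ κ hκ (dg (restr L E₁) x) h2)
      have h4 : x * y * (restr L E₁).gen o ^ (-dg (restr L E₁) (x * y)) = x * (restr L E₁).gen o ^ (-dg (restr L E₁) x) *
          ((restr L E₁).gen o ^ dg (restr L E₁) x * (y * (restr L E₁).gen o ^ (-dg (restr L E₁) y)) * (restr L E₁).gen o ^ (-dg (restr L E₁) x)) := by
        rw [dg_mul, neg_add_rev, zpow_add]
        group
      rw [h4]; exact h3
    | inv x _ h1 =>
      have h3 := Kinf_zconj ((restr L E₁).gen o) ψ κ hκ (-dg (restr L E₁) x) (inv_mem h1)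
      have h4 : x⁻¹ * (restr L E₁).gen o ^ (-dg (restr L E₁) x⁻¹) = (restr L E₁).gen o ^ (-dg (restr L E₁) x) *
          (x * (restr L E₁).gen o ^ (-dg (restr L E₁) x))⁻¹ * (restr L E₁).gen o ^ (-(-dg (restr L E₁) x)) := by
        rw [dg_inv, mul_inv_rev, neg_neg, zpow_neg]
        group
      rw [h4]; exact h3
  let f : (restr L E₁).G →* Multiplicative ℝ :=
    (AddMonoidHom.toMultiplicative (Int.castAddHom ℝ)).comp (deg (restr L E₁))
  refine LocInd.ext locInd_real f ?_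
  intro S hS hSne hk
  have hdeg : ∀ g ∈ S, dg (restr L E₁) g = 0 := by
    intro g hg
    have h1 : f g = 1 := MonoidHom.mem_ker.1 (hk hg)
    have h2 : ((dg (restr L E₁) g : ℤ) : ℝ) = 0 := h1
    exact_mod_cast h2
  have hmem : ∀ g ∈ S, ∃ (m : ℕ) (h : HH (KK (sub L V₀ E₀ hc)) (E ⊕ E × ℕ)),
      (((restr L E₁).gen o) ^ m)⁻¹ * g * ((restr L E₁).gen o) ^ m = κ h := by
    intro g hg
    have := hall g
    rw [hdeg g hg, neg_zero, zpow_zero, mul_one] at this
    exact this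
  obtain ⟨T, hT⟩ := id hS
  have hTS : ∀ g ∈ T, g ∈ S := fun g hg => by rw [← hT]; exact Subgroup.subset_closure hg
  have hch : ∀ g : T, ∃ (m : ℕ) (h : HH (KK (sub L V₀ E₀ hc)) (E ⊕ E × ℕ)),
      (((restr L E₁).gen o) ^ m)⁻¹ * g * ((restr L E₁).gen o) ^ m = κ h := fun g => hmem g (hTS g g.2)
  choose m hh hm using hch
  set M : ℕ := Finset.univ.sup m with hM
  let cj : (restr L E₁).G →* (restr L E₁).G := (MulAut.conj (((restr L E₁).gen o) ^ M)⁻¹ : MulAut (restr L E₁).G).toMonoidHom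
  have hcj : ∀ g, cj g = (((restr L E₁).gen o) ^ M)⁻¹ * g * ((restr L E₁).gen o) ^ M := by
    intro g
    show MulAut.conj (((restr L E₁).gen o) ^ M)⁻¹ g = _
    rw [MulAut.conj_apply, inv_inv]
  have hcjinj : Function.Injective cj :=
    (MulAut.conj (((restr L E₁).gen o) ^ M)⁻¹ : MulAut (restr L E₁).G).injective
  have hr : S.map cj ≤ κ.range := by
    rw [← hT, MonoidHom.map_closure, Subgroup.closure_le]
    rintro _ ⟨g, hg, rfl⟩
    obtain ⟨j, hj⟩ := Nat.exists_eq_add_of_le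
      (Finset.le_sup (f := m) (Finset.mem_univ (⟨g, hg⟩ : T)))
    refine ⟨ψ^[j] (hh ⟨g, hg⟩), ?_⟩
    rw [kappa_iter ((restr L E₁).gen o) ψ κ hκ, ← hm ⟨g, hg⟩, hcj, hM, hj, pow_add]
    group
  have hSfg : (S.map cj).FG :=
    ⟨T.image cj, by rw [Finset.coe_image, ← MonoidHom.map_closure, hT]⟩
  have hSne' : S.map cj ≠ ⊥ := by
    intro hb
    apply hSne
    rwa [Subgroup.map_eq_bot_iff_of_injective S hcjinj] at hb
  obtain ⟨χ, x, hx⟩ := dirlim' hH ψ κ hker (S.map cj) hSfg hSne' hr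
  obtain ⟨_, ⟨y, hy, rfl⟩⟩ := x
  refine ⟨χ.comp ((cj.comp S.subtype).codRestrict (S.map cj) fun z => ⟨z, z.2, rfl⟩),
    ⟨y, hy⟩, hx⟩

/-- **Zipping extensions**: the group of a graph between the starting graph and the zipping extension
is locally indicable if and only if the group of the starting graph is locally indicable. -/
theorem locInd_iff (h₀ : Closed L V₀ E₀) (hz : Zips L V₀ E₀) (hne : V₀.Nonempty)
    (h₁ : Closed L V₁ E₁) (hV : V₀ ⊆ V₁) (hE : E₀ ⊆ E₁) :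
    LocInd (sub L V₁ E₁ h₁).G ↔ LocInd (sub L V₀ E₀ h₀).G := by
  constructor
  · intro h
    obtain ⟨o, ho⟩ := hne
    have h1 := (exists_hnn2 h₀ hz hE ⟨o, ho⟩).1
    rw [← toR_incG h₀ h₁ hV hE] at h1
    exact locInd_of_inj h (incG h₀ h₁ hV hE)
      (Function.Injective.of_comp (f := toR h₁ subset_rfl) (by exact h1))
  · intro h
    exact locInd_of_inj (locInd_restr h₀ hz hE hne h) (toR h₁ subset_rfl) (toR_inj h₁)

end Pool.Agent.Q179.ZP
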