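import Pool.Agent.Q179.ZP.Chain

/-!
# Cycles of the universal covering are supported on the starting subgraph
-/

set_option autoImplicit false

namespace Pool.Agent.Q179.ZP

open Pool.Agent.TH625.LOG

variable {V E : Type}

/-- right translations of the functions on a group -/
def trEnd {G : Type} [Group G] (x : G) : Module.End ℤ (G → ℤ) where
  toFun a := fun g => a (g * x⁻¹)
  map_add' _ _ := rfl
  map_smul' _ _ := rfl

theorem trEnd_apply {G : Type} [Group G] (x : G) (a : G → ℤ) (g : G) :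
    trEnd x a g = a (g * x⁻¹) := rfl

/-- the unit of the opposite ring given by a right translation -/
def trUnit {G : Type} [Group G] (x : G) : ((Module.End ℤ (G → ℤ))ᵐᵒᵖ)ˣ where
  val := MulOpposite.op (trEnd x)
  inv := MulOpposite.op (trEnd x⁻¹)
  val_inv := by
    apply MulOpposite.unop_injective
    refine LinearMap.ext fun a => ?_
    funext g
    show a (g * x⁻¹⁻¹ * x⁻¹) = a g
    rw [inv_inv, mul_inv_cancel_right]
  inv_val := by
    apply MulOpposite.unop_injective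
    refine LinearMap.ext fun a => ?_
    funext g
    show a (g * x⁻¹ * x⁻¹⁻¹) = a g
    rw [inv_inv, inv_mul_cancel_right]

theorem sum_swap {G V' E' : Type} [Group G] [DecidableEq V'] (s : Finset E') (W : Finset V')
    (p : E' → V') (hp : ∀ e ∈ s, p e ∈ W) (φ : V' → Module.End ℤ (G → ℤ)) (a : E' → G → ℤ) :
    ∑ e ∈ s, φ (p e) (a e) = ∑ v ∈ W, φ v (∑ e ∈ s, if p e = v then a e else 0) := by
  simp_rw [map_sum]
  rw [Finset.sum_comm]
  refine Finset.sum_congr rfl fun e he => ?_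
  rw [Finset.sum_eq_single (p e)]
  · rw [if_pos rfl]
  · intro v _ hv
    rw [if_neg (Ne.symm hv), map_zero]
  · intro h
    exact (h (hp e he)).elim

/-- A cycle of the universal covering of a subgraph is supported on the starting subgraph. -/
theorem supp_base_aux {L : LOG V E} {V₀ : Set V} {E₀ : Set E} (hc : Closed L V₀ E₀)
    (hz : Zips L V₀ E₀) {V₁ : Set V} {E₁ : Set E} (L₁ : LOG V₁ E₁)
    (i1 : ∀ e : E₁, (L₁.ini e : V) = L.ini e) (i2 : ∀ e : E₁, (L₁.ter e : V) = L.ter e)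
    (i3 : ∀ e : E₁, (L₁.lab e : V) = L.lab e)
    (c : (E₁ × L₁.G) →₀ ℤ) (hb : L₁.bdry c = 0) :
    ∀ d ∈ c.support, (d.1 : E) ∈ E₀ := by
  classical
  by_contra hcon
  push Not at hcon
  set B : Finset (E₁ × L₁.G) := c.support.filter fun d => (d.1 : E) ∉ E₀ with hB
  have hBne : B.Nonempty := by
    obtain ⟨d, hd, hd1⟩ := hcon
    exact ⟨d, Finset.mem_filter.2 ⟨hd, hd1⟩⟩
  obtain ⟨⟨e0, h0⟩, hd0, hmin⟩ := B.exists_min_image (fun d => dg L₁ d.2) hBne
  obtain ⟨hd1, hd2⟩ := Finset.mem_filter.1 hd0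
  set n : ℤ := dg L₁ h0 with hn
  have hlow : ∀ (e : E₁) (g : L₁.G), (e : E) ∉ E₀ → dg L₁ g < n → c (e, g) = 0 := by
    intro e g he hg
    by_contra hne
    have := hmin (e, g) (Finset.mem_filter.2 ⟨Finsupp.mem_support_iff.2 hne, he⟩)
    exact absurd this (not_le.2 hg)
  set s : Finset E₁ := c.support.image Prod.fst with hs
  have hs1 : ∀ d ∈ c.support, d.1 ∈ s := fun d hd => Finset.mem_image_of_mem _ hd
  -- the lowest and the next part
  set a : E₁ → L₁.G → ℤ := fun e g => if (e : E) ∉ E₀ ∧ dg L₁ g = n then c (e, g) else 0 with ha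
  set b : E₁ → L₁.G → ℤ := fun e g => if (e : E) ∉ E₀ ∧ dg L₁ g = n + 1 then c (e, g) else 0
    with hbdef
  -- the equations in degree n and n + 1
  have eq0 : ∀ v : V₁, (v : V) ∉ V₀ →
      (∑ e ∈ s, if L₁.ini e = v then a e else 0) - (∑ e ∈ s, if L₁.lab e = v then a e else 0) =
        0 := by
    intro v hv
    funext g
    rw [Pi.sub_apply, Finset.sum_apply, Finset.sum_apply, ← Finset.sum_sub_distrib, Pi.zero_apply]
    by_cases hg : dg L₁ g = n
    · have h1 := bdry_apply' L₁ c s hs1 v g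
      rw [hb, Finsupp.coe_zero, Pi.zero_apply] at h1
      rw [h1]
      refine Finset.sum_congr rfl fun e _ => ?_
      by_cases he : (e : E) ∈ E₀
      · have k1 : L₁.ini e ≠ v := fun h => hv (by rw [← h, i1]; exact (hc _ he).1)
        have k2 : L₁.lab e ≠ v := fun h => hv (by rw [← h, i3]; exact (hc _ he).2.2)
        have k3 : L₁.ter e ≠ v := fun h => hv (by rw [← h, i2]; exact (hc _ he).2.1)
        simp [k1, k2, k3]
      · have k1 : c (e, g * (L₁.gen (L₁.ini e))⁻¹) = 0 := hlow _ _ he (by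
          rw [dg_mul, dg_inv, dg_gen]; omega)
        have k2 : c (e, g * (L₁.gen (L₁.lab e))⁻¹) = 0 := hlow _ _ he (by
          rw [dg_mul, dg_inv, dg_gen]; omega)
        have k3 : a e g = c (e, g) := if_pos ⟨he, hg⟩
        rw [k1, k2, ite_self, ite_self, sub_zero, add_zero]
        congr 1
        · split_ifs
          · exact k3
          · rfl
        · split_ifs
          · exact k3
          · rfl
    · refine Finset.sum_eq_zero fun e _ => ?_
      have k3 : a e g = 0 := if_neg fun h => hg h.2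
      split_ifs <;> simp [k3]
  have eq1 : ∀ v : V₁, (v : V) ∉ V₀ →
      ((∑ e ∈ s, if L₁.ini e = v then b e else 0) - (∑ e ∈ s, if L₁.lab e = v then b e else 0)) +
        ((∑ e ∈ s, if L₁.lab e = v then trEnd (L₁.gen (L₁.ini e)) (a e) else 0) -
          (∑ e ∈ s, if L₁.ter e = v then trEnd (L₁.gen (L₁.lab e)) (a e) else 0)) = 0 := by
    intro v hv
    funext g
    simp only [Pi.add_apply, Pi.sub_apply, Finset.sum_apply, Pi.zero_apply]
    rw [← Finset.sum_sub_distrib, ← Finset.sum_sub_distrib, ← Finset.sum_add_distrib]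
    by_cases hg : dg L₁ g = n + 1
    · have h1 := bdry_apply' L₁ c s hs1 v g
      rw [hb, Finsupp.coe_zero, Pi.zero_apply] at h1
      rw [h1]
      refine Finset.sum_congr rfl fun e _ => ?_
      by_cases he : (e : E) ∈ E₀
      · have k1 : L₁.ini e ≠ v := fun h => hv (by rw [← h, i1]; exact (hc _ he).1)
        have k2 : L₁.lab e ≠ v := fun h => hv (by rw [← h, i3]; exact (hc _ he).2.2)
        have k3 : L₁.ter e ≠ v := fun h => hv (by rw [← h, i2]; exact (hc _ he).2.1)
        simp [k1, k2, k3]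
      · have k3 : b e g = c (e, g) := if_pos ⟨he, hg⟩
        have k1 : a e (g * (L₁.gen (L₁.ini e))⁻¹) = c (e, g * (L₁.gen (L₁.ini e))⁻¹) :=
          if_pos ⟨he, by rw [dg_mul, dg_inv, dg_gen]; omega⟩
        have k2 : a e (g * (L₁.gen (L₁.lab e))⁻¹) = c (e, g * (L₁.gen (L₁.lab e))⁻¹) :=
          if_pos ⟨he, by rw [dg_mul, dg_inv, dg_gen]; omega⟩
        have m1 : (if L₁.ini e = v then b e else 0) g = if L₁.ini e = v then c (e, g) else 0 := by
          split_ifs
          · exact k3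
          · rfl
        have m2 : (if L₁.lab e = v then b e else 0) g = if L₁.lab e = v then c (e, g) else 0 := by
          split_ifs
          · exact k3
          · rfl
        have m3 : (if L₁.lab e = v then trEnd (L₁.gen (L₁.ini e)) (a e) else 0) g =
            if L₁.lab e = v then c (e, g * (L₁.gen (L₁.ini e))⁻¹) else 0 := by
          split_ifs
          · exact k1
          · rfl
        have m4 : (if L₁.ter e = v then trEnd (L₁.gen (L₁.lab e)) (a e) else 0) g =
            if L₁.ter e = v then c (e, g * (L₁.gen (L₁.lab e))⁻¹) else 0 := by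
          split_ifs
          · exact k2
          · rfl
        rw [m1, m2, m3, m4]
    · refine Finset.sum_eq_zero fun e _ => ?_
      have k3 : b e g = 0 := if_neg fun h => hg h.2
      have k1 : a e (g * (L₁.gen (L₁.ini e))⁻¹) = 0 :=
          if_neg fun h => hg (by have := h.2; rw [dg_mul, dg_inv, dg_gen] at this; omega)
      have k2 : a e (g * (L₁.gen (L₁.lab e))⁻¹) = 0 :=
          if_neg fun h => hg (by have := h.2; rw [dg_mul, dg_inv, dg_gen] at this; omega)
      have m1 : (if L₁.ini e = v then b e else 0) g = 0 := by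
        split_ifs
        · exact k3
        · rfl
      have m2 : (if L₁.lab e = v then b e else 0) g = 0 := by
        split_ifs
        · exact k3
        · rfl
      have m3 : (if L₁.lab e = v then trEnd (L₁.gen (L₁.ini e)) (a e) else 0) g = 0 := by
        split_ifs
        · exact k1
        · rfl
      have m4 : (if L₁.ter e = v then trEnd (L₁.gen (L₁.lab e)) (a e) else 0) g = 0 := by
        split_ifs
        · exact k2
        · rfl
      rw [m1, m2, m3, m4]
      ring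
  -- the units
  let x : V → ((Module.End ℤ (L₁.G → ℤ))ᵐᵒᵖ)ˣ := fun v =>
    if hv : v ∈ V₁ then trUnit (L₁.gen ⟨v, hv⟩) else 1
  have hx : ∀ (v : V₁) (a : L₁.G → ℤ), (x v : (Module.End ℤ (L₁.G → ℤ))ᵐᵒᵖ).unop a =
      trEnd (L₁.gen v) a := by
    intro v a
    simp only [x]
    rw [dif_pos v.2]
    rfl
  obtain ⟨θ, φ, t0, f0, hθφ0⟩ := solve hc hz x
    (fun e => if e = (e0 : E) then (1 : (Module.End ℤ (L₁.G → ℤ))ᵐᵒᵖ) else 0)
  have hθφ : ∀ e : E₁, (e : E) ∉ E₀ → θ (L₁.ini e) = θ (L₁.lab e) ∧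
      φ (L₁.ini e) - φ (L₁.lab e) + (x (L₁.ini e) * θ (L₁.lab e) - x (L₁.lab e) * θ (L₁.ter e)) =
        if (e : E) = (e0 : E) then (1 : (Module.End ℤ (L₁.G → ℤ))ᵐᵒᵖ) else 0 := by
    intro e he
    rw [i1, i2, i3]
    exact hθφ0 e he
  set W : Finset V₁ := (s.image L₁.ini ∪ s.image L₁.lab) ∪ s.image L₁.ter with hW
  have w1 : ∀ e ∈ s, L₁.ini e ∈ W := fun e he => Finset.mem_union_left _
    (Finset.mem_union_left _ (Finset.mem_image_of_mem _ he))
  have w2 : ∀ e ∈ s, L₁.lab e ∈ W := fun e he => Finset.mem_union_left _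
    (Finset.mem_union_right _ (Finset.mem_image_of_mem _ he))
  have w3 : ∀ e ∈ s, L₁.ter e ∈ W := fun e he => Finset.mem_union_right _
    (Finset.mem_image_of_mem _ he)
  let Φ : V₁ → Module.End ℤ (L₁.G → ℤ) := fun v => (φ v).unop
  let Θ : V₁ → Module.End ℤ (L₁.G → ℤ) := fun v => (θ v).unop
  have p0 : ∑ e ∈ s, (Φ (L₁.ini e) (a e) - Φ (L₁.lab e) (a e)) = 0 := by
    rw [Finset.sum_sub_distrib, sum_swap s W _ w1 Φ a, sum_swap s W _ w2 Φ a,
      ← Finset.sum_sub_distrib]
    refine Finset.sum_eq_zero fun v _ => ?_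
    rw [← map_sub]
    by_cases hv : (v : V) ∈ V₀
    · have : Φ v = 0 := by
        simp only [Φ]
        rw [f0 v hv]; rfl
      rw [this]; rfl
    · rw [eq0 v hv, map_zero]
  have p1 : ∑ e ∈ s, ((Θ (L₁.ini e) (b e) - Θ (L₁.lab e) (b e)) +
      (Θ (L₁.lab e) (trEnd (L₁.gen (L₁.ini e)) (a e)) -
        Θ (L₁.ter e) (trEnd (L₁.gen (L₁.lab e)) (a e)))) = 0 := by
    rw [Finset.sum_add_distrib, Finset.sum_sub_distrib, Finset.sum_sub_distrib,
      sum_swap s W _ w1 Θ b, sum_swap s W _ w2 Θ b,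
      sum_swap s W _ w2 Θ (fun e => trEnd (L₁.gen (L₁.ini e)) (a e)),
      sum_swap s W _ w3 Θ (fun e => trEnd (L₁.gen (L₁.lab e)) (a e)),
      ← Finset.sum_sub_distrib, ← Finset.sum_sub_distrib, ← Finset.sum_add_distrib]
    refine Finset.sum_eq_zero fun v _ => ?_
    rw [← map_sub, ← map_sub, ← map_add]
    by_cases hv : (v : V) ∈ V₀
    · have : Θ v = 0 := by
        simp only [Θ]
        rw [t0 v hv]; rfl
      rw [this]; rfl
    · rw [eq1 v hv, map_zero]
  have p2 : ∑ e ∈ s, ((Φ (L₁.ini e) (a e) - Φ (L₁.lab e) (a e)) +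
      (Θ (L₁.lab e) (trEnd (L₁.gen (L₁.ini e)) (a e)) -
        Θ (L₁.ter e) (trEnd (L₁.gen (L₁.lab e)) (a e)))) = a e0 := by
    rw [Finset.sum_eq_single e0]
    · have h3 := (hθφ e0 hd2).2
      rw [if_pos rfl] at h3
      have h4 := congrArg (fun r : (Module.End ℤ (L₁.G → ℤ))ᵐᵒᵖ => r.unop (a e0)) h3
      have h5 : (x (L₁.ini e0) : (Module.End ℤ (L₁.G → ℤ))ᵐᵒᵖ).unop (a e0) =
          trEnd (L₁.gen (L₁.ini e0)) (a e0) := hx (L₁.ini e0) (a e0)
      have h6 : (x (L₁.lab e0) : (Module.End ℤ (L₁.G → ℤ))ᵐᵒᵖ).unop (a e0) =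
          trEnd (L₁.gen (L₁.lab e0)) (a e0) := hx (L₁.lab e0) (a e0)
      have h7 : Φ (L₁.ini e0) (a e0) - Φ (L₁.lab e0) (a e0) +
          (Θ (L₁.lab e0) ((x (L₁.ini e0) : (Module.End ℤ (L₁.G → ℤ))ᵐᵒᵖ).unop (a e0)) -
          Θ (L₁.ter e0) ((x (L₁.lab e0) : (Module.End ℤ (L₁.G → ℤ))ᵐᵒᵖ).unop (a e0))) =
          a e0 := h4
      rw [h5, h6] at h7
      exact h7
    · intro e _ hne
      by_cases he : (e : E) ∈ E₀
      · have k1 : a e = 0 := by
          funext g
          exact if_neg fun h => h.1 he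
        rw [k1]
        simp only [map_zero, sub_zero, add_zero]
      · have h3 := (hθφ e he).2
        rw [if_neg (fun h => hne (Subtype.ext h))] at h3
        have h4 := congrArg (fun r : (Module.End ℤ (L₁.G → ℤ))ᵐᵒᵖ => r.unop (a e)) h3
        have h5 : (x (L₁.ini e) : (Module.End ℤ (L₁.G → ℤ))ᵐᵒᵖ).unop (a e) =
            trEnd (L₁.gen (L₁.ini e)) (a e) := hx (L₁.ini e) (a e)
        have h6 : (x (L₁.lab e) : (Module.End ℤ (L₁.G → ℤ))ᵐᵒᵖ).unop (a e) =
            trEnd (L₁.gen (L₁.lab e)) (a e) := hx (L₁.lab e) (a e)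
        have h7 : Φ (L₁.ini e) (a e) - Φ (L₁.lab e) (a e) +
            (Θ (L₁.lab e) ((x (L₁.ini e) : (Module.End ℤ (L₁.G → ℤ))ᵐᵒᵖ).unop (a e)) -
            Θ (L₁.ter e) ((x (L₁.lab e) : (Module.End ℤ (L₁.G → ℤ))ᵐᵒᵖ).unop (a e))) =
            0 := h4
        rw [h5, h6] at h7
        exact h7
    · intro h
      exact (h (hs1 _ hd1)).elim
  have p3 : ∑ e ∈ s, (Θ (L₁.lab e) (trEnd (L₁.gen (L₁.ini e)) (a e)) -
        Θ (L₁.ter e) (trEnd (L₁.gen (L₁.lab e)) (a e))) = 0 := by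
    rw [← p1]
    refine Finset.sum_congr rfl fun e _ => ?_
    have : Θ (L₁.ini e) (b e) - Θ (L₁.lab e) (b e) = 0 := by
      by_cases he : (e : E) ∈ E₀
      · have k1 : b e = 0 := by
          funext g
          exact if_neg fun h => h.1 he
        rw [k1, map_zero, map_zero, sub_zero]
      · have h3 : Θ (L₁.ini e) = Θ (L₁.lab e) := congrArg MulOpposite.unop (hθφ e he).1
        rw [h3, sub_self]
    rw [this, zero_add]
  rw [Finset.sum_add_distrib, p0, p3, add_zero] at p2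
  have h8 : a e0 h0 = 0 := by rw [← p2]; rfl
  have h9 : a e0 h0 = c (e0, h0) := if_pos ⟨hd2, rfl⟩
  exact (Finsupp.mem_support_iff.1 hd1) (by rw [← h9, h8])

theorem supp_base {L : LOG V E} {V₀ : Set V} {E₀ : Set E} (hc : Closed L V₀ E₀)
    (hz : Zips L V₀ E₀) {V₁ : Set V} {E₁ : Set E} (h₁ : Closed L V₁ E₁)
    (c : (E₁ × (sub L V₁ E₁ h₁).G) →₀ ℤ) (hb : (sub L V₁ E₁ h₁).bdry c = 0) :
    ∀ d ∈ c.support, (d.1 : E) ∈ E₀ :=
  supp_base_aux hc hz (sub L V₁ E₁ h₁) (fun _ => rfl) (fun _ => rfl) (fun _ => rfl) c hb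

end Pool.Agent.Q179.ZP
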