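import Pool.Agent.Q179.ZP.Simple

/-!
# The opposite orientation
-/

set_option autoImplicit false

namespace Pool.Agent.Q179.ZP

open Pool.Agent.TH625.LOG

variable {V E : Type}

/-- All edges are reversed. -/
def rev (L : LOG V E) : LOG V E where
  ini := L.ter
  ter := L.ini
  lab := L.lab

/-- The isomorphism of the groups, which maps the generators to the inverses of the generators. -/
def revHom (L : LOG V E) : L.G →* (rev L).G :=
  homG L (fun v => ((rev L).gen v)⁻¹) fun e => by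
    have h : (rev L).gen (L.ter e) * (rev L).gen (L.lab e) =
      (rev L).gen (L.lab e) * (rev L).gen (L.ini e) := rel_gen (rev L) e
    have h2 := congrArg (fun x => x⁻¹) h
    simp only [mul_inv_rev] at h2
    exact h2.symm

theorem revHom_gen (L : LOG V E) (v : V) : revHom L (L.gen v) = ((rev L).gen v)⁻¹ :=
  homG_gen L _ _ v

theorem revHom_revHom (L : LOG V E) (g : L.G) : revHom (rev L) (revHom L g) = g := by
  have h : (revHom (rev L)).comp (revHom L) = MonoidHom.id L.G := by
    refine hom_extG L fun v => ?_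
    rw [MonoidHom.comp_apply, revHom_gen, map_inv, revHom_gen, inv_inv]
    rfl
  exact DFunLike.congr_fun h g

theorem revHom_inj (L : LOG V E) : Function.Injective (revHom L) := fun a b h => by
  rw [← revHom_revHom L a, h, revHom_revHom]

theorem locInd_rev (L : LOG V E) (h : LocInd (rev L).G) : LocInd L.G :=
  locInd_of_inj h (revHom L) (revHom_inj L)

theorem asph_rev (L : LOG V E) (ha : Asph (rev L)) : Asph L := by
  classical
  intro c hc
  let F : E × L.G → E × (rev L).G := fun d =>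
    (d.1, revHom L (d.2 * L.gen (L.ini d.1) * L.gen (L.lab d.1)))
  let F' : V × L.G → V × (rev L).G := fun d => (d.1, revHom L (d.2 * L.gen d.1))
  have hF : Function.Injective F := by
    rintro ⟨e, g⟩ ⟨e', g'⟩ h
    obtain rfl : e = e' := congrArg Prod.fst h
    have h2 := revHom_inj L (congrArg Prod.snd h)
    have h3 : g = g' := mul_right_cancel (mul_right_cancel h2)
    rw [h3]
  have s0 : ∀ d : E × L.G, (rev L).side (F d) 3 = F' (L.side d 0) := by
    rintro ⟨e, g⟩
    refine Prod.ext rfl ?_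
    show revHom L (g * L.gen (L.ini e) * L.gen (L.lab e)) * (rev L).gen (L.lab e) =
      revHom L (g * 1 * L.gen (L.ini e))
    rw [map_mul, revHom_gen, inv_mul_cancel_right, mul_one]
  have s1 : ∀ d : E × L.G, (rev L).side (F d) 2 = F' (L.side d 1) := by
    rintro ⟨e, g⟩
    refine Prod.ext rfl ?_
    show revHom L (g * L.gen (L.ini e) * L.gen (L.lab e)) * 1 =
      revHom L (g * L.gen (L.ini e) * L.gen (L.lab e))
    rw [mul_one]
  have s2 : ∀ d : E × L.G, (rev L).side (F d) 1 = F' (L.side d 2) := by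
    rintro ⟨e, g⟩
    refine Prod.ext rfl ?_
    show revHom L (g * L.gen (L.ini e) * L.gen (L.lab e)) * (rev L).gen (L.ter e) =
      revHom L (g * 1 * L.gen (L.lab e))
    rw [mul_assoc g, rel_gen L e, ← mul_assoc, map_mul, revHom_gen, inv_mul_cancel_right, mul_one]
  have s3 : ∀ d : E × L.G, (rev L).side (F d) 0 = F' (L.side d 3) := by
    rintro ⟨e, g⟩
    refine Prod.ext rfl ?_
    show revHom L (g * L.gen (L.ini e) * L.gen (L.lab e)) * 1 =
      revHom L (g * L.gen (L.lab e) * L.gen (L.ter e))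
    rw [mul_assoc g, rel_gen L e, ← mul_assoc, mul_one]
  have hb : (rev L).bdry (c.mapDomain F) = -(L.bdry c).mapDomain F' := by
    unfold LOG.bdry
    rw [Finsupp.sum_mapDomain_index]
    · unfold Finsupp.sum
      rw [Finsupp.mapDomain_finsetSum, ← Finset.sum_neg_distrib]
      refine Finset.sum_congr rfl fun d _ => ?_
      rw [Finsupp.mapDomain_finsetSum]
      simp only [Fin.sum_univ_four, Finsupp.mapDomain_single, s0, s1, s2, s3, sgn]
      simp only [Matrix.cons_val, one_mul, neg_mul, Finsupp.single_neg]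
      abel
    · intro d
      refine Finset.sum_eq_zero fun k _ => ?_
      rw [mul_zero, Finsupp.single_zero]
    · intro d a b
      rw [← Finset.sum_add_distrib]
      refine Finset.sum_congr rfl fun k _ => ?_
      rw [mul_add, Finsupp.single_add]
  rw [hc, Finsupp.mapDomain_zero, neg_zero] at hb
  have h1 := ha _ hb
  exact Finsupp.mapDomain_injective hF (h1.trans Finsupp.mapDomain_zero.symm)

variable {L : LOG V E} {V₀ V₁ : Set V} {E₀ E₁ : Set E}

theorem closed_rev (h : Closed L V₁ E₁) : Closed (rev L) V₁ E₁ := fun e he =>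
  ⟨(h e he).2.1, (h e he).1, (h e he).2.2⟩

theorem incG_rev (h₀ : Closed L V₀ E₀) (h₁ : Closed L V₁ E₁) (hV : V₀ ⊆ V₁) (hE : E₀ ⊆ E₁)
    (g : (sub L V₀ E₀ h₀).G) :
    revHom (sub L V₁ E₁ h₁) (incG h₀ h₁ hV hE g) =
      incG (closed_rev h₀) (closed_rev h₁) hV hE (revHom (sub L V₀ E₀ h₀) g) := by
  have h : (revHom (sub L V₁ E₁ h₁)).comp (incG h₀ h₁ hV hE) =
      (incG (closed_rev h₀) (closed_rev h₁) hV hE).comp (revHom (sub L V₀ E₀ h₀)) := by
    refine hom_extG _ fun v => ?_
    rw [MonoidHom.comp_apply, incG_gen, revHom_gen]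
    refine Eq.trans ?_ (congrArg (incG (closed_rev h₀) (closed_rev h₁) hV hE)
      (revHom_gen (sub L V₀ E₀ h₀) v)).symm
    exact ((map_inv (incG (closed_rev h₀) (closed_rev h₁) hV hE)
      ((sub (rev L) V₀ E₀ (closed_rev h₀)).gen v)).trans (congrArg (fun x => x⁻¹)
        (incG_gen (closed_rev h₀) (closed_rev h₁) hV hE v))).symm
  exact DFunLike.congr_fun h g

theorem incG_inj_rev (h₀ : Closed L V₀ E₀) (h₁ : Closed L V₁ E₁) (hV : V₀ ⊆ V₁) (hE : E₀ ⊆ E₁)
    (h : Function.Injective (incG (closed_rev h₀) (closed_rev h₁) hV hE)) :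
    Function.Injective (incG h₀ h₁ hV hE) := by
  intro a b hab
  apply revHom_inj (sub L V₀ E₀ h₀)
  apply h
  rw [← incG_rev, ← incG_rev, hab]

/-- `L` or the opposite labelled oriented graph arises from `(V₀, E₀)` by the zipping process. -/
def Zippable (L : LOG V E) (V₀ : Set V) (E₀ : Set E) : Prop :=
  ZipsFrom L V₀ E₀ ∨ ZipsFrom (rev L) V₀ E₀

theorem asph_final (h₀ : Closed L V₀ E₀) (hz : Zippable L V₀ E₀) (hne : V₀.Nonempty)
    (h₁ : Closed L V₁ E₁) (hV : V₀ ⊆ V₁) (hE : E₀ ⊆ E₁) :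
    Function.Injective (incG h₀ h₁ hV hE) ∧
      (Asph (sub L V₁ E₁ h₁) ↔ Asph (sub L V₀ E₀ h₀)) := by
  rcases hz with hz | hz
  · exact asph_iff' h₀ hz hne h₁ hV hE
  · obtain ⟨h2, h3⟩ := asph_iff' (closed_rev h₀) hz hne (closed_rev h₁) hV hE
    exact ⟨incG_inj_rev h₀ h₁ hV hE h2,
      fun h => asph_rev _ (h3.1 (asph_rev (rev (sub L V₁ E₁ h₁)) h)),
      fun h => asph_rev _ (h3.2 (asph_rev (rev (sub L V₀ E₀ h₀)) h))⟩

theorem asph_final_all (o : V) (hz : Zippable L {o} ∅) (h₁ : Closed L V₁ E₁) :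
    Asph (sub L V₁ E₁ h₁) := by
  rcases hz with hz | hz
  · exact asph_all' o hz h₁
  · exact asph_rev _ (asph_all' (L := rev L) o hz (closed_rev h₁))

theorem locInd_final (h₀ : Closed L V₀ E₀) (hz : Zippable L V₀ E₀) (hne : V₀.Nonempty)
    (h₁ : Closed L V₁ E₁) (hV : V₀ ⊆ V₁) (hE : E₀ ⊆ E₁) :
    LocInd (sub L V₁ E₁ h₁).G ↔ LocInd (sub L V₀ E₀ h₀).G := by
  rcases hz with hz | hz
  · exact locInd_iff' h₀ hz hne h₁ hV hE
  · have h3 := locInd_iff' (closed_rev h₀) hz hne (closed_rev h₁) hV hE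
    exact ⟨fun h => locInd_rev _ (h3.1 (locInd_rev (rev (sub L V₁ E₁ h₁)) h)),
      fun h => locInd_rev _ (h3.2 (locInd_rev (rev (sub L V₀ E₀ h₀)) h))⟩

theorem locInd_final_all (o : V) (hz : Zippable L {o} ∅) (h₁ : Closed L V₁ E₁) :
    LocInd (sub L V₁ E₁ h₁).G := by
  rcases hz with hz | hz
  · exact locInd_all' o hz h₁
  · exact locInd_rev _ (locInd_all' (L := rev L) o hz (closed_rev h₁))

end Pool.Agent.Q179.ZP
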