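import Pool.Agent.Q179.ZP.Defs

/-!
# Linear equations along a zipping process
-/

set_option autoImplicit false

namespace Pool.Agent.Q179.ZP

open Pool.Agent.TH625.LOG

variable {V E : Type} {R : Type} [Ring R]

/-- The value prescribed for the difference at the edge `g`. -/
def rho (L : LOG V E) (x : V → Rˣ) (d : E → R) (θ : V → R) (g : E) : R :=
  d g - x (L.ini g) * θ (L.lab g) + x (L.lab g) * θ (L.ter g)

/-- `φ` vanishes on `V₀` and has the prescribed differences at the known edges. -/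
def Adm (L : LOG V E) (V₀ : Set V) (x : V → Rˣ) (d : E → R) (A : Set E) (U : Set V) (θ φ : V → R) :
    Prop :=
  (∀ v ∈ V₀, φ v = 0) ∧ ∀ g ∈ A, L.ter g ∈ U → φ (L.ini g) - φ (L.lab g) = rho L x d θ g

theorem join_q {L : LOG V E} {V₀ : Set V} {x : V → Rˣ} {d : E → R} {A : Set E} {U : Set V}
    {θ : V → R} {u w : V} (h : Joined L V₀ A U u w) :
    ∃ q : R, ∀ φ : V → R, Adm L V₀ x d A U θ φ → φ w = φ u + q := by
  induction h with
  | rel u w h =>
    rcases h with ⟨h1, h2⟩ | ⟨g, hg, hg1, rfl, rfl⟩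
    · exact ⟨0, fun φ hφ => by rw [hφ.1 _ h1, hφ.1 _ h2, add_zero]⟩
    · exact ⟨-rho L x d θ g, fun φ hφ => by rw [← hφ.2 g hg hg1]; abel⟩
  | refl u => exact ⟨0, fun φ _ => (add_zero _).symm⟩
  | symm u w _ ih =>
    obtain ⟨q, hq⟩ := ih
    exact ⟨-q, fun φ hφ => by rw [hq φ hφ]; abel⟩
  | trans u v w _ _ ih1 ih2 =>
    obtain ⟨q1, h1⟩ := ih1
    obtain ⟨q2, h2⟩ := ih2
    exact ⟨q1 + q2, fun φ hφ => by rw [h2 φ hφ, h1 φ hφ, add_assoc]⟩

theorem join_theta {L : LOG V E} {V₀ : Set V} {A : Set E} {U : Set V}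
    {θ : V → R} (h0 : ∀ v ∈ V₀, θ v = 0) (h1 : ∀ g ∈ A, θ (L.ini g) = θ (L.lab g)) {u w : V}
    (h : Joined L V₀ A U u w) : θ u = θ w := by
  induction h with
  | rel u w h =>
    rcases h with ⟨h2, h3⟩ | ⟨g, hg, _, rfl, rfl⟩
    · rw [h0 _ h2, h0 _ h3]
    · exact h1 g hg
  | refl u => rfl
  | symm u w _ ih => exact ih.symm
  | trans u v w _ _ ih1 ih2 => exact ih1.trans ih2

theorem rho_congr {L : LOG V E} {x : V → Rˣ} {d : E → R} {θ θ' : V → R} {g : E}
    (h1 : θ' (L.lab g) = θ (L.lab g)) (h2 : θ' (L.ter g) = θ (L.ter g)) :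
    rho L x d θ' g = rho L x d θ g := by
  unfold rho
  rw [h1, h2]

/-- What is constructed along the process. -/
def Good (L : LOG V E) (V₀ : Set V) (E₀ : Set E) (x : V → Rˣ) (d : E → R) (S A : Set E) (U : Set V)
    (θ : V → R) : Prop :=
  (∀ v ∈ V₀, θ v = 0) ∧ (∀ g ∈ A, θ (L.ini g) = θ (L.lab g)) ∧
    ∀ e ∈ S, e ∉ E₀ → e ∉ A → θ (L.ini e) = θ (L.lab e) ∧
      ∀ φ : V → R, Adm L V₀ x d A U θ φ → φ (L.ini e) - φ (L.lab e) = rho L x d θ e

theorem exists_good {L : LOG V E} {V₀ : Set V} {E₀ : Set E} (hc : Closed L V₀ E₀) (x : V → Rˣ)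
    (d : E → R) {S A : Set E} {U : Set V} (h : Zip L V₀ E₀ S A U) :
    ∃ θ : V → R, Good L V₀ E₀ x d S A U θ := by
  classical
  induction h with
  | start => exact ⟨0, fun _ _ => rfl, fun _ h => h.elim, fun e he h1 => (h1 he).elim⟩
  | @ini S A U e hz h1 h2 ih =>
    obtain ⟨θ, g0, g1, g2⟩ := ih
    have hne : ∀ v ∈ U, Function.update θ (L.ini e) (θ (L.lab e)) v = θ v := fun v hv =>
      Function.update_of_ne (by rintro rfl; exact h2 hv) _ _
    refine ⟨Function.update θ (L.ini e) (θ (L.lab e)), ?_, ?_, ?_⟩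
    · intro v hv
      rw [hne v (hz.base_sub.1 hv), g0 v hv]
    · rintro g (rfl | hg)
      · rw [Function.update_self, hne _ h1]
      · have hg' := hz.ends hc g (hz.base_sub.2.2 hg)
        rw [hne _ hg'.1, hne _ hg'.2, g1 g hg]
    · rintro g (rfl | hg) hg1 hg2
      · exact (hg2 (Set.mem_insert _ _)).elim
      · have hgA : g ∉ A := fun h => hg2 (Set.mem_insert_of_mem _ h)
        have hg' := hz.ends hc g hg
        have ht := hz.ter_mem g hg hg1 hgA
        obtain ⟨g3, g4⟩ := g2 g hg hg1 hgA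
        refine ⟨by rw [hne _ hg'.1, hne _ hg'.2, g3], ?_⟩
        rintro φ ⟨f1, f2⟩
        rw [rho_congr (hne _ hg'.2) (hne _ ht)]
        refine g4 φ ⟨f1, fun k hk hk1 => ?_⟩
        rw [f2 k (Set.mem_insert_of_mem _ hk) (Set.mem_insert_of_mem _ hk1),
          rho_congr (hne _ (hz.ends hc k (hz.base_sub.2.2 hk)).2) (hne _ hk1)]
  | @lab S A U e hz h1 h2 ih =>
    obtain ⟨θ, g0, g1, g2⟩ := ih
    have hne : ∀ v ∈ U, Function.update θ (L.lab e) (θ (L.ini e)) v = θ v := fun v hv =>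
      Function.update_of_ne (by rintro rfl; exact h2 hv) _ _
    refine ⟨Function.update θ (L.lab e) (θ (L.ini e)), ?_, ?_, ?_⟩
    · intro v hv
      rw [hne v (hz.base_sub.1 hv), g0 v hv]
    · rintro g (rfl | hg)
      · rw [Function.update_self, hne _ h1]
      · have hg' := hz.ends hc g (hz.base_sub.2.2 hg)
        rw [hne _ hg'.1, hne _ hg'.2, g1 g hg]
    · rintro g (rfl | hg) hg1 hg2
      · exact (hg2 (Set.mem_insert _ _)).elim
      · have hgA : g ∉ A := fun h => hg2 (Set.mem_insert_of_mem _ h)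
        have hg' := hz.ends hc g hg
        have ht := hz.ter_mem g hg hg1 hgA
        obtain ⟨g3, g4⟩ := g2 g hg hg1 hgA
        refine ⟨by rw [hne _ hg'.1, hne _ hg'.2, g3], ?_⟩
        rintro φ ⟨f1, f2⟩
        rw [rho_congr (hne _ hg'.2) (hne _ ht)]
        refine g4 φ ⟨f1, fun k hk hk1 => ?_⟩
        rw [f2 k (Set.mem_insert_of_mem _ hk) (Set.mem_insert_of_mem _ hk1),
          rho_congr (hne _ (hz.ends hc k (hz.base_sub.2.2 hk)).2) (hne _ hk1)]
  | @close S A U e f hz he h1 h2 h3 h4 ih =>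
    obtain ⟨θ, g0, g1, g2⟩ := ih
    -- it is enough to find the value of `rho` at `f`
    suffices key : ∃ r : R, θ (L.ini e) = θ (L.lab e) ∧ ∀ θ' : V → R, (∀ v ∈ U, θ' v = θ v) →
        rho L x d θ' f = r → (f ∈ A ∨ f = e) → ∀ φ : V → R,
          Adm L V₀ x d A (insert (L.ter f) U) θ' φ → φ (L.ini e) - φ (L.lab e) = rho L x d θ' e by
      obtain ⟨r, key1, key2⟩ := key
      have hfA : f ∈ A ∨ f = e := by
        rcases h4 with ⟨h, _⟩ | ⟨h, _⟩
        · exact Or.inr h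
        · exact Or.inl h
      have hlf : L.lab f ∈ U := by
        rcases hfA with h | rfl
        · exact (hz.ends hc f (hz.base_sub.2.2 h)).2
        · exact h2
      set val : R := ((x (L.lab f))⁻¹ : Rˣ) * (r - d f + x (L.ini f) * θ (L.lab f)) with hval
      have hne : ∀ v ∈ U, Function.update θ (L.ter f) val v = θ v := fun v hv =>
        Function.update_of_ne (by rintro rfl; exact h3 hv) _ _
      have hr : rho L x d (Function.update θ (L.ter f) val) f = r := by
        unfold rho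
        rw [hne _ hlf, Function.update_self, hval, Units.mul_inv_cancel_left]
        abel
      refine ⟨Function.update θ (L.ter f) val, ?_, ?_, ?_⟩
      · intro v hv
        rw [hne v (hz.base_sub.1 hv), g0 v hv]
      · intro g hg
        have hg' := hz.ends hc g (hz.base_sub.2.2 hg)
        rw [hne _ hg'.1, hne _ hg'.2, g1 g hg]
      · rintro g (rfl | hg) hg1 hg2
        · exact ⟨by rw [hne _ h1, hne _ h2, key1], key2 _ hne hr hfA⟩
        · have hg' := hz.ends hc g hg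
          have ht := hz.ter_mem g hg hg1 hg2
          obtain ⟨g3, g4⟩ := g2 g hg hg1 hg2
          refine ⟨by rw [hne _ hg'.1, hne _ hg'.2, g3], ?_⟩
          rintro φ ⟨f1, f2⟩
          rw [rho_congr (hne _ hg'.2) (hne _ ht)]
          refine g4 φ ⟨f1, fun k hk hk1 => ?_⟩
          rw [f2 k hk (Set.mem_insert_of_mem _ hk1),
            rho_congr (hne _ (hz.ends hc k (hz.base_sub.2.2 hk)).2) (hne _ hk1)]
    -- admissible functions for the new set are admissible for the old one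
    have adm : ∀ θ' : V → R, (∀ v ∈ U, θ' v = θ v) → ∀ φ : V → R,
        Adm L V₀ x d A (insert (L.ter f) U) θ' φ → Adm L V₀ x d A U θ φ := by
      rintro θ' hθ φ ⟨f1, f2⟩
      refine ⟨f1, fun k hk hk1 => ?_⟩
      rw [f2 k hk (Set.mem_insert_of_mem _ hk1),
        rho_congr (hθ _ (hz.ends hc k (hz.base_sub.2.2 hk)).2) (hθ _ hk1)]
    rcases h4 with ⟨rfl, hj⟩ | ⟨hf, hte, hj⟩
    · obtain ⟨q, hq⟩ := join_q (x := x) (d := d) (θ := θ) hj
      refine ⟨-q, join_theta g0 g1 hj, ?_⟩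
      intro θ' hθ hr _ φ hφ
      rw [hr, hq φ (adm θ' hθ φ hφ)]
      abel
    · rcases hj with ⟨hj1, hj2⟩ | ⟨hj1, hj2⟩
      · obtain ⟨q1, hq1⟩ := join_q (x := x) (d := d) (θ := θ) hj1
        obtain ⟨q2, hq2⟩ := join_q (x := x) (d := d) (θ := θ) hj2
        refine ⟨rho L x d θ e + q2 - q1, ?_, ?_⟩
        · rw [← join_theta g0 g1 hj1, ← join_theta g0 g1 hj2, g1 f hf]
        intro θ' hθ hr _ φ hφ
        have h5 := hφ.2 f hf (Set.mem_insert _ _)
        have h6 := adm θ' hθ φ hφ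
        rw [hr] at h5
        rw [rho_congr (hθ _ h2) (hθ _ hte), hq1 φ h6, hq2 φ h6]
        have : φ (L.ini f) = φ (L.lab f) + (rho L x d θ e + q2 - q1) := by
          rw [← h5]; abel
        rw [this]; abel
      · obtain ⟨q1, hq1⟩ := join_q (x := x) (d := d) (θ := θ) hj1
        obtain ⟨q2, hq2⟩ := join_q (x := x) (d := d) (θ := θ) hj2
        refine ⟨-rho L x d θ e + q2 - q1, ?_, ?_⟩
        · rw [← join_theta g0 g1 hj1, ← join_theta g0 g1 hj2, g1 f hf]
        intro θ' hθ hr _ φ hφ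
        have h5 := hφ.2 f hf (Set.mem_insert _ _)
        have h6 := adm θ' hθ φ hφ
        rw [hr] at h5
        rw [rho_congr (hθ _ h2) (hθ _ hte), hq1 φ h6, hq2 φ h6]
        have : φ (L.ini f) = φ (L.lab f) + (-rho L x d θ e + q2 - q1) := by
          rw [← h5]; abel
        rw [this]; abel

/-- functions with prescribed differences at the edges of `A` -/
theorem exists_phi {L : LOG V E} {V₀ : Set V} {E₀ : Set E} (hc : Closed L V₀ E₀) (r : E → R)
    {S A : Set E} {U : Set V} (h : Zip L V₀ E₀ S A U) :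
    ∃ φ : V → R, (∀ v ∈ V₀, φ v = 0) ∧ ∀ g ∈ A, φ (L.ini g) - φ (L.lab g) = r g := by
  classical
  induction h with
  | start => exact ⟨0, fun _ _ => rfl, fun _ h => h.elim⟩
  | @ini S A U e hz h1 h2 ih =>
    obtain ⟨φ, g0, g1⟩ := ih
    have hne : ∀ v ∈ U, Function.update φ (L.ini e) (φ (L.lab e) + r e) v = φ v := fun v hv =>
      Function.update_of_ne (by rintro rfl; exact h2 hv) _ _
    refine ⟨Function.update φ (L.ini e) (φ (L.lab e) + r e), ?_, ?_⟩
    · intro v hv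
      rw [hne v (hz.base_sub.1 hv), g0 v hv]
    · rintro g (rfl | hg)
      · rw [Function.update_self, hne _ h1]; abel
      · have hg' := hz.ends hc g (hz.base_sub.2.2 hg)
        rw [hne _ hg'.1, hne _ hg'.2, g1 g hg]
  | @lab S A U e hz h1 h2 ih =>
    obtain ⟨φ, g0, g1⟩ := ih
    have hne : ∀ v ∈ U, Function.update φ (L.lab e) (φ (L.ini e) - r e) v = φ v := fun v hv =>
      Function.update_of_ne (by rintro rfl; exact h2 hv) _ _
    refine ⟨Function.update φ (L.lab e) (φ (L.ini e) - r e), ?_, ?_⟩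
    · intro v hv
      rw [hne v (hz.base_sub.1 hv), g0 v hv]
    · rintro g (rfl | hg)
      · rw [Function.update_self, hne _ h1]; abel
      · have hg' := hz.ends hc g (hz.base_sub.2.2 hg)
        rw [hne _ hg'.1, hne _ hg'.2, g1 g hg]
  | close e f hz he h1 h2 h3 h4 ih => exact ih

/-- For every right hand side there are `θ` and `φ`, zero on `V₀`, such that for all new edges
`θ_ini = θ_lab` and `φ_ini - φ_lab + x_ini θ_lab - x_lab θ_ter = d`. -/
theorem solve {L : LOG V E} {V₀ : Set V} {E₀ : Set E} (hc : Closed L V₀ E₀) (h : Zips L V₀ E₀)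
    (x : V → Rˣ) (d : E → R) :
    ∃ θ φ : V → R, (∀ v ∈ V₀, θ v = 0) ∧ (∀ v ∈ V₀, φ v = 0) ∧ ∀ e ∉ E₀,
      θ (L.ini e) = θ (L.lab e) ∧
      φ (L.ini e) - φ (L.lab e) + (x (L.ini e) * θ (L.lab e) - x (L.lab e) * θ (L.ter e)) =
        d e := by
  classical
  obtain ⟨A, hz⟩ := h
  obtain ⟨θ, g0, g1, g2⟩ := exists_good hc x d hz
  obtain ⟨φ, f0, f1⟩ := exists_phi hc (rho L x d θ) hz
  refine ⟨θ, φ, g0, f0, ?_⟩
  intro e he
  by_cases hA : e ∈ A
  · refine ⟨g1 e hA, ?_⟩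
    rw [f1 e hA]
    unfold rho
    abel
  · obtain ⟨h1, h2⟩ := g2 e (Set.mem_univ _) he hA
    refine ⟨h1, ?_⟩
    rw [h2 φ ⟨f0, fun g hg _ => f1 g hg⟩]
    unfold rho
    abel

end Pool.Agent.Q179.ZP
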