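import Pool.Agent.Q179.ZP.AsphMain
import Pool.Agent.Q179.ZP.LIMain

/-!
# The zipping process, simplified definition
-/

set_option autoImplicit false

namespace Pool.Agent.Q179.ZP

open Pool.Agent.TH625.LOG

variable {V E : Type}

/-- The equivalence relation generated by: any two vertices of `V₀` are joined, and for an edge `g` in `S` with
`ter g` in `U` the vertices `ini g` and `lab g` are joined. -/
def Linked (L : LOG V E) (V₀ : Set V) (S : Set E) (U : Set V) : V → V → Prop :=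
  Relation.EqvGen fun u w =>
    (u ∈ V₀ ∧ w ∈ V₀) ∨ ∃ g ∈ S, L.ter g ∈ U ∧ L.ini g = u ∧ L.lab g = w

/-- The zipping process.  It starts with the edges `E₀` and the vertices `V₀`; in each step one edge `e` and one
vertex are added.  `S` is the set of the edges and `U` the set of the vertices which have been added.

* `ini`, `lab`: one of the two vertices `ini e`, `lab e` is old and the other one is added.
* `close`: `ini e` and `lab e` are old, and the new vertex is `ter f`, where either `f = e` and `ini e`, `lab e`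
  are linked, or `f` is an old edge, `ter e` is old, and the two vertices `ini f`, `lab f` are linked to the
  two vertices `ini e`, `lab e`, in one of the two possible orders. -/
inductive Zipping (L : LOG V E) (V₀ : Set V) (E₀ : Set E) : Set E → Set V → Prop
  | start : Zipping L V₀ E₀ E₀ V₀
  | ini {S : Set E} {U : Set V} (e : E) : Zipping L V₀ E₀ S U → L.lab e ∈ U → L.ini e ∉ U →
      Zipping L V₀ E₀ (insert e S) (insert (L.ini e) U)
  | lab {S : Set E} {U : Set V} (e : E) : Zipping L V₀ E₀ S U → L.ini e ∈ U → L.lab e ∉ U →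
      Zipping L V₀ E₀ (insert e S) (insert (L.lab e) U)
  | close {S : Set E} {U : Set V} (e f : E) : Zipping L V₀ E₀ S U → e ∉ S → L.ini e ∈ U →
      L.lab e ∈ U → L.ter f ∉ U →
      ((f = e ∧ Linked L V₀ S U (L.ini e) (L.lab e)) ∨
        (f ∈ S ∧ L.ter e ∈ U ∧
          ((Linked L V₀ S U (L.ini f) (L.ini e) ∧ Linked L V₀ S U (L.lab f) (L.lab e)) ∨
            (Linked L V₀ S U (L.ini f) (L.lab e) ∧ Linked L V₀ S U (L.lab f) (L.ini e))))) →
      Zipping L V₀ E₀ (insert e S) (insert (L.ter f) U)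

/-- `L` arises from its subgraph `(V₀, E₀)` by the zipping process. -/
def ZipsFrom (L : LOG V E) (V₀ : Set V) (E₀ : Set E) : Prop :=
  Zipping L V₀ E₀ Set.univ Set.univ

theorem Zipping.cast {V E : Type} {L : LOG V E} {V₀ : Set V} {E₀ : Set E} {S S' : Set E}
    {U U' : Set V} (h : Zipping L V₀ E₀ S U) (hS : S = S') (hU : U = U') :
    Zipping L V₀ E₀ S' U' := by
  subst hS; subst hU; exact h

theorem Joined.mono {L : LOG V E} {V₀ : Set V} {A A' : Set E} {U U' : Set V} (hA : A ⊆ A')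
    (hU : U ⊆ U') {u w : V} (h : Joined L V₀ A U u w) : Joined L V₀ A' U' u w := by
  induction h with
  | rel a b h =>
    rcases h with h | ⟨g, hg, h1, h2, h3⟩
    · exact Relation.EqvGen.rel _ _ (Or.inl h)
    · exact Relation.EqvGen.rel _ _ (Or.inr ⟨g, hA hg, hU h1, h2, h3⟩)
  | refl a => exact Relation.EqvGen.refl a
  | symm a b _ ih => exact ih.symm _ _
  | trans a b c _ _ ih1 ih2 => exact ih1.trans _ _ _ ih2

/-- The ends `ini`, `lab` of an old edge with old `ter` are joined. -/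
theorem Zip.old_joined {L : LOG V E} {V₀ : Set V} {E₀ : Set E} (hc : Closed L V₀ E₀) {S A : Set E}
    {U : Set V} (h : Zip L V₀ E₀ S A U) :
    ∀ e ∈ S, L.ter e ∈ U → Joined L V₀ A U (L.ini e) (L.lab e) := by
  induction h with
  | start =>
    exact fun e he _ => Relation.EqvGen.rel _ _ (Or.inl ⟨(hc e he).1, (hc e he).2.2⟩)
  | @ini S A U e hz h1 h2 ih =>
    rintro g (rfl | hg) hg1
    · exact Relation.EqvGen.rel _ _ (Or.inr ⟨g, Set.mem_insert _ _, hg1, rfl, rfl⟩)
    · by_cases hA : g ∈ A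
      · exact Relation.EqvGen.rel _ _ (Or.inr ⟨g, Set.mem_insert_of_mem _ hA, hg1, rfl, rfl⟩)
      · by_cases h0 : g ∈ E₀
        · exact Relation.EqvGen.rel _ _ (Or.inl ⟨(hc g h0).1, (hc g h0).2.2⟩)
        · exact (ih g hg (hz.ter_mem g hg h0 hA)).mono (Set.subset_insert _ _)
            (Set.subset_insert _ _)
  | @lab S A U e hz h1 h2 ih =>
    rintro g (rfl | hg) hg1
    · exact Relation.EqvGen.rel _ _ (Or.inr ⟨g, Set.mem_insert _ _, hg1, rfl, rfl⟩)
    · by_cases hA : g ∈ A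
      · exact Relation.EqvGen.rel _ _ (Or.inr ⟨g, Set.mem_insert_of_mem _ hA, hg1, rfl, rfl⟩)
      · by_cases h0 : g ∈ E₀
        · exact Relation.EqvGen.rel _ _ (Or.inl ⟨(hc g h0).1, (hc g h0).2.2⟩)
        · exact (ih g hg (hz.ter_mem g hg h0 hA)).mono (Set.subset_insert _ _)
            (Set.subset_insert _ _)
  | @close S A U e f hz he h1 h2 h3 h4 ih =>
    rintro g (rfl | hg) hg1
    · rcases h4 with ⟨rfl, h⟩ | ⟨hf, _, h⟩
      · exact h.mono subset_rfl (Set.subset_insert _ _)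
      · have hff : Joined L V₀ A (insert (L.ter f) U) (L.ini f) (L.lab f) :=
          Relation.EqvGen.rel _ _ (Or.inr ⟨f, hf, Set.mem_insert _ _, rfl, rfl⟩)
        rcases h with ⟨j1, j2⟩ | ⟨j1, j2⟩
        · have k1 := j1.mono (subset_refl A) (Set.subset_insert (L.ter f) U)
          have k2 := j2.mono (subset_refl A) (Set.subset_insert (L.ter f) U)
          exact (k1.symm _ _).trans _ _ _ (hff.trans _ _ _ k2)
        · have k1 := j1.mono (subset_refl A) (Set.subset_insert (L.ter f) U)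
          have k2 := j2.mono (subset_refl A) (Set.subset_insert (L.ter f) U)
          exact (k2.symm _ _).trans _ _ _ ((hff.symm _ _).trans _ _ _ k1)
    · by_cases hA : g ∈ A
      · exact Relation.EqvGen.rel _ _ (Or.inr ⟨g, hA, hg1, rfl, rfl⟩)
      · by_cases h0 : g ∈ E₀
        · exact Relation.EqvGen.rel _ _ (Or.inl ⟨(hc g h0).1, (hc g h0).2.2⟩)
        · exact (ih g hg (hz.ter_mem g hg h0 hA)).mono subset_rfl (Set.subset_insert _ _)

theorem Zip.linked_joined {L : LOG V E} {V₀ : Set V} {E₀ : Set E} (hc : Closed L V₀ E₀)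
    {S A : Set E} {U : Set V} (h : Zip L V₀ E₀ S A U) {u w : V} (hl : Linked L V₀ S U u w) :
    Joined L V₀ A U u w := by
  induction hl with
  | rel u w h1 =>
    rcases h1 with h1 | ⟨g, hg, h2, rfl, rfl⟩
    · exact Relation.EqvGen.rel _ _ (Or.inl h1)
    · exact h.old_joined hc g hg h2
  | refl u => exact Relation.EqvGen.refl u
  | symm u w _ ih => exact ih.symm _ _
  | trans u v w _ _ ih1 ih2 => exact ih1.trans _ _ _ ih2

theorem exists_zip {L : LOG V E} {V₀ : Set V} {E₀ : Set E} (hc : Closed L V₀ E₀) {S : Set E}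
    {U : Set V} (h : Zipping L V₀ E₀ S U) : ∃ A : Set E, Zip L V₀ E₀ S A U := by
  induction h with
  | start => exact ⟨∅, Zip.start⟩
  | ini e _ h1 h2 ih =>
    obtain ⟨A, hA⟩ := ih
    exact ⟨insert e A, Zip.ini e hA h1 h2⟩
  | lab e _ h1 h2 ih =>
    obtain ⟨A, hA⟩ := ih
    exact ⟨insert e A, Zip.lab e hA h1 h2⟩
  | @close S U e f _ he h1 h2 h3 h4 ih =>
    obtain ⟨A, hA⟩ := ih
    refine ⟨A, Zip.close e f hA he h1 h2 h3 ?_⟩
    rcases h4 with ⟨h5, h6⟩ | ⟨hf, h5, h6⟩
    · exact Or.inl ⟨h5, hA.linked_joined hc h6⟩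
    · have hf0 : f ∉ E₀ := fun h => h3 (hA.base_sub.1 (hc f h).2.1)
      have hfA : f ∈ A := by
        by_contra hcon
        exact h3 (hA.ter_mem f hf hf0 hcon)
      refine Or.inr ⟨hfA, h5, ?_⟩
      rcases h6 with ⟨h7, h8⟩ | ⟨h7, h8⟩
      · exact Or.inl ⟨hA.linked_joined hc h7, hA.linked_joined hc h8⟩
      · exact Or.inr ⟨hA.linked_joined hc h7, hA.linked_joined hc h8⟩

theorem zips_of {L : LOG V E} {V₀ : Set V} {E₀ : Set E} (hc : Closed L V₀ E₀)
    (h : ZipsFrom L V₀ E₀) : Zips L V₀ E₀ := exists_zip hc h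

variable {L : LOG V E} {V₀ V₁ : Set V} {E₀ E₁ : Set E}

theorem asph_iff' (h₀ : Closed L V₀ E₀) (hz : ZipsFrom L V₀ E₀) (hne : V₀.Nonempty)
    (h₁ : Closed L V₁ E₁) (hV : V₀ ⊆ V₁) (hE : E₀ ⊆ E₁) :
    Function.Injective (incG h₀ h₁ hV hE) ∧
      (Asph (sub L V₁ E₁ h₁) ↔ Asph (sub L V₀ E₀ h₀)) :=
  asph_iff h₀ (zips_of h₀ hz) hne h₁ hV hE

theorem asph_all' (o : V) (hz : ZipsFrom L {o} ∅) (h₁ : Closed L V₁ E₁) :
    Asph (sub L V₁ E₁ h₁) :=
  have h₀ : Closed L {o} ∅ := fun _ h => h.elim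
  asph_all h₀ (zips_of h₀ hz) h₁

theorem locInd_iff' (h₀ : Closed L V₀ E₀) (hz : ZipsFrom L V₀ E₀) (hne : V₀.Nonempty)
    (h₁ : Closed L V₁ E₁) (hV : V₀ ⊆ V₁) (hE : E₀ ⊆ E₁) :
    LocInd (sub L V₁ E₁ h₁).G ↔ LocInd (sub L V₀ E₀ h₀).G :=
  locInd_iff h₀ (zips_of h₀ hz) hne h₁ hV hE

/-- the group of a single vertex -/
theorem locInd_point (o : V) (h₀ : Closed L {o} ∅) : LocInd (sub L {o} ∅ h₀).G := by
  let f : (sub L {o} ∅ h₀).G →* Multiplicative ℝ :=
    (AddMonoidHom.toMultiplicative (Int.castAddHom ℝ)).comp (deg (sub L {o} ∅ h₀))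
  refine locInd_of_inj locInd_real f ?_
  have key : ∀ g : (sub L {o} ∅ h₀).G,
      g = (sub L {o} ∅ h₀).gen ⟨o, rfl⟩ ^ dg (sub L {o} ∅ h₀) g := by
    intro g
    have hg : g ∈ Subgroup.closure
        (Set.range (PresentedGroup.of : ({o} : Set V) → (sub L {o} ∅ h₀).G)) := by
      rw [PresentedGroup.closure_range_of]; trivial
    induction hg using Subgroup.closure_induction with
    | mem x hx =>
      obtain ⟨v, rfl⟩ := hx
      have hv : v = ⟨o, rfl⟩ := Subtype.ext v.2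
      have h1 : dg (sub L {o} ∅ h₀) (PresentedGroup.of v : (sub L {o} ∅ h₀).G) = 1 :=
        dg_gen (sub L {o} ∅ h₀) v
      rw [h1, zpow_one, hv]
      rfl
    | one => rw [dg_one, zpow_zero]
    | mul x y _ _ h1 h2 =>
      rw [dg_mul, zpow_add, ← h1, ← h2]
    | inv x _ h1 => rw [dg_inv, zpow_neg, ← h1]
  rw [injective_iff_map_eq_one]
  intro g hg
  have h2 : ((dg (sub L {o} ∅ h₀) g : ℤ) : ℝ) = 0 := hg
  have h3 : dg (sub L {o} ∅ h₀) g = 0 := by exact_mod_cast h2
  rw [key g, h3, zpow_zero]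

theorem locInd_all' (o : V) (hz : ZipsFrom L {o} ∅) (h₁ : Closed L V₁ E₁) :
    LocInd (sub L V₁ E₁ h₁).G :=
  have h₀ : Closed L {o} ∅ := fun _ h => h.elim
  locInd_of_inj (locInd_restr h₀ (zips_of h₀ hz) (Set.empty_subset _) ⟨o, rfl⟩
    (locInd_point o h₀)) (toR h₁ subset_rfl) (toR_inj h₁)

end Pool.Agent.Q179.ZP
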